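import Pool.Agent.H97.IN.Stubs2

/-!
# IN-GEO: the conics
-/

set_option autoImplicit false

open Set MeasureTheory Filter Topology Complex
open scoped Real

namespace Pool.Agent.H97.IN

open Pool.Agent.H97.OB Pool.Agent.H97.OC

namespace Geo

/-- A curve `{e(φ) / H φ}` with `H > 0`, `(H - C·e)² = Q` for a quadratic form `Q`. -/
lemma conic {H HC : ℝ → ℝ} {C : ℂ} {A B D : ℝ} (hH : ∀ φ, 0 < H φ)
    (hHC : ∀ φ, H φ = HC φ + (C.re * Real.cos φ + C.im * Real.sin φ))
    (hsq : ∀ φ, HC φ ^ 2 = A * Real.cos φ ^ 2 + 2 * B * (Real.cos φ * Real.sin φ) +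
      D * Real.sin φ ^ 2) :
    0 < A - C.re ^ 2 ∧ (B - C.re * C.im) ^ 2 < (A - C.re ^ 2) * (D - C.im ^ 2) ∧
    ∀ z : ℂ, (∃ φ : ℝ, z = exp (φ * I) / (H φ : ℂ)) ↔
      (A - C.re ^ 2) * z.re ^ 2 + 2 * (B - C.re * C.im) * z.re * z.im +
        (D - C.im ^ 2) * z.im ^ 2 + 2 * C.re * z.re + 2 * C.im * z.im = 1 := by
  -- symmetry of `HC`
  have hsym : ∀ φ, HC (φ + π) = HC φ := by
    intro φ
    have h1 : HC (φ + π) ^ 2 = HC φ ^ 2 := by
      rw [hsq, hsq, Real.cos_add_pi, Real.sin_add_pi]
      ring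
    have h2 : (HC (φ + π) - HC φ) * (HC (φ + π) + HC φ) = 0 := by
      linear_combination h1
    rcases mul_eq_zero.mp h2 with h3 | h3
    · linarith
    · exfalso
      have h4 := hH φ
      have h5 := hH (φ + π)
      rw [hHC] at h4 h5
      rw [Real.cos_add_pi, Real.sin_add_pi] at h5
      linarith
  have hHπ : ∀ φ, H (φ + π) = HC φ - (C.re * Real.cos φ + C.im * Real.sin φ) := by
    intro φ
    rw [hHC, hsym, Real.cos_add_pi, Real.sin_add_pi]
    ring
  -- the form is positive
  have hform : ∀ φ, 0 < (A - C.re ^ 2) * Real.cos φ ^ 2 +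
      2 * (B - C.re * C.im) * (Real.cos φ * Real.sin φ) + (D - C.im ^ 2) * Real.sin φ ^ 2 := by
    intro φ
    have h1 : (A - C.re ^ 2) * Real.cos φ ^ 2 +
      2 * (B - C.re * C.im) * (Real.cos φ * Real.sin φ) + (D - C.im ^ 2) * Real.sin φ ^ 2 =
      H φ * H (φ + π) := by
      rw [hHπ, hHC φ]
      linear_combination -(hsq φ)
    rw [h1]
    exact mul_pos (hH _) (hH _)
  have hformz : ∀ z : ℂ, z ≠ 0 → 0 < (A - C.re ^ 2) * z.re ^ 2 +
      2 * (B - C.re * C.im) * (z.re * z.im) + (D - C.im ^ 2) * z.im ^ 2 := by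
    intro z hz
    have h1 := hform (arg z)
    have h2 : 0 < ‖z‖ := norm_pos_iff.mpr hz
    have h3 := mul_pos (pow_pos h2 2) h1
    rw [← Complex.norm_mul_cos_arg z, ← Complex.norm_mul_sin_arg z]
    have h4 : (A - C.re ^ 2) * (‖z‖ * Real.cos z.arg) ^ 2 +
        2 * (B - C.re * C.im) * (‖z‖ * Real.cos z.arg * (‖z‖ * Real.sin z.arg)) +
        (D - C.im ^ 2) * (‖z‖ * Real.sin z.arg) ^ 2 =
        ‖z‖ ^ 2 * ((A - C.re ^ 2) * Real.cos z.arg ^ 2 +
          2 * (B - C.re * C.im) * (Real.cos z.arg * Real.sin z.arg) +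
          (D - C.im ^ 2) * Real.sin z.arg ^ 2) := by ring
    rw [h4]
    exact h3
  have ha : 0 < A - C.re ^ 2 := by
    have := hform 0
    simpa using this
  refine ⟨ha, ?_, ?_⟩
  · have h1 := hformz ⟨-(B - C.re * C.im), A - C.re ^ 2⟩ (by
      intro h
      have := congrArg Complex.im h
      simp at this
      linarith)
    simp only at h1
    have h2 : 0 < (A - C.re ^ 2) *
        ((A - C.re ^ 2) * (D - C.im ^ 2) - (B - C.re * C.im) ^ 2) := by
      refine lt_of_lt_of_eq h1 ?_
      ring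
    have h3 := (mul_pos_iff_of_pos_left ha).mp h2
    linarith
  · intro z
    constructor
    · rintro ⟨φ, rfl⟩
      have hne := (hH φ).ne'
      have hre : (exp (φ * I) / (H φ : ℂ)).re = Real.cos φ / H φ := by
        rw [Complex.div_ofReal_re, Complex.exp_ofReal_mul_I_re]
      have him : (exp (φ * I) / (H φ : ℂ)).im = Real.sin φ / H φ := by
        rw [Complex.div_ofReal_im, Complex.exp_ofReal_mul_I_im]
      rw [hre, him]
      have h1 := hsq φ
      have h2 := hHC φ
      have h3 : HC φ = H φ - (C.re * Real.cos φ + C.im * Real.sin φ) := by linarith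
      rw [h3] at h1
      field_simp
      linear_combination -h1
    · intro he
      have hz : z ≠ 0 := by
        rintro rfl
        simp at he
      have h2 : 0 < ‖z‖ := norm_pos_iff.mpr hz
      obtain ⟨R, hR⟩ : ∃ R, R = ‖z‖ := ⟨_, rfl⟩
      obtain ⟨φ, hφ⟩ : ∃ φ, φ = arg z := ⟨_, rfl⟩
      have hre : z.re = R * Real.cos φ := by rw [hR, hφ, Complex.norm_mul_cos_arg]
      have him : z.im = R * Real.sin φ := by rw [hR, hφ, Complex.norm_mul_sin_arg]
      have hzz : z = (R : ℂ) * exp (φ * I) := by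
        rw [hR, hφ, Complex.norm_mul_exp_arg_mul_I]
      rw [← hR] at h2
      rw [hre, him] at he
      have h3 : (1 - R * H φ) * (1 + R * H (φ + π)) = 0 := by
        rw [hHπ, hHC φ]
        linear_combination -he - R ^ 2 * hsq φ
      rcases mul_eq_zero.mp h3 with h4 | h4
      · refine ⟨φ, ?_⟩
        have h5 : R = 1 / H φ := by
          have := (hH φ).ne'
          field_simp
          linarith
        rw [hzz, h5]
        push_cast
        ring
      · exfalso
        have := mul_pos h2 (hH (φ + π))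
        linarith

end Geo

theorem geo : S_geo := by
  intro γ Y h t r G G1 G2 σ u v hF hY0 C A B D hA hB hpos hQ hsin
  obtain ⟨c1, c2, c3⟩ := Geo.conic (H := h) (HC := hC h C) (C := C) hF.hpos
    (fun φ => by unfold hC; ring) hQ
  have hγ : ∀ z : ℂ, z ∈ range γ ↔
      (A - C.re ^ 2) * z.re ^ 2 + 2 * (B - C.re * C.im) * z.re * z.im +
        (D - C.im ^ 2) * z.im ^ 2 + 2 * C.re * z.re + 2 * C.im * z.im = 1 := fun z => by
    rw [hF.base, c3]
  refine ⟨A - C.re ^ 2, B - C.re * C.im, D - C.im ^ 2, C.re, C.im, hγ, ?_⟩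
  intro c hc0 hc1
  rcases hc0.eq_or_lt with rfl | hc
  · refine ⟨0, le_rfl, by simpa using c1, by simpa using c2, fun z => ?_⟩
    rw [hY0, hγ]
    simp
  · obtain ⟨κ, hκ, hs⟩ := hsin c hc hc1
    have hl : 0 ≤ κ ^ 2 * (A * D - B ^ 2) := by
      have : 0 < A * D - B ^ 2 := by linarith
      positivity
    -- the derivative of `hC`
    have hdC : ∀ x, HasDerivAt (hC h C) (tC t C x) x := fun x => by
      have h1 := (hF.supp.dh x).sub (((Real.hasDerivAt_cos x).const_mul C.re).add
        ((Real.hasDerivAt_sin x).const_mul C.im))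
      refine h1.congr_deriv ?_
      unfold tC; ring
    have hS : ∀ x, hC h C x * tC t C x = (D - A) * (Real.cos x * Real.sin x) +
        B * (Real.cos x ^ 2 - Real.sin x ^ 2) := by
      intro x
      have h1 := (hdC x).pow 2
      have h2 : HasDerivAt (fun x => A * Real.cos x ^ 2 + 2 * B * (Real.cos x * Real.sin x) +
          D * Real.sin x ^ 2) (A * (2 * Real.cos x * -Real.sin x) +
          2 * B * (-Real.sin x * Real.sin x + Real.cos x * Real.cos x) +
          D * (2 * Real.sin x * Real.cos x)) x := by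
        have e1 := ((Real.hasDerivAt_cos x).pow 2).const_mul A
        have e2 := ((Real.hasDerivAt_cos x).mul (Real.hasDerivAt_sin x)).const_mul (2 * B)
        have e3 := ((Real.hasDerivAt_sin x).pow 2).const_mul D
        refine ((e1.add e2).add e3).congr_deriv ?_
        push_cast
        ring
      have h3 : (hC h C ^ 2) = fun x => A * Real.cos x ^ 2 +
          2 * B * (Real.cos x * Real.sin x) + D * Real.sin x ^ 2 := by
        funext y
        exact hQ y
      rw [h3] at h1
      have h4 := h1.unique h2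
      push_cast at h4
      linarith
    have hσc : Continuous (σ c) :=
      continuous_iff_continuousAt.2 fun x => (hF.sd c hc hc1 x).continuousAt
    have hσb := hF.spos c hc hc1
    -- every `φ` is of the form `x + σ c x`
    have hsurj : Function.Surjective fun x => x + σ c x := by
      apply (continuous_id.add hσc).surjective
      · refine tendsto_atTop_mono (fun x => ?_) tendsto_id
        show x ≤ x + σ c x
        linarith [(hσb x).1]
      · refine tendsto_atBot_mono (fun x => ?_)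
          (tendsto_atBot_add_const_right _ (π / 2) tendsto_id)
        show x + σ c x ≤ x + π / 2
        linarith [(hσb x).2]
    have hsq : ∀ φ, (G c φ - (C.re * Real.cos φ + C.im * Real.sin φ)) ^ 2 =
        (A - κ ^ 2 * (A * D - B ^ 2)) * Real.cos φ ^ 2 +
          2 * B * (Real.cos φ * Real.sin φ) +
          (D - κ ^ 2 * (A * D - B ^ 2)) * Real.sin φ ^ 2 := by
      intro φ
      obtain ⟨x, rfl⟩ := hsurj φ
      simp only
      have e0 := hF.plus c hc hc1 x
      have e1 : G c (x + σ c x) - (C.re * Real.cos (x + σ c x) + C.im * Real.sin (x + σ c x)) =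
          hC h C x * Real.cos (σ c x) + tC t C x * Real.sin (σ c x) := by
        rw [e0, Real.cos_add, Real.sin_add]
        unfold hC tC
        ring
      rw [e1]
      have e2 := hQ x
      have e3 := hS x
      have e4 := hs x
      have e5 := Real.cos_sq_add_sin_sq x
      have e6 := Real.cos_sq_add_sin_sq (x + σ c x)
      have e7 : (A - κ ^ 2 * (A * D - B ^ 2)) * Real.cos (x + σ c x) ^ 2 +
          2 * B * (Real.cos (x + σ c x) * Real.sin (x + σ c x)) +
          (D - κ ^ 2 * (A * D - B ^ 2)) * Real.sin (x + σ c x) ^ 2 =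
          (A * Real.cos (x + σ c x) ^ 2 + 2 * B * (Real.cos (x + σ c x) * Real.sin (x + σ c x)) +
            D * Real.sin (x + σ c x) ^ 2) - κ ^ 2 * (A * D - B ^ 2) := by
        linear_combination -(κ ^ 2 * (A * D - B ^ 2)) * e6
      rw [e7, Real.cos_add, Real.sin_add]
      obtain ⟨cx, hcx⟩ : ∃ cx, cx = Real.cos x := ⟨_, rfl⟩
      obtain ⟨sx, hsx⟩ : ∃ sx, sx = Real.sin x := ⟨_, rfl⟩
      obtain ⟨cs, hcs⟩ : ∃ cs, cs = Real.cos (σ c x) := ⟨_, rfl⟩
      obtain ⟨ss, hss⟩ : ∃ ss, ss = Real.sin (σ c x) := ⟨_, rfl⟩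
      obtain ⟨hc', hhc⟩ : ∃ y, y = hC h C x := ⟨_, rfl⟩
      obtain ⟨tc', htc⟩ : ∃ y, y = tC t C x := ⟨_, rfl⟩
      rw [← hcx, ← hsx] at e2 e3 e5
      rw [← hhc] at e2 e3 e4
      rw [← htc] at e3
      rw [← hss] at e4
      rw [← hcx, ← hsx, ← hcs, ← hss, ← hhc, ← htc]
      -- determinant
      have e8 : A * D - B ^ 2 = (A * cx ^ 2 + 2 * B * (cx * sx) + D * sx ^ 2) *
          (A * sx ^ 2 - 2 * B * (cx * sx) + D * cx ^ 2) -
          ((D - A) * (cx * sx) + B * (cx ^ 2 - sx ^ 2)) ^ 2 := by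
        linear_combination -(A * D - B ^ 2) * (cx ^ 2 + sx ^ 2 + 1) * e5
      have e9 : tc' ^ 2 * ss ^ 2 = (A * sx ^ 2 - 2 * B * (cx * sx) + D * cx ^ 2) * ss ^ 2 -
          κ ^ 2 * (A * D - B ^ 2) := by
        rw [e8, ← e2, ← e3, e4]
        ring
      linear_combination cs ^ 2 * e2 + 2 * cs * ss * e3 + e9
    obtain ⟨d1, d2, d3⟩ := Geo.conic (H := G c)
      (HC := fun φ => G c φ - (C.re * Real.cos φ + C.im * Real.sin φ)) (C := C)
      (hF.Gpos c hc hc1) (fun φ => by ring) hsq
    refine ⟨κ ^ 2 * (A * D - B ^ 2), hl, ?_, ?_, fun z => ?_⟩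
    · linarith
    · refine lt_of_lt_of_eq d2 ?_
      ring
    · rw [hF.leaf c hc hc1, d3]
      constructor
      · intro he
        linear_combination he
      · intro he
        linear_combination he

end Pool.Agent.H97.IN
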