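import Pool.Agent.H97.IN.Stubs

/-! IN-HOPF (by helper4): the integrated identity on one leaf. -/

set_option autoImplicit false

open Set MeasureTheory Filter Topology
open scoped Real

namespace Pool.Agent.H97.IN

theorem hopf3_int {φ φ' g : ℝ → ℝ} (hd : ∀ θ, HasDerivAt φ (φ' θ) θ) (hc : Continuous φ')
    (hg : Continuous g) (hper : ∀ θ, g (θ + 2 * π) = g θ) (hφ : φ (2 * π) = φ 0 + 2 * π) :
    ∫ θ in (0 : ℝ)..(2 * π), g (φ θ) * φ' θ = ∫ θ in (0 : ℝ)..(2 * π), g θ := by
  have h := intervalIntegral.integral_comp_mul_deriv (a := 0) (b := 2 * π) (f := φ) (f' := φ')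
    (g := g) (fun x _ => hd x) hc.continuousOn hg
  have h2 : (∫ x in φ 0..φ 0 + 2 * π, g x) = ∫ x in (0 : ℝ)..0 + 2 * π, g x :=
    Function.Periodic.intervalIntegral_add_eq (f := g) (T := 2 * π) hper (φ 0) 0
  rw [hφ, h2, zero_add] at h
  exact h

theorem hopf3 : S_hopf3 := by
  intro h t r d u v G G1 G2 hS hu hv hG1 hG2 dd u1 dper Gper G2per Gd plus minus G2p G2m
  have ch : Continuous h := continuous_iff_continuousAt.2 fun x => (hS.dh x).continuousAt
  have ct : Continuous t := continuous_iff_continuousAt.2 fun x => (hS.dt x).continuousAt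
  have cd : Continuous d := continuous_iff_continuousAt.2 fun x => (dd x).continuousAt
  have cG : Continuous G := continuous_iff_continuousAt.2 fun x => (Gd x).continuousAt
  have cr := hS.cont
  have G1per : ∀ φ, G1 (φ + 2 * π) = G1 φ := fun φ => by
    have h1 : HasDerivAt (fun y => G (y + 2 * π)) (G1 (φ + 2 * π)) φ :=
      (Gd (φ + 2 * π)).comp_add_const φ (2 * π)
    have h3 : (fun y => G (y + 2 * π)) = G := funext Gper
    rw [h3] at h1
    exact h1.unique (Gd φ)
  set g : ℝ → ℝ := fun φ => G φ ^ 2 * G1 φ * G2 φ with hg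
  have cg : Continuous g := by simp only [hg]; fun_prop
  have gper : ∀ φ, g (φ + 2 * π) = g φ := fun φ => by simp only [hg, Gper, G1per, G2per]
  have d0 : d (2 * π) = d 0 := by simpa using dper 0
  have dp : ∀ x, HasDerivAt (fun x => x + d x) (1 + u x) x := fun x => (hasDerivAt_id x).add (dd x)
  have dm : ∀ x, HasDerivAt (fun x => x - d x) (1 - u x) x := fun x => (hasDerivAt_id x).sub (dd x)
  have ip := hopf3_int dp (by fun_prop) cg gper (by simp only [d0]; ring)
  have im := hopf3_int dm (by fun_prop) cg gper (by simp only [d0]; ring)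
  have cgp : Continuous fun x => g (x + d x) * (1 + u x) := by fun_prop
  have cgm : Continuous fun x => g (x - d x) * (1 - u x) := by fun_prop
  -- derivatives of the relations
  have e1 : ∀ x, G1 (x + d x) * (1 + u x) =
      (t x * Real.cos (d x) - h x * Real.sin (d x)) * (1 + u x) + r x * Real.sin (d x) := by
    intro x
    have A : HasDerivAt (fun x => h x * Real.cos (d x) + t x * Real.sin (d x))
        ((t x * Real.cos (d x) + h x * (-Real.sin (d x) * u x)) +
          ((r x - h x) * Real.sin (d x) + t x * (Real.cos (d x) * u x))) x :=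
      ((hS.dh x).mul ((dd x).cos)).add ((hS.dt x).mul ((dd x).sin))
    have B : HasDerivAt (fun x => G (x + d x)) (G1 (x + d x) * (1 + u x)) x :=
      (Gd (x + d x)).comp x (dp x)
    have hf : (fun x => G (x + d x)) = fun x => h x * Real.cos (d x) + t x * Real.sin (d x) :=
      funext plus
    rw [hf] at B
    rw [B.unique A]
    ring
  have e2 : ∀ x, G1 (x - d x) * (1 - u x) =
      (t x * Real.cos (d x) + h x * Real.sin (d x)) * (1 - u x) - r x * Real.sin (d x) := by
    intro x
    have A : HasDerivAt (fun x => h x * Real.cos (d x) - t x * Real.sin (d x))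
        ((t x * Real.cos (d x) + h x * (-Real.sin (d x) * u x)) -
          ((r x - h x) * Real.sin (d x) + t x * (Real.cos (d x) * u x))) x :=
      ((hS.dh x).mul ((dd x).cos)).sub ((hS.dt x).mul ((dd x).sin))
    have B : HasDerivAt (fun x => G (x - d x)) (G1 (x - d x) * (1 - u x)) x :=
      (Gd (x - d x)).comp x (dm x)
    have hf : (fun x => G (x - d x)) = fun x => h x * Real.cos (d x) - t x * Real.sin (d x) :=
      funext minus
    rw [hf] at B
    rw [B.unique A]
    ring
  have hpt : ∀ x, NN3 (h x) (t x) (r x) (d x) (u x) * v x =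
      QQ3 (h x) (t x) (r x) (d x) * v x +
        (g (x + d x) * (1 + u x) - g (x - d x) * (1 - u x)) := by
    intro x
    have hu1 := abs_lt.1 (u1 x)
    have p1 : 1 + u x ≠ 0 := by linarith
    have p2 : 1 - u x ≠ 0 := by linarith
    have p3 : 1 - u x ^ 2 ≠ 0 := by
      have : 1 - u x ^ 2 = (1 + u x) * (1 - u x) := by ring
      rw [this]; exact mul_ne_zero p1 p2
    have a1 : G1 (x + d x) = (t x * Real.cos (d x) - h x * Real.sin (d x)) +
        r x * Real.sin (d x) / (1 + u x) := by
      have := e1 x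
      field_simp
      linarith
    have a2 : G1 (x - d x) = (t x * Real.cos (d x) + h x * Real.sin (d x)) -
        r x * Real.sin (d x) / (1 - u x) := by
      have := e2 x
      field_simp
      linarith
    have b1 : g (x + d x) * (1 + u x) = (h x * Real.cos (d x) + t x * Real.sin (d x)) ^ 2 *
        ((t x * Real.cos (d x) - h x * Real.sin (d x)) + r x * Real.sin (d x) / (1 + u x)) *
        (v x * (r x * Real.sin (d x))) := by
      rw [← a1, ← plus x, ← G2p x]; simp only [hg]; ring
    have b2 : g (x - d x) * (1 - u x) = (h x * Real.cos (d x) - t x * Real.sin (d x)) ^ 2 *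
        ((t x * Real.cos (d x) + h x * Real.sin (d x)) - r x * Real.sin (d x) / (1 - u x)) *
        (v x * (r x * Real.sin (d x))) := by
      rw [← a2, ← minus x, ← G2m x]; simp only [hg]; ring
    rw [b1, b2]
    have q : Real.cos (d x) ^ 2 = 1 - Real.sin (d x) ^ 2 := by
      have := Real.sin_sq_add_cos_sq (d x); linarith
    unfold NN3 QQ3
    generalize Real.sin (d x) = S at *
    generalize Real.cos (d x) = C at *
    have key : 2 * r x ^ 2 * S ^ 2 * (u x * (h x * C) - t x * S) ^ 2 / (1 - u x ^ 2) =
        r x ^ 2 * S ^ 2 * ((h x * C + t x * S) ^ 2 / (1 + u x) +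
          (h x * C - t x * S) ^ 2 / (1 - u x) - 2 * h x ^ 2 * C ^ 2) := by
      have : 1 - u x ^ 2 = (1 + u x) * (1 - u x) := by ring
      rw [this]
      field_simp
      ring
    rw [key]
    have key2 : ∀ a b : ℝ, r x ^ 2 * S ^ 2 * ((h x * C + t x * S) ^ 2 / a +
          (h x * C - t x * S) ^ 2 / b - 2 * h x ^ 2 * C ^ 2) * v x =
        (2 * r x * (h x ^ 3 * (S ^ 2 * C ^ 2) + h x * t x ^ 2 * (S ^ 2 * (S ^ 2 + C ^ 2) - 3 * (S ^ 2 * C ^ 2))) -
          2 * r x ^ 2 * h x ^ 2 * (S ^ 2 * C ^ 2)) * v x +
        ((h x * C + t x * S) ^ 2 * (t x * C - h x * S + r x * S / a) * (v x * (r x * S)) -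
          (h x * C - t x * S) ^ 2 * (t x * C + h x * S - r x * S / b) * (v x * (r x * S))) := by
      intro a b
      ring
    rw [key2]
    have q1 : S ^ 2 + C ^ 2 = 1 := by linarith
    rw [q1, mul_one]
  have hQ : Continuous fun x => QQ3 (h x) (t x) (r x) (d x) * v x := by
    unfold QQ3; fun_prop
  have hcd : Continuous fun x => g (x + d x) * (1 + u x) - g (x - d x) * (1 - u x) := cgp.sub cgm
  have hsub := intervalIntegral.integral_sub (cgp.intervalIntegrable (μ := volume) 0 (2 * π))
    (cgm.intervalIntegrable (μ := volume) 0 (2 * π))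
  rw [ip, im, sub_self] at hsub
  have hadd := intervalIntegral.integral_add (hQ.intervalIntegrable (μ := volume) 0 (2 * π))
    (hcd.intervalIntegrable (μ := volume) 0 (2 * π))
  rw [hsub, add_zero] at hadd
  rw [intervalIntegral.integral_congr (f := fun x => NN3 (h x) (t x) (r x) (d x) (u x) * v x)
    (fun x _ => hpt x)]
  exact hadd.symm

end Pool.Agent.H97.IN
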