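import Pool.Agent.H97.IN.Stubs2

/-! # IN-RAD: the reciprocal polar radius of the leaves (helper92) -/

set_option autoImplicit false

open Set MeasureTheory Filter Topology Complex
open scoped Real ContDiff

namespace Pool.Agent.H97.IN

open Pool.Agent.H97.OB Pool.Agent.H97.OC

variable {γ : ℝ → ℂ} {ρ : ℝ → ℝ} {Y : ℂ → ℝ}

/-- the point of the leaf on the ray -/
noncomputable def zz (Y : ℂ → ℝ) (c φ : ℝ) : ℂ := Rad Y c φ * exp (φ * I)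

lemma zz_per (c φ : ℝ) : zz Y c (φ + 2 * π) = zz Y c φ := by
  unfold zz
  rw [Sit.Rad_periodic, Sit.exp_periodic']

lemma Y_zz (h : Sit γ ρ Y) {c : ℝ} (h0 : 0 < c) (h1 : c ≤ 1) (φ : ℝ) : Y (zz Y c φ) = c :=
  (h.Rad_spec h0 h1 φ).2

lemma fd_pos (h : Sit γ ρ Y) {c : ℝ} (h0 : 0 < c) (h1 : c ≤ 1) (φ : ℝ) :
    0 < fderiv ℝ Y (zz Y c φ) (zz Y c φ) := by
  have h3 := Y_zz h h0 h1 φ
  exact h.radial_pos (z := zz Y c φ) (by rw [h3]; exact h0) (by rw [h3]; exact h1)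

lemma fd_eq (c φ : ℝ) : fderiv ℝ Y (zz Y c φ) (zz Y c φ) =
    Rad Y c φ * fderiv ℝ Y (zz Y c φ) (exp (φ * I)) := by
  have h5 : (zz Y c φ : ℂ) = Rad Y c φ • exp (φ * I) := by rw [real_smul, zz]
  nth_rewrite 2 [h5]
  rw [map_smul, smul_eq_mul]

theorem ray_implicit (h : Sit γ ρ Y) {c : ℝ} (h0 : 0 < c) (h1 : c ≤ 1) (φ : ℝ) :
    ∃ (ψ : ℝ × ℝ → ℝ) (L : ℝ × ℝ →L[ℝ] ℝ), HasStrictFDerivAt ψ L (c, φ) ∧
      (∀ a b : ℝ, L (a, b) = (a - b * fderiv ℝ Y (zz Y c φ) (I * zz Y c φ)) /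
        fderiv ℝ Y (zz Y c φ) (exp (φ * I))) ∧
      (∀ᶠ q in 𝓝 (c, φ), 0 < q.1 → q.1 ≤ 1 → ψ q = Rad Y q.1 q.2) := by
  obtain ⟨h2, h3⟩ := h.Rad_spec h0 h1 φ
  have hA : ContDiff ℝ ∞ (fun u : ℝ × ℝ => (u.2 : ℂ) * exp (u.1 * I)) :=
    (ofRealCLM.contDiff.comp contDiff_snd).mul
      (((ofRealCLM.contDiff.comp contDiff_fst).mul contDiff_const).cexp)
  have hA' : HasStrictFDerivAt (fun u : ℝ × ℝ => (u.2 : ℂ) * exp (u.1 * I))
      (fderiv ℝ (fun u : ℝ × ℝ => (u.2 : ℂ) * exp (u.1 * I)) (φ, Rad Y c φ)) (φ, Rad Y c φ) :=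
    hA.contDiffAt.hasStrictFDerivAt (by norm_num)
  have hY : HasStrictFDerivAt Y (fderiv ℝ Y (zz Y c φ))
      (Rad Y c φ * exp (φ * I)) :=
    (h.contDiffAt (z := zz Y c φ) (by rw [Y_zz h h0 h1]; exact h0.le)
      (by rw [Y_zz h h0 h1]; exact h1)).hasStrictFDerivAt (by norm_num)
  have hval : fderiv ℝ (fun u : ℝ × ℝ => (u.2 : ℂ) * exp (u.1 * I)) (φ, Rad Y c φ) (0, 1) =
      exp (φ * I) := by
    have e1 : HasDerivAt (fun s : ℝ => ((φ, s) : ℝ × ℝ)) (0, 1) (Rad Y c φ) :=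
      (hasDerivAt_const _ φ).prodMk (hasDerivAt_id _)
    have e2 : HasDerivAt (fun s : ℝ => (s : ℂ) * exp (φ * I)) (exp (φ * I)) (Rad Y c φ) := by
      simpa using (ofRealCLM.hasDerivAt (x := Rad Y c φ)).mul_const (exp (φ * I))
    exact (HasFDerivAt.comp_hasDerivAt (f := fun s : ℝ => ((φ, s) : ℝ × ℝ)) _
      hA'.hasFDerivAt e1).unique e2
  have hval1 : fderiv ℝ (fun u : ℝ × ℝ => (u.2 : ℂ) * exp (u.1 * I)) (φ, Rad Y c φ) (1, 0) =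
      I * zz Y c φ := by
    have e1 : HasDerivAt (fun s : ℝ => ((s, Rad Y c φ) : ℝ × ℝ)) (1, 0) φ :=
      (hasDerivAt_id _).prodMk (hasDerivAt_const _ _)
    have e2 : HasDerivAt (fun s : ℝ => (Rad Y c φ : ℂ) * exp (s * I)) (I * zz Y c φ) φ := by
      have h1 : HasDerivAt (fun θ : ℝ => (θ : ℂ) * I) I φ := by
        simpa using (ofRealCLM.hasDerivAt (x := φ)).mul_const I
      refine (h1.cexp.const_mul (Rad Y c φ : ℂ)).congr_deriv ?_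
      unfold zz
      ring
    exact (HasFDerivAt.comp_hasDerivAt (f := fun s : ℝ => ((s, Rad Y c φ) : ℝ × ℝ)) _
      hA'.hasFDerivAt e1).unique e2
  have hne : fderiv ℝ Y (zz Y c φ) (exp (φ * I)) ≠ 0 := (h.radial_fderiv_pos h0 h1 φ).ne'
  obtain ⟨ψ, L, hψ, hL, hev⟩ := implicit_gen (Y := Y)
    (A := fun u : ℝ × ℝ => (u.2 : ℂ) * exp (u.1 * I)) (S := Rad Y) (c₀ := c) (x₀ := φ)
    (s₀ := Rad Y c φ) hY hA' (by rw [hval]; exact hne) h3 h2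
    (fun c' x s hc0 hc1 hs hc => h.Rad_unique hc0 hc1 hs hc)
  rw [hval, hval1] at hL
  exact ⟨ψ, L, hψ, hL, hev⟩

/-- the reciprocal radius -/
noncomputable def GG (Y : ℂ → ℝ) (c φ : ℝ) : ℝ := (Rad Y c φ)⁻¹

noncomputable def GG1 (Y : ℂ → ℝ) (c φ : ℝ) : ℝ :=
  fderiv ℝ Y (zz Y c φ) (I * zz Y c φ) / (Rad Y c φ * fderiv ℝ Y (zz Y c φ) (zz Y c φ))

noncomputable def GG2 (Y : ℂ → ℝ) (c φ : ℝ) : ℝ :=
  1 / (Rad Y c φ * fderiv ℝ Y (zz Y c φ) (zz Y c φ))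

theorem inv_implicit (h : Sit γ ρ Y) {c : ℝ} (h0 : 0 < c) (h1 : c ≤ 1) (φ : ℝ) :
    ∃ (ψ : ℝ × ℝ → ℝ), HasFDerivAt ψ (-(GG2 Y c φ) • ContinuousLinearMap.fst ℝ ℝ ℝ +
        GG1 Y c φ • ContinuousLinearMap.snd ℝ ℝ ℝ) (c, φ) ∧
      (∀ᶠ q in 𝓝 (c, φ), 0 < q.1 → q.1 ≤ 1 → ψ q = GG Y q.1 q.2) := by
  obtain ⟨ψ, L, hψ, hL, hev⟩ := ray_implicit h h0 h1 φ
  have h2 := (h.Rad_spec h0 h1 φ).1
  have h3 : ψ (c, φ) = Rad Y c φ := hev.self_of_nhds h0 h1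
  have h4 : HasFDerivAt (fun q => (ψ q)⁻¹) ((-(ψ (c, φ) ^ 2)⁻¹) • L) (c, φ) :=
    HasDerivAt.comp_hasFDerivAt (f := ψ) (c, φ) (hasDerivAt_inv (by rw [h3]; exact h2.ne'))
      hψ.hasFDerivAt
  refine ⟨fun q => (ψ q)⁻¹, h4.congr_fderiv ?_, ?_⟩
  · have hb : fderiv ℝ Y (zz Y c φ) (exp (φ * I)) ≠ 0 := (h.radial_fderiv_pos h0 h1 φ).ne'
    have key : ∀ a b : ℝ, ((-(ψ (c, φ) ^ 2)⁻¹) • L) (a, b) =
        (-(GG2 Y c φ) • ContinuousLinearMap.fst ℝ ℝ ℝ +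
        GG1 Y c φ • ContinuousLinearMap.snd ℝ ℝ ℝ) (a, b) := by
      intro a b
      simp only [_root_.add_apply, _root_.smul_apply,
        ContinuousLinearMap.coe_fst', ContinuousLinearMap.coe_snd', smul_eq_mul, hL, h3, GG1, GG2,
        fd_eq]
      have := h2.ne'
      field_simp
      ring
    refine ContinuousLinearMap.ext fun q => ?_
    exact key q.1 q.2
  · filter_upwards [hev] with q hq hq0 hq1
    rw [hq hq0 hq1, GG]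

lemma GG_deriv (h : Sit γ ρ Y) {c : ℝ} (h0 : 0 < c) (h1 : c ≤ 1) (φ : ℝ) :
    HasDerivAt (GG Y c) (GG1 Y c φ) φ := by
  obtain ⟨ψ, hψ, hev⟩ := inv_implicit h h0 h1 φ
  have e1 : HasDerivAt (fun θ : ℝ => ((c, θ) : ℝ × ℝ)) (0, 1) φ :=
    (hasDerivAt_const φ c).prodMk (hasDerivAt_id φ)
  have e2 := HasFDerivAt.comp_hasDerivAt (f := fun θ : ℝ => ((c, θ) : ℝ × ℝ)) φ hψ e1
  have e3 : GG Y c =ᶠ[𝓝 φ] fun θ => ψ (c, θ) := by
    have : Tendsto (fun θ : ℝ => ((c, θ) : ℝ × ℝ)) (𝓝 φ) (𝓝 (c, φ)) := e1.continuousAt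
    filter_upwards [this.eventually hev] with t ht
    exact (ht h0 h1).symm
  refine (e2.congr_of_eventuallyEq e3).congr_deriv ?_
  simp

lemma zz_cont (h : Sit γ ρ Y) {c : ℝ} (h0 : 0 < c) (h1 : c ≤ 1) : Continuous (zz Y c) := by
  have hR := h.Rad_continuous h0 h1
  unfold zz
  fun_prop

lemma fd_cont (h : Sit γ ρ Y) {c : ℝ} (h0 : 0 < c) (h1 : c ≤ 1) :
    Continuous fun φ : ℝ => fderiv ℝ Y (zz Y c φ) := by
  rw [continuous_iff_continuousAt]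
  intro φ
  have h3 := Y_zz h h0 h1 φ
  have h4 : ContDiffAt ℝ 1 Y (zz Y c φ) :=
    h.contDiffAt (by rw [h3]; exact h0.le) (by rw [h3]; exact h1)
  have h5 : ContinuousAt (fderiv ℝ Y) (zz Y c φ) :=
    (h4.fderiv_right (m := 0) (by norm_num)).continuousAt
  exact ContinuousAt.comp (f := zz Y c) h5 (zz_cont h h0 h1).continuousAt

lemma den_pos (h : Sit γ ρ Y) {c : ℝ} (h0 : 0 < c) (h1 : c ≤ 1) (φ : ℝ) :
    0 < Rad Y c φ * fderiv ℝ Y (zz Y c φ) (zz Y c φ) :=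
  mul_pos (h.Rad_spec h0 h1 φ).1 (fd_pos h h0 h1 φ)

lemma den_cont (h : Sit γ ρ Y) {c : ℝ} (h0 : 0 < c) (h1 : c ≤ 1) :
    Continuous fun φ : ℝ => Rad Y c φ * fderiv ℝ Y (zz Y c φ) (zz Y c φ) :=
  (h.Rad_continuous h0 h1).mul ((fd_cont h h0 h1).clm_apply (zz_cont h h0 h1))

theorem rad : S_rad := by
  intro γ ρ Y h
  refine ⟨GG Y, GG1 Y, GG2 Y, ?_, ?_, ?_, ?_, ?_, ?_, ?_, ?_, ?_, ?_⟩
  · intro c h0 h1 z
    have hform : ∀ φ : ℝ, exp (φ * I) / (GG Y c φ : ℂ) = zz Y c φ := by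
      intro φ
      unfold GG zz
      push_cast
      rw [div_inv_eq_mul, mul_comm]
    constructor
    · intro hz
      have hz0 : z ≠ 0 := by
        rintro rfl
        have := h.inside_zero
        linarith
      refine ⟨arg z, ?_⟩
      rw [hform]
      have h2 : ((‖z‖ : ℝ) : ℂ) * exp (arg z * I) = z := norm_mul_exp_arg_mul_I z
      have h3 := h.Rad_unique h0 h1 (φ := arg z) (s := ‖z‖) (norm_pos_iff.2 hz0)
        (by rw [h2]; exact hz)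
      unfold zz
      rw [← h3, h2]
    · rintro ⟨φ, rfl⟩
      rw [hform]
      exact Y_zz h h0 h1 φ
  · intro c h0 h1 φ
    exact inv_pos.2 (h.Rad_spec h0 h1 φ).1
  · intro c h0 h1 φ s hs hc
    have h2 : exp (φ * I) / (s : ℂ) = ((s⁻¹ : ℝ) : ℂ) * exp (φ * I) := by
      push_cast
      rw [div_eq_mul_inv, mul_comm]
    rw [h2] at hc
    have h3 := h.Rad_unique h0 h1 (inv_pos.2 hs) hc
    unfold GG
    rw [← h3, inv_inv]
  · intro c _ _ φ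
    unfold GG
    rw [Sit.Rad_periodic]
  · intro c _ _ φ
    unfold GG2
    rw [Sit.Rad_periodic, zz_per]
  · intro c h0 h1 φ
    exact GG_deriv h h0 h1 φ
  · intro c h0 h1
    unfold GG1
    exact ((fd_cont h h0 h1).clm_apply (continuous_const.mul (zz_cont h h0 h1))).div
      (den_cont h h0 h1) fun φ => (den_pos h h0 h1 φ).ne'
  · intro c h0 h1
    unfold GG2
    exact continuous_const.div (den_cont h h0 h1) fun φ => (den_pos h h0 h1 φ).ne'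
  · intro c h0 h1 φ
    unfold GG2
    exact one_div_pos.2 (den_pos h h0 h1 φ)
  · intro c h0 h1 φ
    obtain ⟨ψ, hψ, hev⟩ := inv_implicit h h0 h1.le φ
    refine hψ.congr_of_eventuallyEq ?_
    have e1 : ∀ᶠ q : ℝ × ℝ in 𝓝 (c, φ), 0 < q.1 :=
      (continuous_fst.tendsto _).eventually (lt_mem_nhds h0)
    have e2 : ∀ᶠ q : ℝ × ℝ in 𝓝 (c, φ), q.1 < 1 :=
      (continuous_fst.tendsto _).eventually (gt_mem_nhds h1)
    filter_upwards [hev, e1, e2] with q hq hq1 hq2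
    exact (hq hq1 hq2.le).symm

end Pool.Agent.H97.IN
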