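import Pool.Agent.H97.IN.Stubs
import Pool.Agent.H97.OC.Polar

/-!
Statements of the geometric lemmas (project IN, MP_ae5b4e_an).
`P γ θ s = γ θ + s tang θ`, `sp`, `sq` (support function of `γ` and its derivative), `S γ Y c θ`
(tangent length of the leaf `c`), `Rad Y c φ` (its polar radius) and the structure `Sit` are those
of `Pool/Agent/H97/OC/Geom.lean`, `Impl.lean`, `Polar.lean`.
-/

set_option autoImplicit false

open Set MeasureTheory Filter Topology Complex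
open scoped Real

namespace Pool.Agent.H97.IN

open Pool.Agent.H97.OB Pool.Agent.H97.OC

/-- IN-INEQ: for every centre `C` the Hopf functional of a foliated collar is nonnegative, with the
equality case (from S_hopf3 for `hC h C`, `tC t C`, `G c φ - C·e(φ)` and S_mono3; `NN3 v ≥ 0` is
continuous and `v, r, sin > 0`). -/
def S_ineq : Prop := ∀ (γ : ℝ → ℂ) (Y : ℂ → ℝ) (h t r : ℝ → ℝ) (G G1 G2 σ u v : ℝ → ℝ → ℝ),
  Fol γ Y h t r G G1 G2 σ u v → ∀ C : ℂ,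
  0 ≤ (∫ x in (0 : ℝ)..(2 * π), Psi3 (hC h C x) (tC t C x) (r x) (σ 1 x)) ∧
  ((∫ x in (0 : ℝ)..(2 * π), Psi3 (hC h C x) (tC t C x) (r x) (σ 1 x)) ≤ 0 →
    ∀ c ∈ Ioo (0 : ℝ) 1, ∀ x,
      u c x * (hC h C x * Real.cos (σ c x)) - tC t C x * Real.sin (σ c x) = 0)

/-- IN-THREE: the leaf of 3-periodic orbits.
`f` is the inverse of `x ↦ x - σ 1 x` composed with `x ↦ x + σ 1 x` (both have positive derivative
`1 ∓ u`).  A point of the leaf `{Y = 1}` is `exp (φ i) / G 1 φ` with `φ` unique modulo `2 π`; the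
triangle gives, with `Fol.next`, that the third iterate of `x - σ ↦ x + σ` is `φ ↦ φ + 2 π k`, and
`k = 1` as each step is in `(0, π)`.  `angle z w = 2 σ` gives `σ ≤ 3 π / 8`. -/
def S_three : Prop := ∀ (γ : ℝ → ℂ) (Y : ℂ → ℝ) (h t r : ℝ → ℝ) (G G1 G2 σ u v : ℝ → ℝ → ℝ),
  Fol γ Y h t r G G1 G2 σ u v → OuterLeafThreePeriodic γ Y → SidesAtMost γ Y →
  (∀ x, σ 1 x ≤ 3 * π / 8) ∧ ∃ f g : ℝ → ℝ, Leaf3 h t r (σ 1) (u 1) f g

/-- IN-LEAF: the equality case on the leaves gives `sin σ = κ h` (`h` the support function of the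
table with respect to the centre); the leaf `c = 1` by continuity of `σ`. -/
def S_leafeq : Prop := ∀ (h t r : ℝ → ℝ) (σ u : ℝ → ℝ → ℝ), Supp3 h t r → (∀ x, 0 < h x) →
  ContinuousOn (fun x : ℝ × ℝ => σ x.1 x.2) (Icc 0 1 ×ˢ univ) →
  (∀ c, 0 < c → c ≤ 1 → ∀ x, 0 < σ c x ∧ σ c x < π / 2) →
  (∀ c, 0 < c → c ≤ 1 → ∀ x, HasDerivAt (σ c) (u c x) x) →
  (∀ c ∈ Ioo (0 : ℝ) 1, ∀ x, u c x * (h x * Real.cos (σ c x)) - t x * Real.sin (σ c x) = 0) →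
  ∀ c, 0 < c → c ≤ 1 → ∃ κ : ℝ, 0 < κ ∧ ∀ x, Real.sin (σ c x) = κ * h x

/-- IN-GEO: conclusion.  `A' = A - C.re²`, `B' = B - C.re C.im`, `D' = D - C.im²`, `F = C.re`,
`G = C.im`, `l = κ² (A D - B²)`.
Proof.  Points of `γ`: `z = e(x) / h x`, `hC = h - C·e`, so
`(1 - C·z)² = hC² / h² = A z.re² + 2 B z.re z.im + D z.im²`.  Points of the leaf: `z = e(φ) / G c φ`,
`φ = x + σ`, and `G c φ - C·e(φ) = hC cos σ + tC sin σ` has the square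
`A cos² φ + 2 B cos φ sin φ + D sin² φ - l` (as `hC² = Q`, `hC tC = Q'/2`,
`(Q(x + π/2) - tC²) hC² = A D - B²`); every `φ` is of this form.  Positive definiteness of
`A' - l, B', D' - l`: `G c > 0` at `φ` and `φ + π`, and `G c - C·e` is positive everywhere (square root
of a quadratic form; if that form had a zero, `G c - C·e` would be `± k sin (φ - φ₀)` and `G c`
would be a first harmonic, not positive; the sign from the mean value).  The converse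
inclusions: on every ray the conic has exactly one point. -/
def S_geo : Prop := ∀ (γ : ℝ → ℂ) (Y : ℂ → ℝ) (h t r : ℝ → ℝ) (G G1 G2 σ u v : ℝ → ℝ → ℝ),
  Fol γ Y h t r G G1 G2 σ u v → (∀ z, Y z = 0 ↔ z ∈ range γ) →
  ∀ (C : ℂ) (A B D : ℝ), 0 < A → B ^ 2 < A * D → (∀ x, 0 < hC h C x) →
  (∀ x, hC h C x ^ 2 = A * Real.cos x ^ 2 + 2 * B * (Real.cos x * Real.sin x) +
    D * Real.sin x ^ 2) →
  (∀ c, 0 < c → c ≤ 1 → ∃ κ : ℝ, 0 < κ ∧ ∀ x, Real.sin (σ c x) = κ * hC h C x) →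
  ∃ a b d e f : ℝ,
    (∀ z : ℂ, z ∈ range γ ↔
      a * z.re ^ 2 + 2 * b * z.re * z.im + d * z.im ^ 2 + 2 * e * z.re + 2 * f * z.im = 1) ∧
    ∀ c : ℝ, 0 ≤ c → c ≤ 1 → ∃ l : ℝ, 0 ≤ l ∧ 0 < a - l ∧ b ^ 2 < (a - l) * (d - l) ∧
      ∀ z : ℂ, Y z = c ↔ (a - l) * z.re ^ 2 + 2 * b * z.re * z.im + (d - l) * z.im ^ 2 +
        2 * e * z.re + 2 * f * z.im = 1

/-- IN-TABLE: the dual table.
`r₀ = √(p² + q²)`, `p = sp γ θ`, `q = sq γ θ`, `ψ(θ) = θ + arctan (q / p)` the polar angle of `γ θ`,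
`ψ' = p ρ / r₀² > 0`; `ϑ` the inverse function of `ψ`; at `θ = ϑ x`: `h x = 1 / r₀`,
`t x = -q / (p r₀)`, `r x = r₀³ / (p³ ρ)`. -/
def S_table : Prop := ∀ (γ : ℝ → ℂ) (ρ : ℝ → ℝ), IsOval γ ρ → (∀ θ, 0 < sp γ θ) →
  ∃ h t r ϑ ϑ' : ℝ → ℝ, Supp3 h t r ∧ (∀ x, 0 < h x) ∧ Continuous ϑ' ∧ (∀ x, 0 < ϑ' x) ∧
    (∀ x, HasDerivAt ϑ (ϑ' x) x) ∧ (∀ x, ϑ (x + 2 * π) = ϑ x + 2 * π) ∧
    (∀ x, ϑ x + Real.arctan (sq γ (ϑ x) / sp γ (ϑ x)) = x) ∧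
    (∀ θ, ϑ (θ + Real.arctan (sq γ θ / sp γ θ)) = θ) ∧
    (∀ z, z ∈ range γ ↔ ∃ x : ℝ, z = exp (x * I) / (h x : ℂ)) ∧
    (∀ x s δ : ℝ, δ = ϑ x + Real.arctan ((sq γ (ϑ x) + s) / sp γ (ϑ x)) - x →
      0 < h x * Real.cos δ + t x * Real.sin δ ∧
      P γ (ϑ x) s = exp (((x + δ : ℝ) : ℂ) * I) /
        ((h x * Real.cos δ + t x * Real.sin δ : ℝ) : ℂ))

/-- IN-RAD: `G = 1 / Rad` with its derivatives.  With `R = Rad Y c φ`, `z = R exp (φ i)`: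
`G1 = dY(z)(i z) / (R dY(z)(z))`, `G2 = 1 / (R dY(z)(z))`; use `implicit_gen` as in
`Sit.Rad_continuous`. -/
def S_rad : Prop := ∀ (γ : ℝ → ℂ) (ρ : ℝ → ℝ) (Y : ℂ → ℝ), Sit γ ρ Y →
  ∃ G G1 G2 : ℝ → ℝ → ℝ,
    (∀ c, 0 < c → c ≤ 1 → ∀ z, Y z = c ↔ ∃ φ : ℝ, z = exp (φ * I) / (G c φ : ℂ)) ∧
    (∀ c, 0 < c → c ≤ 1 → ∀ φ, 0 < G c φ) ∧
    (∀ c, 0 < c → c ≤ 1 → ∀ φ s : ℝ, 0 < s → Y (exp (φ * I) / (s : ℂ)) = c → s = G c φ) ∧
    (∀ c, 0 < c → c ≤ 1 → ∀ φ, G c (φ + 2 * π) = G c φ) ∧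
    (∀ c, 0 < c → c ≤ 1 → ∀ φ, G2 c (φ + 2 * π) = G2 c φ) ∧
    (∀ c, 0 < c → c ≤ 1 → ∀ φ, HasDerivAt (G c) (G1 c φ) φ) ∧
    (∀ c, 0 < c → c ≤ 1 → Continuous (G1 c)) ∧ (∀ c, 0 < c → c ≤ 1 → Continuous (G2 c)) ∧
    (∀ c, 0 < c → c ≤ 1 → ∀ φ, 0 < G2 c φ) ∧
    (∀ c, 0 < c → c < 1 → ∀ φ, HasFDerivAt (fun q : ℝ × ℝ => G q.1 q.2)
      (-(G2 c φ) • ContinuousLinearMap.fst ℝ ℝ ℝ + G1 c φ • ContinuousLinearMap.snd ℝ ℝ ℝ) (c, φ))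

/-- IN-SIG: the polar description of the collar.
`σ c x = arctan ((q + sg γ Y c θ) / p) - arctan (q / p)` at `θ = ϑ x` (S_table), `plus` from
`P γ θ (S γ Y c θ)` in the leaf; derivatives from `Sit.S_deriv_left/right`, continuity from
`Sit.sg_continuousOn`, `Sit.Sc_continuousOn`.  Minus side: there is `s < 0` with
`Y (P γ θ s) = c` (`Sit.exists_on_path`), and the angle condition says that its polar angle is
`x - σ c x` (so also `2 σ < π`).  Differentiating `plus`, `minus` in `x` and `c` (joint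
differentiability of `G`, `0 < c < 1`) gives `G2plus`, `G2minus` and
`(G1 (x + σ) + h sin σ - t cos σ) (1 + u) = r sin σ > 0`, so `1 + u` never vanishes; it is continuous
with mean value `1`, so `1 + u > 0`; the same for `1 - u`; `v > 0` from `G2plus`. -/
def S_sig : Prop := ∀ (γ : ℝ → ℂ) (ρ : ℝ → ℝ) (Y : ℂ → ℝ), S_second2 → S_table → S_rad →
  IsOval γ ρ → (0 : ℂ) ∈ inside γ → IsCollar γ Y → (∀ θ, SigmaAngular γ Y θ) →
  ∃ (h t r : ℝ → ℝ) (G G1 G2 σ u v : ℝ → ℝ → ℝ), Fol γ Y h t r G G1 G2 σ u v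

end Pool.Agent.H97.IN
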