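import Pool.Agent.H97.IN.Stubs

/-! # IN-CENTER: the centre (helper92) -/

set_option autoImplicit false

open Set MeasureTheory Filter Topology
open scoped Real

namespace Pool.Agent.H97.IN

theorem center : S_center := by
  intro h hc hpos
  have h2π : (0 : ℝ) < 2 * π := by positivity
  set X := ∫ x in (0 : ℝ)..(2 * π), h x ^ 2 * Real.cos x with hX
  set Y := ∫ x in (0 : ℝ)..(2 * π), h x ^ 2 * Real.sin x with hY
  set P := ∫ x in (0 : ℝ)..(2 * π), h x * Real.cos x ^ 2 with hP
  set R := ∫ x in (0 : ℝ)..(2 * π), h x * (Real.cos x * Real.sin x) with hR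
  set T := ∫ x in (0 : ℝ)..(2 * π), h x * Real.sin x ^ 2 with hT
  have hP0 : 0 < P := by
    refine intervalIntegral.integral_pos h2π (by fun_prop) (fun x _ => ?_) ⟨0, ?_, ?_⟩
    · exact mul_nonneg (hpos x).le (sq_nonneg _)
    · exact ⟨le_rfl, h2π.le⟩
    · rw [Real.cos_zero, one_pow, mul_one]
      exact hpos 0
  have hD : 0 < P * T - R ^ 2 := by
    have h1 : 0 < ∫ x in (0 : ℝ)..(2 * π), h x * (R * Real.cos x - P * Real.sin x) ^ 2 := by
      refine intervalIntegral.integral_pos h2π (by fun_prop) (fun x _ => ?_) ⟨π / 2, ?_, ?_⟩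
      · exact mul_nonneg (hpos x).le (sq_nonneg _)
      · constructor <;> linarith [Real.pi_pos]
      · rw [Real.cos_pi_div_two, Real.sin_pi_div_two]
        have := hpos (π / 2)
        have h3 : 0 < P ^ 2 := by positivity
        nlinarith
    have h2 : ∫ x in (0 : ℝ)..(2 * π), h x * (R * Real.cos x - P * Real.sin x) ^ 2 =
        R ^ 2 * P - 2 * (R * P) * R + P ^ 2 * T := by
      have e : ∀ x, h x * (R * Real.cos x - P * Real.sin x) ^ 2 =
          R ^ 2 * (h x * Real.cos x ^ 2) - 2 * (R * P) * (h x * (Real.cos x * Real.sin x)) +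
            P ^ 2 * (h x * Real.sin x ^ 2) := fun x => by ring
      simp_rw [e]
      rw [intervalIntegral.integral_add, intervalIntegral.integral_sub,
        intervalIntegral.integral_const_mul, intervalIntegral.integral_const_mul,
        intervalIntegral.integral_const_mul]
      all_goals exact Continuous.intervalIntegrable (by fun_prop) _ _
    rw [h2] at h1
    have h3 : 0 < P * (P * T - R ^ 2) := by
      have : P * (P * T - R ^ 2) = R ^ 2 * P - 2 * (R * P) * R + P ^ 2 * T := by ring
      rw [this]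
      exact h1
    exact (pos_iff_pos_of_mul_pos h3).1 hP0
  obtain ⟨D, hDd⟩ : ∃ D, D = P * T - R ^ 2 := ⟨_, rfl⟩
  have hD' : D ≠ 0 := by
    rw [hDd]
    exact hD.ne'
  obtain ⟨a, ha⟩ : ∃ a, a = (T * X - R * Y) / (2 * D) := ⟨_, rfl⟩
  obtain ⟨b, hb⟩ : ∃ b, b = (P * Y - R * X) / (2 * D) := ⟨_, rfl⟩
  have ea : 2 * a * P + 2 * b * R = X := by
    rw [ha, hb]
    field_simp
    rw [hDd]
    ring
  have eb : 2 * a * R + 2 * b * T = Y := by
    rw [ha, hb]
    field_simp
    rw [hDd]
    ring
  have z1 : ∫ x in (0 : ℝ)..(2 * π), (a * Real.cos x + b * Real.sin x) ^ 2 * Real.cos x = 0 := by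
    have h1 : ∀ x ∈ uIcc (0 : ℝ) (2 * π), HasDerivAt (fun x => a ^ 2 * (Real.sin x -
        Real.sin x ^ 3 / 3) - 2 * a * b * (Real.cos x ^ 3 / 3) + b ^ 2 * (Real.sin x ^ 3 / 3))
        ((a * Real.cos x + b * Real.sin x) ^ 2 * Real.cos x) x := by
      intro x _
      have s1 := Real.hasDerivAt_sin x
      have c1 := Real.hasDerivAt_cos x
      have s3 := (s1.pow 3).div_const 3
      have c3 := (c1.pow 3).div_const 3
      have := (((s1.sub s3).const_mul (a ^ 2)).sub (c3.const_mul (2 * a * b))).add
        (s3.const_mul (b ^ 2))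
      refine this.congr_deriv ?_
      have hsc : Real.sin x ^ 2 + Real.cos x ^ 2 = 1 := Real.sin_sq_add_cos_sq x
      norm_num
      linear_combination (-(a ^ 2 * Real.cos x)) * hsc
    rw [intervalIntegral.integral_eq_sub_of_hasDerivAt h1
      (Continuous.intervalIntegrable (by fun_prop) _ _)]
    simp
  have z2 : ∫ x in (0 : ℝ)..(2 * π), (a * Real.cos x + b * Real.sin x) ^ 2 * Real.sin x = 0 := by
    have h1 : ∀ x ∈ uIcc (0 : ℝ) (2 * π), HasDerivAt (fun x => b ^ 2 * (Real.cos x ^ 3 / 3 -
        Real.cos x) - a ^ 2 * (Real.cos x ^ 3 / 3) + 2 * a * b * (Real.sin x ^ 3 / 3))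
        ((a * Real.cos x + b * Real.sin x) ^ 2 * Real.sin x) x := by
      intro x _
      have s1 := Real.hasDerivAt_sin x
      have c1 := Real.hasDerivAt_cos x
      have s3 := (s1.pow 3).div_const 3
      have c3 := (c1.pow 3).div_const 3
      have := (((c3.sub c1).const_mul (b ^ 2)).sub (c3.const_mul (a ^ 2))).add
        (s3.const_mul (2 * a * b))
      refine this.congr_deriv ?_
      have hsc : Real.sin x ^ 2 + Real.cos x ^ 2 = 1 := Real.sin_sq_add_cos_sq x
      norm_num
      linear_combination (-(b ^ 2 * Real.sin x)) * hsc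
    rw [intervalIntegral.integral_eq_sub_of_hasDerivAt h1
      (Continuous.intervalIntegrable (by fun_prop) _ _)]
    simp
  refine ⟨⟨a, b⟩, ?_, ?_⟩
  · have e : ∀ x, hC h ⟨a, b⟩ x ^ 2 * Real.cos x = h x ^ 2 * Real.cos x -
        2 * a * (h x * Real.cos x ^ 2) - 2 * b * (h x * (Real.cos x * Real.sin x)) +
          (a * Real.cos x + b * Real.sin x) ^ 2 * Real.cos x := fun x => by
      unfold hC
      ring
    simp_rw [e]
    rw [intervalIntegral.integral_add, intervalIntegral.integral_sub,
      intervalIntegral.integral_sub, intervalIntegral.integral_const_mul,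
      intervalIntegral.integral_const_mul, z1]
    · linarith
    all_goals exact Continuous.intervalIntegrable (by fun_prop) _ _
  · have e : ∀ x, hC h ⟨a, b⟩ x ^ 2 * Real.sin x = h x ^ 2 * Real.sin x -
        2 * a * (h x * (Real.cos x * Real.sin x)) - 2 * b * (h x * Real.sin x ^ 2) +
          (a * Real.cos x + b * Real.sin x) ^ 2 * Real.sin x := fun x => by
      unfold hC
      ring
    simp_rw [e]
    rw [intervalIntegral.integral_add, intervalIntegral.integral_sub,
      intervalIntegral.integral_sub, intervalIntegral.integral_const_mul,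
      intervalIntegral.integral_const_mul, z2]
    · linarith
    all_goals exact Continuous.intervalIntegrable (by fun_prop) _ _

end Pool.Agent.H97.IN
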