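import Pool.Agent.H97.OC.Defs

/-!
# Ordinary (inner) billiards in dual form: collar up to the leaf of 3-periodic orbits, no symmetry

The affine plane is `ℂ`, the point `O = 0` lies inside `γ`.  Under the polar duality with respect
to the unit circle the curve `γ` corresponds to a billiard table, the points of the tangent line of
`γ` at `p` correspond to the lines through a point `P` of the table, and the billiard reflection at
`P` corresponds to the projective involution `σ_p` of the tangent line which exchanges the points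
seen from `O` under equal angles from `p`.
-/

set_option autoImplicit false

open Set Complex MeasureTheory
open scoped Real

namespace Pool.Agent.H97.IN

open Pool.Agent.H97.OB Pool.Agent.H97.OC

/-- The involution `σ_p`, `p = γ θ`, of the tangent line at `p`, which exchanges the two points of
every leaf of the collar, exchanges points which appear from the origin under equal angles
from `p`. -/
def SigmaAngular (γ : ℝ → ℂ) (Y : ℂ → ℝ) (θ : ℝ) : Prop :=
  ∀ s t : ℝ, s < 0 → 0 < t → Y (γ θ + s * tang θ) = Y (γ θ + t * tang θ) →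
    Y (γ θ + t * tang θ) ≤ 1 →
    InnerProductGeometry.angle (γ θ) (γ θ + s * tang θ) =
      InnerProductGeometry.angle (γ θ) (γ θ + t * tang θ)

/-- The sides of the triangles on the outer leaf appear from the origin under angles at most
`3 π / 4`. -/
def SidesAtMost (γ : ℝ → ℂ) (Y : ℂ → ℝ) : Prop :=
  ∀ z w, Y z = 1 → Y w = 1 → Next γ z w → InnerProductGeometry.angle z w ≤ 3 * π / 4

/-! ### Analytic data -/

/-- Support function `h` of the billiard table (with respect to an arbitrary point), its derivative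
`t` and the radius of curvature `r = h + h''`, as functions of the normal angle. -/
structure Supp3 (h t r : ℝ → ℝ) : Prop where
  cont : Continuous r
  rpos : ∀ x, 0 < r x
  dh : ∀ x, HasDerivAt h (t x) x
  dt : ∀ x, HasDerivAt t (r x - h x) x
  hp : ∀ x, h (x + 2 * π) = h x
  tp : ∀ x, t (x + 2 * π) = t x
  rp : ∀ x, r (x + 2 * π) = r x

/-- `∫₀^d sin² cos²` -/
noncomputable def AA (d : ℝ) : ℝ :=
  (d - Real.sin d * Real.cos d * (Real.cos d ^ 2 - Real.sin d ^ 2)) / 8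

/-- `∫₀^d sin²` -/
noncomputable def BB (d : ℝ) : ℝ := (d - Real.sin d * Real.cos d) / 2

/-- Density of the Hopf functional. -/
noncomputable def Psi3 (h t r d : ℝ) : ℝ :=
  2 * r * (h ^ 3 * AA d + h * t ^ 2 * (BB d - 3 * AA d)) - 2 * r ^ 2 * h ^ 2 * AA d

/-- Its derivative with respect to `d`. -/
noncomputable def QQ3 (h t r d : ℝ) : ℝ :=
  2 * r * (h ^ 3 * (Real.sin d ^ 2 * Real.cos d ^ 2) +
    h * t ^ 2 * (Real.sin d ^ 2 - 3 * (Real.sin d ^ 2 * Real.cos d ^ 2))) -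
    2 * r ^ 2 * h ^ 2 * (Real.sin d ^ 2 * Real.cos d ^ 2)

/-- The nonnegative density; `u` is the derivative of `d` along the leaf. -/
noncomputable def NN3 (h t r d u : ℝ) : ℝ :=
  2 * r ^ 2 * Real.sin d ^ 2 * (u * (h * Real.cos d) - t * Real.sin d) ^ 2 / (1 - u ^ 2)

/-- The support function with respect to the point `C`. -/
noncomputable def hC (h : ℝ → ℝ) (C : ℂ) (x : ℝ) : ℝ :=
  h x - (C.re * Real.cos x + C.im * Real.sin x)

/-- Its derivative. -/
noncomputable def tC (t : ℝ → ℝ) (C : ℂ) (x : ℝ) : ℝ :=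
  t x - (C.im * Real.cos x - C.re * Real.sin x)

/-- The collar in polar coordinates: `h`, `t`, `r` the data of the table, `G c φ` the inverse of the
polar radius of the leaf `{Y = c}` (the support function of the caustic), `G1` its derivative,
`-G2` its derivative in `c`; `σ c x` half of the angle under which the two points of the leaf
`{Y = c}` on the tangent line at the point of `γ` with polar angle `x` appear from the origin,
`u`, `v` its derivatives in `x` and `c`. -/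
structure Fol (γ : ℝ → ℂ) (Y : ℂ → ℝ) (h t r : ℝ → ℝ) (G G1 G2 σ u v : ℝ → ℝ → ℝ) : Prop where
  supp : Supp3 h t r
  hpos : ∀ x, 0 < h x
  base : ∀ z, z ∈ range γ ↔ ∃ x : ℝ, z = exp (x * I) / (h x : ℂ)
  leaf : ∀ c, 0 < c → c ≤ 1 → ∀ z, Y z = c ↔ ∃ φ : ℝ, z = exp (φ * I) / (G c φ : ℂ)
  Gpos : ∀ c, 0 < c → c ≤ 1 → ∀ φ, 0 < G c φ
  Gper : ∀ c, 0 < c → c ≤ 1 → ∀ φ, G c (φ + 2 * π) = G c φ
  G2per : ∀ c, 0 < c → c ≤ 1 → ∀ φ, G2 c (φ + 2 * π) = G2 c φ
  Gd : ∀ c, 0 < c → c ≤ 1 → ∀ φ, HasDerivAt (G c) (G1 c φ) φ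
  G1c : ∀ c, 0 < c → c ≤ 1 → Continuous (G1 c)
  G2c : ∀ c, 0 < c → c ≤ 1 → Continuous (G2 c)
  sc : ContinuousOn (fun x : ℝ × ℝ => σ x.1 x.2) (Icc 0 1 ×ˢ univ)
  s0 : ∀ x, σ 0 x = 0
  spos : ∀ c, 0 < c → c ≤ 1 → ∀ x, 0 < σ c x ∧ σ c x < π / 2
  sper : ∀ c, 0 < c → c ≤ 1 → ∀ x, σ c (x + 2 * π) = σ c x
  sd : ∀ c, 0 < c → c ≤ 1 → ∀ x, HasDerivAt (σ c) (u c x) x
  uc : ∀ c, 0 < c → c ≤ 1 → Continuous (u c)
  u1 : ∀ c, 0 < c → c ≤ 1 → ∀ x, |u c x| < 1
  sv : ∀ c, 0 < c → c < 1 → ∀ x, HasDerivAt (fun c => σ c x) (v c x) c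
  vc : ContinuousOn (fun x : ℝ × ℝ => v x.1 x.2) (Ioo 0 1 ×ˢ univ)
  vpos : ∀ c, 0 < c → c < 1 → ∀ x, 0 < v c x
  plus : ∀ c, 0 < c → c ≤ 1 → ∀ x,
    G c (x + σ c x) = h x * Real.cos (σ c x) + t x * Real.sin (σ c x)
  minus : ∀ c, 0 < c → c ≤ 1 → ∀ x,
    G c (x - σ c x) = h x * Real.cos (σ c x) - t x * Real.sin (σ c x)
  G2plus : ∀ c, 0 < c → c < 1 → ∀ x,
    G2 c (x + σ c x) * (1 + u c x) = v c x * (r x * Real.sin (σ c x))
  G2minus : ∀ c, 0 < c → c < 1 → ∀ x,
    G2 c (x - σ c x) * (1 - u c x) = v c x * (r x * Real.sin (σ c x))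
  next : ∀ z w, Y z = 1 → Y w = 1 → Next γ z w → ∃ x : ℝ,
    z = exp (((x - σ 1 x : ℝ) : ℂ) * I) / (G 1 (x - σ 1 x) : ℂ) ∧
    w = exp (((x + σ 1 x : ℝ) : ℂ) * I) / (G 1 (x + σ 1 x) : ℂ)

end Pool.Agent.H97.IN
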