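import Pool.Agent.H97.IN.Stubs

/-! # IN-ELL: the ellipse (helper92) -/

set_option autoImplicit false

open Set MeasureTheory Filter Topology
open scoped Real

namespace Pool.Agent.H97.IN

theorem ell : S_ell := by
  rintro h t r hs hint ⟨α, β, hht⟩
  obtain ⟨-, hr, dh, dt, -, -, -⟩ := hs
  have hcont : Continuous h := continuous_iff_continuousAt.2 fun x => (dh x).continuousAt
  have d2s : ∀ x : ℝ, HasDerivAt (fun x => Real.sin (2 * x)) (2 * Real.cos (2 * x)) x := by
    intro x
    have h1 := ((hasDerivAt_id x).const_mul (2 : ℝ)).sin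
    simpa [mul_comm] using h1
  have d2c : ∀ x : ℝ, HasDerivAt (fun x => Real.cos (2 * x)) (-(2 * Real.sin (2 * x))) x := by
    intro x
    have h1 := ((hasDerivAt_id x).const_mul (2 : ℝ)).cos
    simpa [mul_comm] using h1
  -- the square
  obtain ⟨γ, hγ⟩ : ∃ γ, ∀ x, h x ^ 2 = α * Real.sin (2 * x) - β * Real.cos (2 * x) + γ := by
    have h1 : ∀ x, HasDerivAt (fun x => h x ^ 2 - (α * Real.sin (2 * x) - β * Real.cos (2 * x))) 0
        x := by
      intro x
      have h2 := ((dh x).pow 2).sub (((d2s x).const_mul α).sub ((d2c x).const_mul β))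
      refine h2.congr_deriv ?_
      have := hht x
      norm_num
      linear_combination 2 * this
    refine ⟨h 0 ^ 2 - (α * Real.sin (2 * 0) - β * Real.cos (2 * 0)), fun x => ?_⟩
    have h3 := is_const_of_deriv_eq_zero (fun x => (h1 x).differentiableAt)
      (fun x => (h1 x).deriv) x 0
    linarith
  -- the derivative of `h t`
  have hd : ∀ x, t x ^ 2 + h x * (r x - h x) =
      -(2 * α * Real.sin (2 * x)) + 2 * β * Real.cos (2 * x) := by
    intro x
    have h1 := (dh x).mul (dt x)
    have h2 : HasDerivAt (fun x => h x * t x) (α * -(2 * Real.sin (2 * x)) +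
        β * (2 * Real.cos (2 * x))) x := by
      have h3 := ((d2c x).const_mul α).add ((d2s x).const_mul β)
      refine h3.congr_of_eventuallyEq (Eventually.of_forall fun y => ?_)
      exact hht y
    have h3 := h1.unique h2
    linear_combination h3
  have hne : ∀ x, h x ≠ 0 := by
    intro x₀ h0
    have e1 := hγ x₀
    have e2 := hht x₀
    rw [h0] at e1 e2
    have s1 : Real.sin (2 * (x₀ + π / 2)) = -Real.sin (2 * x₀) := by
      rw [show 2 * (x₀ + π / 2) = 2 * x₀ + π by ring, Real.sin_add_pi]
    have c1 : Real.cos (2 * (x₀ + π / 2)) = -Real.cos (2 * x₀) := by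
      rw [show 2 * (x₀ + π / 2) = 2 * x₀ + π by ring, Real.cos_add_pi]
    have f1 := hγ (x₀ + π / 2)
    have f2 := hht (x₀ + π / 2)
    have f3 := hd (x₀ + π / 2)
    rw [s1, c1] at f1 f2 f3
    have g1 : h (x₀ + π / 2) ^ 2 = 2 * γ := by linarith
    have g2 : h (x₀ + π / 2) * t (x₀ + π / 2) = 0 := by linarith
    have hγ0 : γ = 0 := by
      by_cases hz : h (x₀ + π / 2) = 0
      · rw [hz] at g1
        linarith
      · exfalso
        have ht : t (x₀ + π / 2) = 0 := (mul_eq_zero.1 g2).resolve_left hz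
        rw [ht] at f3
        have g3 : h (x₀ + π / 2) * r (x₀ + π / 2) = 0 := by linear_combination f3 + g1 - 2 * e1
        exact (mul_ne_zero hz (hr _).ne') g3
    have hab : α ^ 2 + β ^ 2 = 0 := by
      have h1 := Real.sin_sq_add_cos_sq (2 * x₀)
      have e3 : α * Real.sin (2 * x₀) - β * Real.cos (2 * x₀) = 0 := by linarith
      have e4 : α * Real.cos (2 * x₀) + β * Real.sin (2 * x₀) = 0 := by linarith
      have e5 : (α ^ 2 + β ^ 2) * (Real.sin (2 * x₀) ^ 2 + Real.cos (2 * x₀) ^ 2) =
          (α * Real.sin (2 * x₀) - β * Real.cos (2 * x₀)) ^ 2 +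
            (α * Real.cos (2 * x₀) + β * Real.sin (2 * x₀)) ^ 2 := by ring
      rw [h1, e3, e4] at e5
      linarith
    have hα : α = 0 := by nlinarith [sq_nonneg α, sq_nonneg β]
    have hβ : β = 0 := by nlinarith [sq_nonneg α, sq_nonneg β]
    have hz : ∀ x, h x = 0 := by
      intro x
      have h1 := hγ x
      rw [hα, hβ, hγ0] at h1
      have h2 : h x ^ 2 = 0 := by linarith
      exact pow_eq_zero_iff (two_ne_zero) |>.1 h2
    have htz : ∀ x, t x = 0 := by
      intro x
      have h1 : HasDerivAt h 0 x := by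
        have : h = fun _ => 0 := funext hz
        rw [this]
        exact hasDerivAt_const x 0
      exact (dh x).unique h1
    have h1 : HasDerivAt t 0 0 := by
      have : t = fun _ => 0 := funext htz
      rw [this]
      exact hasDerivAt_const 0 0
    have h2 := (dt 0).unique h1
    rw [hz 0] at h2
    have := hr 0
    linarith
  have hpos : ∀ x, 0 < h x := by
    intro x
    by_contra hcon
    have hneg : ∀ y, h y ≤ 0 := by
      intro y
      by_contra hy
      obtain ⟨z, hz⟩ := mem_range_of_exists_le_of_exists_ge hcont (c := 0)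
        ⟨x, not_lt.1 hcon⟩ ⟨y, (not_le.1 hy).le⟩
      exact hne z hz
    have h1 : 0 ≤ ∫ x in (0 : ℝ)..(2 * π), -h x :=
      intervalIntegral.integral_nonneg (by positivity) fun x _ => neg_nonneg.2 (hneg x)
    rw [intervalIntegral.integral_neg] at h1
    linarith
  refine ⟨hpos, γ - β, α, γ + β, ?_, ?_, ?_⟩
  · have h1 := hγ 0
    rw [mul_zero, Real.sin_zero, Real.cos_zero] at h1
    have := pow_pos (hpos 0) 2
    linarith
  all_goals
    have hQ : ∀ x, h x ^ 2 = (γ - β) * Real.cos x ^ 2 + 2 * α * (Real.cos x * Real.sin x) +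
        (γ + β) * Real.sin x ^ 2 := by
      intro x
      have h2 := Real.sin_sq_add_cos_sq x
      rw [hγ x, Real.sin_two_mul, Real.cos_two_mul]
      linear_combination (-(γ + β)) * h2
  · have hA : 0 < γ - β := by
      have h1 := hγ 0
      rw [mul_zero, Real.sin_zero, Real.cos_zero] at h1
      have := pow_pos (hpos 0) 2
      linarith
    set z : ℂ := ⟨-α, γ - β⟩ with hz
    have hz0 : z ≠ 0 := by
      intro h1
      have h2 : z.im = 0 := by rw [h1]; rfl
      exact hA.ne' h2
    have hn : 0 < ‖z‖ := norm_pos_iff.2 hz0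
    have h1 := hQ (Complex.arg z)
    rw [Complex.cos_arg hz0, Complex.sin_arg] at h1
    have h2 : z.re = -α := rfl
    have h3 : z.im = γ - β := rfl
    rw [h2, h3] at h1
    have h4 : h (Complex.arg z) ^ 2 * ‖z‖ ^ 2 = (γ - β) * ((γ - β) * (γ + β) - α ^ 2) := by
      rw [h1]
      field_simp
      ring
    have h5 : 0 < (γ - β) * ((γ - β) * (γ + β) - α ^ 2) := by
      rw [← h4]
      exact mul_pos (pow_pos (hpos _) 2) (pow_pos hn 2)
    have h6 := (pos_iff_pos_of_mul_pos h5).1 hA
    linarith
  · exact hQ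

end Pool.Agent.H97.IN
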