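import Pool.Agent.H97.IN.Main

/-! # IN-INEQ: the Hopf inequality and its equality case (helper92) -/

set_option autoImplicit false

open Set MeasureTheory Filter Topology Complex
open scoped Real

namespace Pool.Agent.H97.IN

open Pool.Agent.H97.OB Pool.Agent.H97.OC

namespace Fol

variable {γ : ℝ → ℂ} {Y : ℂ → ℝ} {h t r : ℝ → ℝ} {G G1 G2 σ u v : ℝ → ℝ → ℝ}

lemma one_sub_pos (hF : Fol γ Y h t r G G1 G2 σ u v) {c : ℝ} (h0 : 0 < c) (h1 : c ≤ 1) (x : ℝ) :
    0 < 1 - u c x ^ 2 := by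
  have h2 := hF.u1 c h0 h1 x
  have h3 : u c x ^ 2 < 1 := by
    rw [← sq_abs]
    exact pow_lt_one₀ (abs_nonneg _) h2 (two_ne_zero)
  linarith

lemma sin_pos (hF : Fol γ Y h t r G G1 G2 σ u v) {c : ℝ} (h0 : 0 < c) (h1 : c ≤ 1) (x : ℝ) :
    0 < Real.sin (σ c x) :=
  Real.sin_pos_of_pos_of_lt_pi (hF.spos c h0 h1 x).1
    (by linarith [(hF.spos c h0 h1 x).2, Real.pi_pos])

lemma v_cont (hF : Fol γ Y h t r G G1 G2 σ u v) {c : ℝ} (h0 : 0 < c) (h1 : c < 1) :
    Continuous (v c) := by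
  have h2 : Continuous fun x : ℝ => (fun q : ℝ × ℝ => v q.1 q.2) (c, x) := by
    rw [← continuousOn_univ]
    refine hF.vc.comp (Continuous.continuousOn (by fun_prop)) fun x _ => ?_
    exact ⟨⟨h0, h1⟩, mem_univ _⟩
  exact h2

lemma v_per (hF : Fol γ Y h t r G G1 G2 σ u v) {c : ℝ} (h0 : 0 < c) (h1 : c < 1) (x : ℝ) :
    v c (x + 2 * π) = v c x := by
  have h2 := hF.sv c h0 h1 (x + 2 * π)
  have h3 : HasDerivAt (fun c => σ c x) (v c (x + 2 * π)) c := by
    refine h2.congr_of_eventuallyEq ?_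
    filter_upwards [lt_mem_nhds h0, gt_mem_nhds h1] with c' hc' hc''
    exact (hF.sper c' hc' hc''.le x).symm
  exact h3.unique (hF.sv c h0 h1 x)

lemma u_per (hF : Fol γ Y h t r G G1 G2 σ u v) {c : ℝ} (h0 : 0 < c) (h1 : c ≤ 1) (x : ℝ) :
    u c (x + 2 * π) = u c x := by
  have h2 := (hF.sd c h0 h1 (x + 2 * π)).comp_add_const x (2 * π)
  have h3 : HasDerivAt (σ c) (u c (x + 2 * π)) x := by
    refine h2.congr_of_eventuallyEq (Eventually.of_forall fun y => ?_)
    exact (hF.sper c h0 h1 y).symm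
  exact h3.unique (hF.sd c h0 h1 x)

lemma sigma_cont (hF : Fol γ Y h t r G G1 G2 σ u v) {c : ℝ} (h0 : 0 < c) (h1 : c ≤ 1) :
    Continuous (σ c) :=
  continuous_iff_continuousAt.2 fun x => (hF.sd c h0 h1 x).continuousAt

/-- the identity on a leaf -/
lemma hopf_leaf (H : S_hopf3) (hF : Fol γ Y h t r G G1 G2 σ u v) (C : ℂ) {c : ℝ} (h0 : 0 < c)
    (h1 : c < 1) :
    ∫ x in (0 : ℝ)..(2 * π), QQ3 (hC h C x) (tC t C x) (r x) (σ c x) * v c x =
      ∫ x in (0 : ℝ)..(2 * π), NN3 (hC h C x) (tC t C x) (r x) (σ c x) (u c x) * v c x := by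
  refine H (hC h C) (tC t C) r (σ c) (u c) (v c)
    (fun φ => G c φ - (C.re * Real.cos φ + C.im * Real.sin φ))
    (fun φ => G1 c φ - (C.im * Real.cos φ - C.re * Real.sin φ)) (G2 c) (supp_hC hF.supp C)
    (hF.uc c h0 h1.le) (hF.v_cont h0 h1) ?_ (hF.G2c c h0 h1.le) (hF.sd c h0 h1.le)
    (hF.u1 c h0 h1.le) (hF.sper c h0 h1.le) ?_ (hF.G2per c h0 h1.le) ?_ ?_ ?_
    (hF.G2plus c h0 h1) (hF.G2minus c h0 h1)
  · have := hF.G1c c h0 h1.le
    fun_prop
  · intro φ
    simp only [hF.Gper c h0 h1.le φ, Real.cos_add_two_pi, Real.sin_add_two_pi]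
  · intro φ
    refine ((hF.Gd c h0 h1.le φ).sub (((Real.hasDerivAt_cos φ).const_mul C.re).add
      ((Real.hasDerivAt_sin φ).const_mul C.im))).congr_deriv ?_
    ring
  · intro x
    have h2 := hF.plus c h0 h1.le x
    simp only [h2]
    rw [Real.cos_add, Real.sin_add]
    unfold hC tC
    ring
  · intro x
    have h2 := hF.minus c h0 h1.le x
    simp only [h2]
    rw [Real.cos_sub, Real.sin_sub]
    unfold hC tC
    ring

end Fol

theorem ineq (h1 : S_hopf3) (h2 : S_mono3) : S_ineq := by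
  intro γ Y h t r G G1 G2 σ u v hF C
  have hs := supp_hC hF.supp C
  have hnn : ∀ c ∈ Ioo (0 : ℝ) 1, ∀ x,
      0 ≤ NN3 (hC h C x) (tC t C x) (r x) (σ c x) (u c x) * v c x := by
    intro c hc x
    refine mul_nonneg ?_ (hF.vpos c hc.1 hc.2 x).le
    unfold NN3
    have := hF.one_sub_pos hc.1 hc.2.le x
    positivity
  have key := h2 (hC h C) (tC t C) r σ v hs hF.sc hF.vc (fun c hc x => hF.sv c hc.1 hc.2 x) hF.s0
    (fun c hc => by
      rw [hF.hopf_leaf h1 C hc.1 hc.2]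
      exact intervalIntegral.integral_nonneg (by positivity) fun x _ => hnn c hc x)
  refine ⟨key.1, fun hle c hc x₀ => ?_⟩
  have h3 := key.2 hle c hc
  rw [hF.hopf_leaf h1 C hc.1 hc.2] at h3
  have ch : Continuous (hC h C) := continuous_iff_continuousAt.2 fun x => (hs.dh x).continuousAt
  have ct : Continuous (tC t C) := continuous_iff_continuousAt.2 fun x => (hs.dt x).continuousAt
  have cr := hs.cont
  have cσ := hF.sigma_cont hc.1 hc.2.le
  have cu := hF.uc c hc.1 hc.2.le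
  have cv := hF.v_cont hc.1 hc.2
  have hcont : Continuous fun x =>
      NN3 (hC h C x) (tC t C x) (r x) (σ c x) (u c x) * v c x := by
    unfold NN3
    refine Continuous.mul (Continuous.div (by fun_prop) (by fun_prop) fun x => ?_) cv
    exact (hF.one_sub_pos hc.1 hc.2.le x).ne'
  have hper : Function.Periodic (fun x =>
      NN3 (hC h C x) (tC t C x) (r x) (σ c x) (u c x) * v c x) (2 * π) := by
    intro x
    simp only [hs.hp x, hs.tp x, hs.rp x, hF.sper c hc.1 hc.2.le x, hF.u_per hc.1 hc.2.le x,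
      hF.v_per hc.1 hc.2 x]
  have hzero : NN3 (hC h C x₀) (tC t C x₀) (r x₀) (σ c x₀) (u c x₀) * v c x₀ = 0 := by
    by_contra hne
    have hpos := lt_of_le_of_ne (hnn c hc x₀) (Ne.symm hne)
    have h5 := hper.intervalIntegral_add_eq (x₀ - π) 0
    rw [zero_add, h3] at h5
    have h6 := intervalIntegral.integral_pos (a := x₀ - π) (b := x₀ - π + 2 * π)
      (by linarith [Real.pi_pos]) hcont.continuousOn (fun x _ => hnn c hc x)
      ⟨x₀, ⟨by linarith [Real.pi_pos], by linarith [Real.pi_pos]⟩, hpos⟩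
    rw [h5] at h6
    exact lt_irrefl _ h6
  have hv := (hF.vpos c hc.1 hc.2 x₀).ne'
  have hN := (mul_eq_zero.1 hzero).resolve_right hv
  unfold NN3 at hN
  have hd := (hF.one_sub_pos hc.1 hc.2.le x₀).ne'
  have hr := (hs.rpos x₀).ne'
  have hsin := (hF.sin_pos hc.1 hc.2.le x₀).ne'
  have h7 := (div_eq_zero_iff.1 hN).resolve_right hd
  have h8 : 2 * r x₀ ^ 2 * Real.sin (σ c x₀) ^ 2 ≠ 0 := by positivity
  have h9 := (mul_eq_zero.1 h7).resolve_left h8
  exact pow_eq_zero_iff (two_ne_zero) |>.1 h9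

end Pool.Agent.H97.IN
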