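import Pool.Agent.H97.IN.Stubs

set_option autoImplicit false

namespace Pool.Agent.H97.IN

theorem kap : S_kap := by
  intro s₁ s₂ s₃ c₁ c₂ c₃ y₁ y₂ y₃ t₁ t₂ t₃ g₁ g₂ g₃ P₁ P₂ P₃ L Γ H
  obtain ⟨p₁, p₂, p₃, q₁, q₂, e₃, f₃, T₁, T₂, T₃, L0, Γ0, R₁, R₂, R₃⟩ := H
  have hs : s₁ = s₂ * c₃ + c₂ * s₃ := by
    rw [e₃, f₃]; linear_combination (-s₁) * q₂
  have hc : c₁ ^ 2 = 1 - s₁ ^ 2 := by linear_combination q₁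
  have hT : s₁ ^ 2 * t₁ ^ 2 = (s₂ * c₂ * y₂ - s₃ * c₃ * y₃) ^ 2 := by
    rw [← T₁]; ring
  unfold a3
  rw [L0]
  have h2 : s₁ ^ 2 = (s₂ * c₃ + c₂ * s₃) ^ 2 := by rw [← hs]
  linear_combination (-1 : ℝ) * hT - (y₂ * y₃) * h2 +
    (s₁ ^ 2 * y₁ + s₂ ^ 2 * y₂ + s₃ ^ 2 * y₃) * y₁ * hc

theorem beta : S_beta := by
  intro s₁ s₂ s₃ c₁ c₂ c₃ y₁ y₂ y₃ t₁ t₂ t₃ g₁ g₂ g₃ P₁ P₂ P₃ L Γ H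
  obtain ⟨p₁, p₂, p₃, q₁, q₂, e₃, f₃, T₁, T₂, T₃, L0, Γ0, R₁, R₂, R₃⟩ := H
  have hs : s₁ = s₂ * c₃ + c₂ * s₃ := by
    rw [e₃, f₃]; linear_combination (-s₁) * q₂
  have hc : c₁ = s₂ * s₃ - c₂ * c₃ := by
    rw [e₃, f₃]; linear_combination (-c₁) * q₂
  have q₃ : s₃ ^ 2 + c₃ ^ 2 = 1 := by
    rw [e₃, f₃]; linear_combination (s₂ ^ 2 + c₂ ^ 2) * q₁ + q₂
  have Q₂ : (c₂ ^ 2 - s₂ ^ 2) ^ 2 + 4 * s₂ ^ 2 * c₂ ^ 2 = 1 := by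
    linear_combination (s₂ ^ 2 + c₂ ^ 2 + 1) * q₂
  have Q₃ : (c₃ ^ 2 - s₃ ^ 2) ^ 2 + 4 * s₃ ^ 2 * c₃ ^ 2 = 1 := by
    linear_combination (s₃ ^ 2 + c₃ ^ 2 + 1) * q₃
  have C₁ : c₁ ^ 2 - s₁ ^ 2 = (c₂ ^ 2 - s₂ ^ 2) * (c₃ ^ 2 - s₃ ^ 2) - 4 * (s₂ * c₂) * (s₃ * c₃) := by
    rw [hs, hc]; ring
  have S₁ : 2 * (s₁ * c₁) = - (2 * (s₂ * c₂) * (c₃ ^ 2 - s₃ ^ 2) + 2 * (s₃ * c₃) * (c₂ ^ 2 - s₂ ^ 2)) := by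
    rw [hs, hc]; ring
  unfold a3
  refine ⟨?_, ?_, ?_, ?_⟩
  · linear_combination (y₁ * y₂ / 2) * C₁ - (y₁ * y₃ / 2) * Q₃ + (2 * s₃ * c₃ * y₁) * T₁
  · linear_combination y₂ * T₂ - y₁ * (c₃ ^ 2 - s₃ ^ 2) * T₁ - (y₁ * y₂ / 2) * S₁
  · linear_combination (y₁ * y₃ / 2) * C₁ - (y₁ * y₂ / 2) * Q₂ - (2 * s₂ * c₂ * y₁) * T₁
  · linear_combination y₃ * T₃ - y₁ * (c₂ ^ 2 - s₂ ^ 2) * T₁ + (y₁ * y₃ / 2) * S₁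

end Pool.Agent.H97.IN
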