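import Pool.Agent.H97.IN.Stubs

/-! IN-KEY (helper14): the inequality on the leaf of 3-periodic orbits. -/

set_option autoImplicit false

open Set MeasureTheory Filter Topology
open scoped Real

namespace Pool.Agent.H97.IN

namespace KeyP

lemma AA_deriv (d : ℝ) : HasDerivAt AA (Real.sin d ^ 2 * Real.cos d ^ 2) d := by
  have hs := Real.hasDerivAt_sin d
  have hc := Real.hasDerivAt_cos d
  have h := ((hasDerivAt_id d).sub ((hs.mul hc).mul ((hc.pow 2).sub (hs.pow 2)))).div_const 8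
  have e := Real.sin_sq_add_cos_sq d
  refine h.congr_deriv ?_
  simp only [Pi.mul_apply, Pi.sub_apply, Pi.pow_apply, Nat.cast_ofNat, Nat.add_one_sub_one, pow_one]
  linear_combination (-(1 / 8) * (Real.sin d ^ 2 + Real.cos d ^ 2 + 1)) * e

lemma AA_eq (d : ℝ) : 8 * AA d = d - Real.sin d * Real.cos d * (Real.cos d ^ 2 - Real.sin d ^ 2) := by
  unfold AA; ring

lemma BB_eq (d : ℝ) : BB d = 4 * AA d - Real.sin d * Real.cos d * Real.sin d ^ 2 := by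
  have e := Real.sin_sq_add_cos_sq d
  unfold BB AA
  linear_combination (1 / 2 * Real.sin d * Real.cos d) * e

/-- the sum of the `AA` over a triangle -/
lemma sum_trig {s₁ s₂ s₃ c₁ c₂ c₃ : ℝ} (q₁ : s₁ ^ 2 + c₁ ^ 2 = 1) (q₂ : s₂ ^ 2 + c₂ ^ 2 = 1)
    (e₃ : s₃ = s₁ * c₂ + c₁ * s₂) (f₃ : c₃ = s₁ * s₂ - c₁ * c₂) :
    -(s₁ * c₁ * (c₁ ^ 2 - s₁ ^ 2)) - s₂ * c₂ * (c₂ ^ 2 - s₂ ^ 2) - s₃ * c₃ * (c₃ ^ 2 - s₃ ^ 2) =
      8 * ((s₁ * c₁) * (s₂ * c₂) * (s₃ * c₃)) := by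
  obtain ⟨S1, hS1⟩ : ∃ S1, S1 = 2 * s₁ * c₁ := ⟨_, rfl⟩
  obtain ⟨C1, hC1⟩ : ∃ C1, C1 = c₁ ^ 2 - s₁ ^ 2 := ⟨_, rfl⟩
  obtain ⟨S2, hS2⟩ : ∃ S2, S2 = 2 * s₂ * c₂ := ⟨_, rfl⟩
  obtain ⟨C2, hC2⟩ : ∃ C2, C2 = c₂ ^ 2 - s₂ ^ 2 := ⟨_, rfl⟩
  have Q1 : S1 ^ 2 + C1 ^ 2 = 1 := by
    rw [hS1, hC1]; linear_combination (s₁ ^ 2 + c₁ ^ 2 + 1) * q₁
  have Q2 : S2 ^ 2 + C2 ^ 2 = 1 := by
    rw [hS2, hC2]; linear_combination (s₂ ^ 2 + c₂ ^ 2 + 1) * q₂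
  have S3 : s₃ * c₃ = -(S1 * C2 + C1 * S2) / 2 := by
    rw [e₃, f₃, hS1, hC1, hS2, hC2]; ring
  have C3 : c₃ ^ 2 - s₃ ^ 2 = C1 * C2 - S1 * S2 := by
    rw [e₃, f₃, hS1, hC1, hS2, hC2]; ring
  have n1 : s₁ * c₁ = S1 / 2 := by rw [hS1]; ring
  have n2 : s₂ * c₂ = S2 / 2 := by rw [hS2]; ring
  rw [S3, C3, n1, n2, ← hC1, ← hC2]
  linear_combination (1 / 2 * S2 * C2) * Q1 + (1 / 2 * S1 * C1) * Q2

lemma one (h t r g a a' ω : ℝ) (hω : ω = a * ((t ^ 2 + h * (r - h) + 2 * a) * g) - h * t * (a' - 2 * (h * t) * g)) :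
    (t ^ 2 + h * (r - h)) * g * (h ^ 2 - t ^ 2 - 2 * a) +
      h * t * ((4 * (h * t) - 2 * t * r) * g - 2 * a') =
    ((t ^ 2 + h * (r - h) + 2 * a) * (h ^ 2 - 3 * t ^ 2 - 4 * a) -
      2 * (h ^ 2 - t ^ 2 - 2 * a) * (t ^ 2 + a)) * g + 2 * ω := by
  rw [hω]; ring

lemma two (h t r g a a' ω : ℝ) (hω : ω = a * ((t ^ 2 + h * (r - h) + 2 * a) * g) - h * t * (a' - 2 * (h * t) * g)) :
    ((t ^ 2 + h * (r - h)) ^ 2 - 4 * (h * t) ^ 2) * g =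
      (t ^ 2 + h * (r - h) + 2 * a) ^ 2 * g - 2 * ω - 2 * (a' * (h * t) + a * ((t ^ 2 + h * (r - h)) * g)) := by
  rw [hω]; ring

/-- the algebra of the derivative -/
lemma alg {s₁ s₂ s₃ c₁ c₂ c₃ h₁ h₂ h₃ t₁ t₂ t₃ r₁ r₂ r₃ g₂ g₃ A₁ A₂ A₃ a₁ a₂ a₃ α α₂ α₃ p : ℝ}
    (q2 : s₂ ^ 2 + c₂ ^ 2 = 1) (q3 : s₃ ^ 2 + c₃ ^ 2 = 1)
    (ha2 : a₂ = a₁ * (c₃ ^ 2 - s₃ ^ 2) - h₁ * t₁ * (2 * s₃ * c₃))
    (hb2 : h₂ * t₂ = a₁ * (2 * s₃ * c₃) + h₁ * t₁ * (c₃ ^ 2 - s₃ ^ 2))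
    (ha3 : a₃ = a₁ * (c₂ ^ 2 - s₂ ^ 2) + h₁ * t₁ * (2 * s₂ * c₂))
    (hb3 : h₃ * t₃ = -(a₁ * (2 * s₂ * c₂)) + h₁ * t₁ * (c₂ ^ 2 - s₂ ^ 2))
    (B2 : (t₂ ^ 2 + h₂ * (r₂ - h₂)) * g₂ = α * (2 * s₃ * c₃) + a₁ * ((c₃ ^ 2 - s₃ ^ 2) * (2 * (1 - g₂))) +
      (t₁ ^ 2 + h₁ * (r₁ - h₁)) * (c₃ ^ 2 - s₃ ^ 2) - h₁ * t₁ * (2 * s₃ * c₃ * (2 * (1 - g₂))))
    (B3 : (t₃ ^ 2 + h₃ * (r₃ - h₃)) * g₃ = -(α * (2 * s₂ * c₂)) - a₁ * ((c₂ ^ 2 - s₂ ^ 2) * (2 * (g₃ - 1))) +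
      (t₁ ^ 2 + h₁ * (r₁ - h₁)) * (c₂ ^ 2 - s₂ ^ 2) - h₁ * t₁ * (2 * s₂ * c₂ * (2 * (g₃ - 1))))
    (hα2 : α₂ = α * (c₃ ^ 2 - s₃ ^ 2) - a₁ * (2 * s₃ * c₃ * (2 * (1 - g₂))) -
      (t₁ ^ 2 + h₁ * (r₁ - h₁)) * (2 * s₃ * c₃) - h₁ * t₁ * ((c₃ ^ 2 - s₃ ^ 2) * (2 * (1 - g₂))))
    (hα3 : α₃ = α * (c₂ ^ 2 - s₂ ^ 2) - a₁ * (2 * s₂ * c₂ * (2 * (g₃ - 1))) +
      (t₁ ^ 2 + h₁ * (r₁ - h₁)) * (2 * s₂ * c₂) + h₁ * t₁ * ((c₂ ^ 2 - s₂ ^ 2) * (2 * (g₃ - 1))))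
    (hA : 8 * (A₁ + A₂ + A₃) = p + 8 * ((s₁ * c₁) * (s₂ * c₂) * (s₃ * c₃)))
    (star : (s₁ * c₁ * (s₁ ^ 2 * t₁ ^ 2 * (h₁ * r₁ * 1)) + s₂ * c₂ * (s₂ ^ 2 * t₂ ^ 2 * (h₂ * r₂ * g₂)) +
      s₃ * c₃ * (s₃ ^ 2 * t₃ ^ 2 * (h₃ * r₃ * g₃))) -
      ((s₁ * c₁) ^ 2 * (h₁ * t₁ * (h₁ ^ 2 - t₁ ^ 2 - 2 * a₁)) * (g₂ - g₃) +
      (s₂ * c₂) ^ 2 * (h₂ * t₂ * (h₂ ^ 2 - t₂ ^ 2 - 2 * a₂)) * (g₃ - 1) +
      (s₃ * c₃) ^ 2 * (h₃ * t₃ * (h₃ ^ 2 - t₃ ^ 2 - 2 * a₃)) * (1 - g₂)) =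
      s₁ * c₁ * (s₂ * c₂) * (h₂ * t₂ * (h₁ * r₁ * 1 - (h₁ ^ 2 - t₁ ^ 2 - 2 * a₁) * 1) -
        h₁ * t₁ * (h₂ * r₂ * g₂ - (h₂ ^ 2 - t₂ ^ 2 - 2 * a₂) * g₂))) :
    2 * (((s₁ * c₁) ^ 2 * (g₂ - g₃) * (h₁ * t₁ * (h₁ ^ 2 - t₁ ^ 2 - 2 * a₁)) +
        A₁ * ((t₁ ^ 2 + h₁ * (r₁ - h₁)) * 1 * (h₁ ^ 2 - t₁ ^ 2 - 2 * a₁) +
          h₁ * t₁ * ((4 * (h₁ * t₁) - 2 * t₁ * r₁) * 1 - 2 * α))) +
      ((s₂ * c₂) ^ 2 * (g₃ - 1) * (h₂ * t₂ * (h₂ ^ 2 - t₂ ^ 2 - 2 * a₂)) +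
        A₂ * ((t₂ ^ 2 + h₂ * (r₂ - h₂)) * g₂ * (h₂ ^ 2 - t₂ ^ 2 - 2 * a₂) +
          h₂ * t₂ * ((4 * (h₂ * t₂) - 2 * t₂ * r₂) * g₂ - 2 * α₂))) +
      ((s₃ * c₃) ^ 2 * (1 - g₂) * (h₃ * t₃ * (h₃ ^ 2 - t₃ ^ 2 - 2 * a₃)) +
        A₃ * ((t₃ ^ 2 + h₃ * (r₃ - h₃)) * g₃ * (h₃ ^ 2 - t₃ ^ 2 - 2 * a₃) +
          h₃ * t₃ * ((4 * (h₃ * t₃) - 2 * t₃ * r₃) * g₃ - 2 * α₃)))) +
    p / 6 * ((α * (h₁ * t₁) + a₁ * ((t₁ ^ 2 + h₁ * (r₁ - h₁)) * 1)) +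
      (α₂ * (h₂ * t₂) + a₂ * ((t₂ ^ 2 + h₂ * (r₂ - h₂)) * g₂)) +
      (α₃ * (h₃ * t₃) + a₃ * ((t₃ ^ 2 + h₃ * (r₃ - h₃)) * g₃))) =
    ((-(2 * r₁ * (h₁ ^ 3 * A₁ + h₁ * t₁ ^ 2 * ((4 * A₁ - s₁ * c₁ * s₁ ^ 2) - 3 * A₁)) - 2 * r₁ ^ 2 * h₁ ^ 2 * A₁) -
        p / 12 * ((t₁ ^ 2 + h₁ * (r₁ - h₁)) ^ 2 - 4 * (h₁ * t₁) ^ 2)) * 1 +
      (-(2 * r₂ * (h₂ ^ 3 * A₂ + h₂ * t₂ ^ 2 * ((4 * A₂ - s₂ * c₂ * s₂ ^ 2) - 3 * A₂)) - 2 * r₂ ^ 2 * h₂ ^ 2 * A₂) -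
        p / 12 * ((t₂ ^ 2 + h₂ * (r₂ - h₂)) ^ 2 - 4 * (h₂ * t₂) ^ 2)) * g₂ +
      (-(2 * r₃ * (h₃ ^ 3 * A₃ + h₃ * t₃ ^ 2 * ((4 * A₃ - s₃ * c₃ * s₃ ^ 2) - 3 * A₃)) - 2 * r₃ ^ 2 * h₃ ^ 2 * A₃) -
        p / 12 * ((t₃ ^ 2 + h₃ * (r₃ - h₃)) ^ 2 - 4 * (h₃ * t₃) ^ 2)) * g₃) -
    2 * ((A₁ - p / 24) * ((t₁ ^ 2 + h₁ * (r₁ - h₁) + 2 * a₁) ^ 2 * 1) +
      (A₂ - p / 24) * ((t₂ ^ 2 + h₂ * (r₂ - h₂) + 2 * a₂) ^ 2 * g₂) +
      (A₃ - p / 24) * ((t₃ ^ 2 + h₃ * (r₃ - h₃) + 2 * a₃) ^ 2 * g₃)) := by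
  obtain ⟨ω, hω⟩ : ∃ ω, ω = a₁ * ((t₁ ^ 2 + h₁ * (r₁ - h₁) + 2 * a₁) * 1) - h₁ * t₁ * (α - 2 * (h₁ * t₁) * 1) :=
    ⟨_, rfl⟩
  -- rotated relations
  have p2 : α₂ - 2 * (h₂ * t₂) * g₂ = (c₃ ^ 2 - s₃ ^ 2) * (α - 2 * (h₁ * t₁)) -
      2 * s₃ * c₃ * (t₁ ^ 2 + h₁ * (r₁ - h₁) + 2 * a₁) := by
    rw [hα2, hb2]; ring
  have Q2 : (t₂ ^ 2 + h₂ * (r₂ - h₂) + 2 * a₂) * g₂ = 2 * s₃ * c₃ * (α - 2 * (h₁ * t₁)) +
      (c₃ ^ 2 - s₃ ^ 2) * (t₁ ^ 2 + h₁ * (r₁ - h₁) + 2 * a₁) := by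
    rw [ha2]; linear_combination B2
  have p3 : α₃ - 2 * (h₃ * t₃) * g₃ = (c₂ ^ 2 - s₂ ^ 2) * (α - 2 * (h₁ * t₁)) +
      2 * s₂ * c₂ * (t₁ ^ 2 + h₁ * (r₁ - h₁) + 2 * a₁) := by
    rw [hα3, hb3]; ring
  have Q3 : (t₃ ^ 2 + h₃ * (r₃ - h₃) + 2 * a₃) * g₃ = -(2 * s₂ * c₂) * (α - 2 * (h₁ * t₁)) +
      (c₂ ^ 2 - s₂ ^ 2) * (t₁ ^ 2 + h₁ * (r₁ - h₁) + 2 * a₁) := by
    rw [ha3]; linear_combination B3
  have R3 : (2 * s₃ * c₃) ^ 2 + (c₃ ^ 2 - s₃ ^ 2) ^ 2 = 1 := by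
    linear_combination (s₃ ^ 2 + c₃ ^ 2 + 1) * q3
  have R2 : (2 * s₂ * c₂) ^ 2 + (c₂ ^ 2 - s₂ ^ 2) ^ 2 = 1 := by
    linear_combination (s₂ ^ 2 + c₂ ^ 2 + 1) * q2
  have w2 : ω = a₂ * ((t₂ ^ 2 + h₂ * (r₂ - h₂) + 2 * a₂) * g₂) - h₂ * t₂ * (α₂ - 2 * (h₂ * t₂) * g₂) := by
    rw [Q2, p2, hb2, ha2, hω]
    linear_combination (-(a₁ * (t₁ ^ 2 + h₁ * (r₁ - h₁) + 2 * a₁) - h₁ * t₁ * (α - 2 * (h₁ * t₁)))) * R3
  have w3 : ω = a₃ * ((t₃ ^ 2 + h₃ * (r₃ - h₃) + 2 * a₃) * g₃) - h₃ * t₃ * (α₃ - 2 * (h₃ * t₃) * g₃) := by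
    rw [Q3, p3, hb3, ha3, hω]
    linear_combination (-(a₁ * (t₁ ^ 2 + h₁ * (r₁ - h₁) + 2 * a₁) - h₁ * t₁ * (α - 2 * (h₁ * t₁)))) * R2
  have o1 := one h₁ t₁ r₁ 1 a₁ α ω hω
  have o2 := one h₂ t₂ r₂ g₂ a₂ α₂ ω w2
  have o3 := one h₃ t₃ r₃ g₃ a₃ α₃ ω w3
  have v1 := two h₁ t₁ r₁ 1 a₁ α ω hω
  have v2 := two h₂ t₂ r₂ g₂ a₂ α₂ ω w2
  have v3 := two h₃ t₃ r₃ g₃ a₃ α₃ ω w3
  have sw : h₂ * t₂ * (h₁ * r₁ * 1 - (h₁ ^ 2 - t₁ ^ 2 - 2 * a₁) * 1) -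
        h₁ * t₁ * (h₂ * r₂ * g₂ - (h₂ ^ 2 - t₂ ^ 2 - 2 * a₂) * g₂) = 2 * s₃ * c₃ * ω := by
    have e1 : h₂ * r₂ * g₂ - (h₂ ^ 2 - t₂ ^ 2 - 2 * a₂) * g₂ = (t₂ ^ 2 + h₂ * (r₂ - h₂) + 2 * a₂) * g₂ := by ring
    rw [e1, Q2, hb2, hω]; ring
  rw [sw] at star
  rw [o1, o2, o3]
  linear_combination (-2) * star + (p / 12) * v1 + (p / 12) * v2 + (p / 12) * v3 + (ω / 2) * hA

lemma tri_cyc {s₁ s₂ s₃ c₁ c₂ c₃ y₁ y₂ y₃ t₁ t₂ t₃ g₁ g₂ g₃ P₁ P₂ P₃ L Γ : ℝ}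
    (h : Tri s₁ s₂ s₃ c₁ c₂ c₃ y₁ y₂ y₃ t₁ t₂ t₃ g₁ g₂ g₃ P₁ P₂ P₃ L Γ) :
    Tri s₂ s₃ s₁ c₂ c₃ c₁ y₂ y₃ y₁ t₂ t₃ t₁ g₂ g₃ g₁ P₂ P₃ P₁ L Γ := by
  obtain ⟨p1, p2, p3, q1, q2, e3, f3, T1, T2, T3, L0, G0, R1, R2, R3⟩ := h
  refine ⟨p2, p3, p1, q2, ?_, ?_, ?_, T2, T3, T1, by rw [L0]; ring, by rw [G0]; ring, R2, R3, R1⟩
  · rw [e3, f3]; linear_combination (s₂ ^ 2 + c₂ ^ 2) * q1 + q2
  · rw [e3, f3]; linear_combination (-s₁) * q2
  · rw [e3, f3]; linear_combination (-c₁) * q2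

lemma a3_diff {y1 y2 y3 c2 s2 c3 s3 : ℝ → ℝ} {x : ℝ} (h1 : DifferentiableAt ℝ y1 x)
    (h2 : DifferentiableAt ℝ y2 x) (h3 : DifferentiableAt ℝ y3 x) (h4 : DifferentiableAt ℝ c2 x)
    (h5 : DifferentiableAt ℝ s2 x) (h6 : DifferentiableAt ℝ c3 x) (h7 : DifferentiableAt ℝ s3 x) :
    DifferentiableAt ℝ (fun x => a3 (y1 x) (y2 x) (y3 x) (c2 x) (s2 x) (c3 x) (s3 x)) x := by
  unfold a3
  fun_prop

lemma dC {φ : ℝ → ℝ} {φ' x : ℝ} (h : HasDerivAt φ φ' x) :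
    HasDerivAt (fun y => Real.cos (φ y) ^ 2 - Real.sin (φ y) ^ 2)
      (-(2 * Real.sin (φ x) * Real.cos (φ x) * (2 * φ'))) x := by
  refine ((h.cos.pow 2).sub (h.sin.pow 2)).congr_deriv ?_
  simp only [Nat.cast_ofNat, Nat.add_one_sub_one, pow_one]
  ring

lemma dS {φ : ℝ → ℝ} {φ' x : ℝ} (h : HasDerivAt φ φ' x) :
    HasDerivAt (fun y => 2 * Real.sin (φ y) * Real.cos (φ y))
      ((Real.cos (φ x) ^ 2 - Real.sin (φ x) ^ 2) * (2 * φ')) x := by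
  refine ((h.sin.const_mul 2).mul h.cos).congr_deriv ?_
  ring

lemma AA_cont : Continuous AA := continuous_iff_continuousAt.2 fun x => (AA_deriv x).continuousAt

lemma BB_cont : Continuous BB := by unfold BB; fun_prop

/-- substitution -/
lemma subst_int {W φ φ' : ℝ → ℝ} (hW : Continuous W) (hφ : ∀ x, HasDerivAt φ (φ' x) x) (hφ' : Continuous φ')
    (hp : ∀ x, W (x + 2 * π) = W x) (hφp : ∀ x, φ (x + 2 * π) = φ x + 2 * π) :
    ∫ x in (0 : ℝ)..(2 * π), W (φ x) * φ' x = ∫ x in (0 : ℝ)..(2 * π), W x := by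
  have h1 := intervalIntegral.integral_comp_mul_deriv (a := 0) (b := 2 * π) (f := φ) (f' := φ') (g := W)
    (fun x _ => hφ x) hφ'.continuousOn hW
  have h2 : φ (2 * π) = φ 0 + 2 * π := by have := hφp 0; rwa [zero_add] at this
  have h3 : Function.Periodic W (2 * π) := hp
  have h4 := h3.intervalIntegral_add_eq (φ 0) 0
  rw [zero_add] at h4
  rw [← h4, ← h2, ← h1]
  rfl

end KeyP

open KeyP in
theorem key (k1 : S_kin) (k2 : S_kap) (k3 : S_beta) (k4 : S_star) (k5 : S_point) : S_key := by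
  intro h t r d u f g hL hd
  obtain ⟨G1, D1, T1, U1, L, hL0, HL, RL⟩ := k1 h t r d u f g hL
  have S := hL.supp
  -- periodicity of `g`
  have gper : ∀ x, g (x + 2 * π) = g x := by
    intro x
    have e1 : HasDerivAt (fun y => f (y + 2 * π)) (g (x + 2 * π)) x := by
      exact HasDerivAt.comp_add_const x (2 * π) (hL.fd (x + 2 * π))
    have e2 : HasDerivAt (fun y => f (y + 2 * π)) (g x) x := by
      have : (fun y => f (y + 2 * π)) = fun y => f y + 2 * π := funext hL.fper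
      rw [this]; exact (hL.fd x).add_const _
    exact e1.unique e2
  have f2per : ∀ x, f (f (x + 2 * π)) = f (f x) + 2 * π := by
    intro x; rw [hL.fper, hL.fper]
  -- derivatives along the orbit
  have df : ∀ x, HasDerivAt f (g x) x := hL.fd
  have dff : ∀ x, HasDerivAt (fun y => f (f y)) (g (f x) * g x) x := fun x => (df (f x)).comp x (df x)
  have fc : Continuous f := continuous_iff_continuousAt.2 fun x => (df x).continuousAt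
  have dc : Continuous d := continuous_iff_continuousAt.2 fun x => (hL.dd x).continuousAt
  have hc : Continuous h := continuous_iff_continuousAt.2 fun x => (S.dh x).continuousAt
  have tc : Continuous t := continuous_iff_continuousAt.2 fun x => (S.dt x).continuousAt
  have rc : Continuous r := S.cont
  have spos : ∀ x, 0 < Real.sin (d x) := fun x =>
    Real.sin_pos_of_pos_of_lt_pi (hL.dpos x) (by linarith [hL.dlt x, Real.pi_pos])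
  -- the triangle
  have tri : ∀ x, Tri (Real.sin (d x)) (Real.sin (d (f x))) (Real.sin (d (f (f x))))
      (Real.cos (d x)) (Real.cos (d (f x))) (Real.cos (d (f (f x))))
      (h x / Real.sin (d x)) (h (f x) / Real.sin (d (f x))) (h (f (f x)) / Real.sin (d (f (f x))))
      (t x) (t (f x)) (t (f (f x))) 1 (g x) (g (f x) * g x)
      (h x * r x * 1) (h (f x) * r (f x) * g x) (h (f (f x)) * r (f (f x)) * (g (f x) * g x)) L
      (Real.cos (d x) / Real.sin (d x) * 1 + Real.cos (d (f x)) / Real.sin (d (f x)) * g x +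
        Real.cos (d (f (f x))) / Real.sin (d (f (f x))) * (g (f x) * g x)) := by
    intro x
    have s1 := spos x
    have s2 := spos (f x)
    have s3 := spos (f (f x))
    have d3 : d (f (f x)) = π - (d x + d (f x)) := by linarith [D1 x]
    have f3 := hL.f3 x
    have hx3 : h (f (f (f x))) = h x := by rw [f3, S.hp]
    have dx3 : d (f (f (f x))) = d x := by rw [f3, hL.dper]
    have gx3 : g (f (f (f x))) = g x := by rw [f3, gper]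
    have f4 : f (f (f (f x))) = f x + 2 * π := by rw [f3, hL.fper]
    have hx4 : h (f (f (f (f x)))) = h (f x) := by rw [f4, S.hp]
    have dx4 : d (f (f (f (f x)))) = d (f x) := by rw [f4, hL.dper]
    have gg := G1 x
    refine ⟨s1, s2, s3, Real.sin_sq_add_cos_sq _, Real.sin_sq_add_cos_sq _, ?_, ?_, ?_, ?_, ?_, ?_, rfl, ?_, ?_, ?_⟩
    · rw [d3, Real.sin_pi_sub, Real.sin_add]
    · rw [d3, Real.cos_pi_sub, Real.cos_add]; ring
    · rw [T1 x]; field_simp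
    · have := T1 (f x)
      rw [hx3, dx3] at this
      rw [this]; field_simp
    · have := T1 (f (f x))
      rw [hx3, dx3, hx4, dx4] at this
      rw [this]; field_simp
    · rw [← HL x]; field_simp
    · have := RL x
      generalize Real.cos (d (f x)) / Real.sin (d (f x)) * g x = X at this ⊢
      generalize Real.cos (d (f (f x))) / Real.sin (d (f (f x))) * (g (f x) * g x) = Y at this ⊢
      have e : r x * Real.sin (d x) ^ 3 * (h x / Real.sin (d x)) = Real.sin (d x) ^ 2 * (h x * r x * 1) := by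
        field_simp
      rw [← e, this]; ring
    · have := RL (f x)
      rw [dx3] at this
      have e : r (f x) * Real.sin (d (f x)) ^ 3 * (h (f x) / Real.sin (d (f x)) * g x) =
          Real.sin (d (f x)) ^ 2 * (h (f x) * r (f x) * g x) := by
        field_simp
      rw [← e, this]
      linear_combination (-(L * (h (f x) / Real.sin (d (f x))) * (Real.sin (d (f x)) * Real.cos (d (f x))) *
        (Real.cos (d x) / Real.sin (d x)))) * gg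
    · have := RL (f (f x))
      rw [dx3, dx4, gx3] at this
      have e : r (f (f x)) * Real.sin (d (f (f x))) ^ 3 * (h (f (f x)) / Real.sin (d (f (f x))) * (g (f x) * g x)) =
          Real.sin (d (f (f x))) ^ 2 * (h (f (f x)) * r (f (f x)) * (g (f x) * g x)) := by
        field_simp
      rw [← e, this]
      linear_combination (-(L * (h (f (f x)) / Real.sin (d (f (f x)))) * (Real.sin (d (f (f x))) *
        Real.cos (d (f (f x)))) * (Real.cos (d x) / Real.sin (d x) + Real.cos (d (f x)) / Real.sin (d (f x)) * g x))) * gg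
  -- the functions
  obtain ⟨a₁, ha₁⟩ : ∃ a₁ : ℝ → ℝ, a₁ = fun x => a3 (h x / Real.sin (d x)) (h (f x) / Real.sin (d (f x)))
    (h (f (f x)) / Real.sin (d (f (f x)))) (Real.cos (d (f x))) (Real.sin (d (f x)))
    (Real.cos (d (f (f x)))) (Real.sin (d (f (f x)))) := ⟨_, rfl⟩
  obtain ⟨a₂, ha₂⟩ : ∃ a₂ : ℝ → ℝ, a₂ = fun x => a₁ x * (Real.cos (d (f (f x))) ^ 2 - Real.sin (d (f (f x))) ^ 2) -
    h x * t x * (2 * Real.sin (d (f (f x))) * Real.cos (d (f (f x)))) := ⟨_, rfl⟩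
  obtain ⟨a₃, ha₃⟩ : ∃ a₃ : ℝ → ℝ, a₃ = fun x => a₁ x * (Real.cos (d (f x)) ^ 2 - Real.sin (d (f x)) ^ 2) +
    h x * t x * (2 * Real.sin (d (f x)) * Real.cos (d (f x))) := ⟨_, rfl⟩
  have hb2 : ∀ x, h (f x) * t (f x) = a₁ x * (2 * Real.sin (d (f (f x))) * Real.cos (d (f (f x)))) +
      h x * t x * (Real.cos (d (f (f x))) ^ 2 - Real.sin (d (f (f x))) ^ 2) := by
    intro x
    have := (k3 _ _ _ _ _ _ _ _ _ _ _ _ _ _ _ _ _ _ _ _ (tri x)).2.1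
    have s1 := (spos x).ne'
    have s2 := (spos (f x)).ne'
    rw [mul_div_cancel₀ _ s1, mul_div_cancel₀ _ s2] at this
    rw [this, ha₁]
  have hb3 : ∀ x, h (f (f x)) * t (f (f x)) = -(a₁ x * (2 * Real.sin (d (f x)) * Real.cos (d (f x)))) +
      h x * t x * (Real.cos (d (f x)) ^ 2 - Real.sin (d (f x)) ^ 2) := by
    intro x
    have := (k3 _ _ _ _ _ _ _ _ _ _ _ _ _ _ _ _ _ _ _ _ (tri x)).2.2.2
    have s1 := (spos x).ne'
    have s3 := (spos (f (f x))).ne'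
    rw [mul_div_cancel₀ _ s1, mul_div_cancel₀ _ s3] at this
    rw [this, ha₁]
  have hA2 : ∀ x, a₂ x = a3 (h (f x) / Real.sin (d (f x))) (h (f (f x)) / Real.sin (d (f (f x))))
      (h x / Real.sin (d x)) (Real.cos (d (f (f x)))) (Real.sin (d (f (f x)))) (Real.cos (d x)) (Real.sin (d x)) := by
    intro x
    have := (k3 _ _ _ _ _ _ _ _ _ _ _ _ _ _ _ _ _ _ _ _ (tri x)).1
    rw [mul_div_cancel₀ _ (spos x).ne'] at this
    rw [this, ha₂, ha₁]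
  have hA3 : ∀ x, a₃ x = a3 (h (f (f x)) / Real.sin (d (f (f x)))) (h x / Real.sin (d x))
      (h (f x) / Real.sin (d (f x))) (Real.cos (d x)) (Real.sin (d x)) (Real.cos (d (f x))) (Real.sin (d (f x))) := by
    intro x
    have := (k3 _ _ _ _ _ _ _ _ _ _ _ _ _ _ _ _ _ _ _ _ (tri x)).2.2.1
    rw [mul_div_cancel₀ _ (spos x).ne'] at this
    rw [this, ha₃, ha₁]
  -- derivatives
  have dd1 : ∀ x, HasDerivAt d (g x - g (f x) * g x) x := fun x => by rw [← U1]; exact hL.dd x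
  have dd2 : ∀ x, HasDerivAt (fun y => d (f y)) (g (f x) * g x - 1) x := by
    intro x
    refine ((hL.dd (f x)).comp x (df x)).congr_deriv ?_
    rw [U1]
    linear_combination (-1) * G1 x
  have gx3 : ∀ x, g (f (f (f x))) = g x := by intro x; rw [hL.f3, gper]
  have dd3 : ∀ x, HasDerivAt (fun y => d (f (f y))) (1 - g x) x := by
    intro x
    refine ((hL.dd (f (f x))).comp x (dff x)).congr_deriv ?_
    rw [U1, gx3]
    linear_combination (1 - g x) * G1 x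
  have da1 : ∀ x, ∃ α, HasDerivAt a₁ α x := by
    intro x
    refine ⟨deriv a₁ x, DifferentiableAt.hasDerivAt ?_⟩
    have e1 := (dd1 x).differentiableAt
    have e2 := (dd2 x).differentiableAt
    have e3 := (dd3 x).differentiableAt
    have e4 := (S.dh x).differentiableAt
    have e5 : DifferentiableAt ℝ (fun y => h (f y)) x := ((S.dh (f x)).comp x (df x)).differentiableAt
    have e6 : DifferentiableAt ℝ (fun y => h (f (f y))) x := ((S.dh (f (f x))).comp x (dff x)).differentiableAt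
    rw [ha₁]
    exact a3_diff (e4.div e1.sin (spos x).ne') (e5.div e2.sin (spos (f x)).ne') (e6.div e3.sin (spos (f (f x))).ne')
      e2.cos e2.sin e3.cos e3.sin
  choose α hα using da1
  have db : ∀ {φ : ℝ → ℝ} {φ' x : ℝ}, HasDerivAt φ φ' x → HasDerivAt (fun y => h (φ y) * t (φ y))
      ((t (φ x) ^ 2 + h (φ x) * (r (φ x) - h (φ x))) * φ') x := by
    intro φ φ' x hφ
    refine (((S.dh (φ x)).comp x hφ).mul ((S.dt (φ x)).comp x hφ)).congr_deriv ?_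
    simp only [Function.comp]
    ring
  have dq : ∀ {φ : ℝ → ℝ} {φ' x : ℝ}, HasDerivAt φ φ' x → HasDerivAt (fun y => h (φ y) ^ 2 - t (φ y) ^ 2)
      ((4 * (h (φ x) * t (φ x)) - 2 * t (φ x) * r (φ x)) * φ') x := by
    intro φ φ' x hφ
    refine ((((S.dh (φ x)).comp x hφ).pow 2).sub (((S.dt (φ x)).comp x hφ).pow 2)).congr_deriv ?_
    simp only [Function.comp, Nat.cast_ofNat, Nat.add_one_sub_one, pow_one]
    ring
  have db1 : ∀ x, HasDerivAt (fun y => h y * t y) ((t x ^ 2 + h x * (r x - h x)) * 1) x := fun x => db (hasDerivAt_id x)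
  have dq1 : ∀ x, HasDerivAt (fun y => h y ^ 2 - t y ^ 2) ((4 * (h x * t x) - 2 * t x * r x) * 1) x :=
    fun x => dq (hasDerivAt_id x)
  have dA : ∀ {φ : ℝ → ℝ} {φ' x : ℝ}, HasDerivAt φ φ' x → HasDerivAt (fun y => AA (φ y))
      ((Real.sin (φ x) * Real.cos (φ x)) ^ 2 * φ') x := by
    intro φ φ' x hφ
    exact ((AA_deriv (φ x)).comp x hφ).congr_deriv (by ring)
  obtain ⟨α₂, hα₂⟩ : ∃ α₂ : ℝ → ℝ, α₂ = fun x => α x * (Real.cos (d (f (f x))) ^ 2 - Real.sin (d (f (f x))) ^ 2) -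
      a₁ x * (2 * Real.sin (d (f (f x))) * Real.cos (d (f (f x))) * (2 * (1 - g x))) -
      (t x ^ 2 + h x * (r x - h x)) * (2 * Real.sin (d (f (f x))) * Real.cos (d (f (f x)))) -
      h x * t x * ((Real.cos (d (f (f x))) ^ 2 - Real.sin (d (f (f x))) ^ 2) * (2 * (1 - g x))) := ⟨_, rfl⟩
  obtain ⟨α₃, hα₃⟩ : ∃ α₃ : ℝ → ℝ, α₃ = fun x => α x * (Real.cos (d (f x)) ^ 2 - Real.sin (d (f x)) ^ 2) -
      a₁ x * (2 * Real.sin (d (f x)) * Real.cos (d (f x)) * (2 * (g (f x) * g x - 1))) +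
      (t x ^ 2 + h x * (r x - h x)) * (2 * Real.sin (d (f x)) * Real.cos (d (f x))) +
      h x * t x * ((Real.cos (d (f x)) ^ 2 - Real.sin (d (f x)) ^ 2) * (2 * (g (f x) * g x - 1))) := ⟨_, rfl⟩
  have da2 : ∀ x, HasDerivAt a₂ (α₂ x) x := by
    intro x
    rw [ha₂, hα₂]
    refine (((hα x).mul (dC (dd3 x))).sub ((db1 x).mul (dS (dd3 x)))).congr_deriv ?_
    ring
  have da3 : ∀ x, HasDerivAt a₃ (α₃ x) x := by
    intro x
    rw [ha₃, hα₃]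
    refine (((hα x).mul (dC (dd2 x))).add ((db1 x).mul (dS (dd2 x)))).congr_deriv ?_
    ring
  have B2 : ∀ x, (t (f x) ^ 2 + h (f x) * (r (f x) - h (f x))) * g x =
      α x * (2 * Real.sin (d (f (f x))) * Real.cos (d (f (f x)))) +
      a₁ x * ((Real.cos (d (f (f x))) ^ 2 - Real.sin (d (f (f x))) ^ 2) * (2 * (1 - g x))) +
      (t x ^ 2 + h x * (r x - h x)) * (Real.cos (d (f (f x))) ^ 2 - Real.sin (d (f (f x))) ^ 2) -
      h x * t x * (2 * Real.sin (d (f (f x))) * Real.cos (d (f (f x))) * (2 * (1 - g x))) := by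
    intro x
    have e1 := db (df x)
    have e2 := ((hα x).mul (dS (dd3 x))).add ((db1 x).mul (dC (dd3 x)))
    have e3 : (fun y => h (f y) * t (f y)) = (a₁ * fun y => 2 * Real.sin (d (f (f y))) * Real.cos (d (f (f y)))) +
        ((fun y => h y * t y) * fun y => (Real.cos (d (f (f y))) ^ 2 - Real.sin (d (f (f y))) ^ 2)) := funext hb2
    rw [e3] at e1
    have := e1.unique e2
    rw [this]; ring
  have B3 : ∀ x, (t (f (f x)) ^ 2 + h (f (f x)) * (r (f (f x)) - h (f (f x)))) * (g (f x) * g x) =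
      -(α x * (2 * Real.sin (d (f x)) * Real.cos (d (f x)))) -
      a₁ x * ((Real.cos (d (f x)) ^ 2 - Real.sin (d (f x)) ^ 2) * (2 * (g (f x) * g x - 1))) +
      (t x ^ 2 + h x * (r x - h x)) * (Real.cos (d (f x)) ^ 2 - Real.sin (d (f x)) ^ 2) -
      h x * t x * (2 * Real.sin (d (f x)) * Real.cos (d (f x)) * (2 * (g (f x) * g x - 1))) := by
    intro x
    have e1 := db (dff x)
    have e2 := (((hα x).mul (dS (dd2 x))).neg).add ((db1 x).mul (dC (dd2 x)))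
    have e3 : (fun y => h (f (f y)) * t (f (f y))) =
        -(a₁ * fun y => 2 * Real.sin (d (f y)) * Real.cos (d (f y))) +
        ((fun y => h y * t y) * fun y => (Real.cos (d (f y)) ^ 2 - Real.sin (d (f y)) ^ 2)) := funext hb3
    rw [e3] at e1
    have := e1.unique e2
    rw [this]; ring
  -- the potential
  obtain ⟨F, hF⟩ : ∃ F : ℝ → ℝ, F = fun x => 2 * (AA (d x) * (h x * t x * (h x ^ 2 - t x ^ 2 - 2 * a₁ x)) +
      AA (d (f x)) * (h (f x) * t (f x) * (h (f x) ^ 2 - t (f x) ^ 2 - 2 * a₂ x)) +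
      AA (d (f (f x))) * (h (f (f x)) * t (f (f x)) * (h (f (f x)) ^ 2 - t (f (f x)) ^ 2 - 2 * a₃ x))) +
      π / 6 * (a₁ x * (h x * t x) + a₂ x * (h (f x) * t (f x)) + a₃ x * (h (f (f x)) * t (f (f x)))) := ⟨_, rfl⟩
  obtain ⟨W, hW⟩ : ∃ W : ℝ → ℝ, W = fun x => -Psi3 (h x) (t x) (r x) (d x) -
      π / 12 * ((t x ^ 2 + h x * (r x - h x)) ^ 2 - 4 * (h x * t x) ^ 2) := ⟨_, rfl⟩
  obtain ⟨Z, hZ⟩ : ∃ Z : ℝ → ℝ, Z = fun x =>
      (AA (d x) - π / 24) * ((t x ^ 2 + h x * (r x - h x) + 2 * a₁ x) ^ 2 * 1) +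
      (AA (d (f x)) - π / 24) * ((t (f x) ^ 2 + h (f x) * (r (f x) - h (f x)) + 2 * a₂ x) ^ 2 * g x) +
      (AA (d (f (f x))) - π / 24) * ((t (f (f x)) ^ 2 + h (f (f x)) * (r (f (f x)) - h (f (f x))) + 2 * a₃ x) ^ 2 *
        (g (f x) * g x)) := ⟨_, rfl⟩
  -- the algebraic relations at `x`
  have star : ∀ x,
      (Real.sin (d x) * Real.cos (d x) * ((t x ^ 2 + h x * (r x - h x) + 2 * a₁ x) * 1) +
      Real.sin (d (f x)) * Real.cos (d (f x)) * ((t (f x) ^ 2 + h (f x) * (r (f x) - h (f x)) + 2 * a₂ x) * g x) +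
      Real.sin (d (f (f x))) * Real.cos (d (f (f x))) *
        ((t (f (f x)) ^ 2 + h (f (f x)) * (r (f (f x)) - h (f (f x))) + 2 * a₃ x) * (g (f x) * g x)) = 0) ∧
      (Real.sin (d x) * Real.cos (d x) * (Real.sin (d x) ^ 2 * t x ^ 2 * (h x * r x * 1)) +
      Real.sin (d (f x)) * Real.cos (d (f x)) * (Real.sin (d (f x)) ^ 2 * t (f x) ^ 2 * (h (f x) * r (f x) * g x)) +
      Real.sin (d (f (f x))) * Real.cos (d (f (f x))) * (Real.sin (d (f (f x))) ^ 2 * t (f (f x)) ^ 2 *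
        (h (f (f x)) * r (f (f x)) * (g (f x) * g x)))) -
      ((Real.sin (d x) * Real.cos (d x)) ^ 2 * (h x * t x * (h x ^ 2 - t x ^ 2 - 2 * a₁ x)) * (g x - g (f x) * g x) +
      (Real.sin (d (f x)) * Real.cos (d (f x))) ^ 2 * (h (f x) * t (f x) * (h (f x) ^ 2 - t (f x) ^ 2 - 2 * a₂ x)) *
        (g (f x) * g x - 1) +
      (Real.sin (d (f (f x))) * Real.cos (d (f (f x)))) ^ 2 * (h (f (f x)) * t (f (f x)) *
        (h (f (f x)) ^ 2 - t (f (f x)) ^ 2 - 2 * a₃ x)) * (1 - g x)) =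
      Real.sin (d x) * Real.cos (d x) * (Real.sin (d (f x)) * Real.cos (d (f x))) *
        (h (f x) * t (f x) * (h x * r x * 1 - (h x ^ 2 - t x ^ 2 - 2 * a₁ x) * 1) -
        h x * t x * (h (f x) * r (f x) * g x - (h (f x) ^ 2 - t (f x) ^ 2 - 2 * a₂ x) * g x)) := by
    intro x
    have T := tri x
    have K1 := k2 _ _ _ _ _ _ _ _ _ _ _ _ _ _ _ _ _ _ _ _ T
    have K2 := k2 _ _ _ _ _ _ _ _ _ _ _ _ _ _ _ _ _ _ _ _ (tri_cyc T)
    have K3 := k2 _ _ _ _ _ _ _ _ _ _ _ _ _ _ _ _ _ _ _ _ (tri_cyc (tri_cyc T))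
    rw [← hA2] at K2
    rw [← hA3] at K3
    have A1 : a₁ x = a3 (h x / Real.sin (d x)) (h (f x) / Real.sin (d (f x)))
      (h (f (f x)) / Real.sin (d (f (f x)))) (Real.cos (d (f x))) (Real.sin (d (f x)))
      (Real.cos (d (f (f x)))) (Real.sin (d (f (f x)))) := by rw [ha₁]
    rw [← A1] at K1
    have s1 := (spos x).ne'
    have s2 := (spos (f x)).ne'
    have s3 := (spos (f (f x))).ne'
    have St := k4 _ _ _ _ _ _ _ _ _ _ _ _ _ _ _ _ _ _ _ _ _ _ _ _ T rfl K1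
      (by rw [K2]; ring) (by rw [K3]; ring)
    rw [mul_div_cancel₀ _ s1, mul_div_cancel₀ _ s2, mul_div_cancel₀ _ s3] at St
    refine ⟨?_, St.2⟩
    have := St.1
    linear_combination this
  have Z0 : ∀ x, 0 ≤ Z x := by
    intro x
    have T := tri x
    have g0 := hL.gpos x
    have g1 := hL.gpos (f x)
    have g3 : 0 < g (f x) * g x := mul_pos g1 g0
    have P := k5 (d x) (d (f x)) (d (f (f x))) 1 (g x) (g (f x) * g x)
      ((t x ^ 2 + h x * (r x - h x) + 2 * a₁ x) * 1)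
      ((t (f x) ^ 2 + h (f x) * (r (f x) - h (f x)) + 2 * a₂ x) * g x)
      ((t (f (f x)) ^ 2 + h (f (f x)) * (r (f (f x)) - h (f (f x))) + 2 * a₃ x) * (g (f x) * g x))
      _ (hL.dpos _) (hL.dpos _) (hL.dpos _) (hd _) (hd _) (hd _) (D1 x) one_pos g0 g3 rfl ?_ ?_ ?_ (star x).1
    · have e1 : ∀ y : ℝ, ∀ {q : ℝ}, q ≠ 0 → (y * q) ^ 2 / q = y ^ 2 * q := by
        intro y q hq; field_simp
      rw [e1 _ one_ne_zero, e1 _ g0.ne', e1 _ g3.ne'] at P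
      rw [hZ]
      exact P
    · have e := RL x
      have p0 : 0 < r x * Real.sin (d x) ^ 3 := mul_pos (S.rpos x) (pow_pos (spos x) 3)
      rw [e] at p0
      have p1 := (mul_pos_iff_of_pos_left hL0).1 p0
      linarith
    · have e := RL (f x)
      have p0 : 0 < r (f x) * Real.sin (d (f x)) ^ 3 := mul_pos (S.rpos _) (pow_pos (spos _) 3)
      rw [e] at p0
      have p1 := (mul_pos_iff_of_pos_left hL0).1 p0
      rw [show d (f (f (f x))) = d x by rw [hL.f3, hL.dper]] at p1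
      have p2 := mul_pos p1 g0
      have e2 : (1 - Real.sin (d (f x)) * Real.cos (d (f x)) * (Real.cos (d (f x)) / Real.sin (d (f x)) +
          Real.cos (d (f (f x))) / Real.sin (d (f (f x))) * g (f x) +
          Real.cos (d x) / Real.sin (d x) * (g (f (f x)) * g (f x)))) * g x =
          g x - Real.sin (d (f x)) * Real.cos (d (f x)) * (Real.cos (d x) / Real.sin (d x) * 1 +
          Real.cos (d (f x)) / Real.sin (d (f x)) * g x +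
          Real.cos (d (f (f x))) / Real.sin (d (f (f x))) * (g (f x) * g x)) := by
        linear_combination (-(Real.sin (d (f x)) * Real.cos (d (f x)) * (Real.cos (d x) / Real.sin (d x)))) * G1 x
      rw [e2] at p2
      linarith
    · have e := RL (f (f x))
      have p0 : 0 < r (f (f x)) * Real.sin (d (f (f x))) ^ 3 := mul_pos (S.rpos _) (pow_pos (spos _) 3)
      rw [e] at p0
      have p1 := (mul_pos_iff_of_pos_left hL0).1 p0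
      rw [show d (f (f (f x))) = d x by rw [hL.f3, hL.dper],
        show d (f (f (f (f x)))) = d (f x) by rw [hL.f3 x, hL.fper, hL.dper], gx3 x] at p1
      have p2 := mul_pos p1 g3
      have e2 : (1 - Real.sin (d (f (f x))) * Real.cos (d (f (f x))) * (Real.cos (d (f (f x))) / Real.sin (d (f (f x))) +
          Real.cos (d x) / Real.sin (d x) * g (f (f x)) +
          Real.cos (d (f x)) / Real.sin (d (f x)) * (g x * g (f (f x))))) * (g (f x) * g x) =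
          g (f x) * g x - Real.sin (d (f (f x))) * Real.cos (d (f (f x))) * (Real.cos (d x) / Real.sin (d x) * 1 +
          Real.cos (d (f x)) / Real.sin (d (f x)) * g x +
          Real.cos (d (f (f x))) / Real.sin (d (f (f x))) * (g (f x) * g x)) := by
        linear_combination (-(Real.sin (d (f (f x))) * Real.cos (d (f (f x))) * (Real.cos (d x) / Real.sin (d x) +
          Real.cos (d (f x)) / Real.sin (d (f x)) * g x))) * G1 x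
      rw [e2] at p2
      linarith
  have dF : ∀ x, HasDerivAt F (W x * 1 + W (f x) * g x + W (f (f x)) * (g (f x) * g x) - 2 * Z x) x := by
    intro x
    have f1 := (dA (dd1 x)).mul ((db1 x).mul ((dq1 x).sub ((hα x).const_mul 2)))
    have f2 := (dA (dd2 x)).mul ((db (df x)).mul ((dq (df x)).sub ((da2 x).const_mul 2)))
    have f3 := (dA (dd3 x)).mul ((db (dff x)).mul ((dq (dff x)).sub ((da3 x).const_mul 2)))
    have f4 := (((f1.add f2).add f3).const_mul 2).add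
      (((((hα x).mul (db1 x)).add ((da2 x).mul (db (df x)))).add ((da3 x).mul (db (dff x)))).const_mul (π / 6))
    have T := tri x
    have q3 : Real.sin (d (f (f x))) ^ 2 + Real.cos (d (f (f x))) ^ 2 = 1 := Real.sin_sq_add_cos_sq _
    have hAs : 8 * (AA (d x) + AA (d (f x)) + AA (d (f (f x)))) = π + 8 * ((Real.sin (d x) * Real.cos (d x)) *
        (Real.sin (d (f x)) * Real.cos (d (f x))) * (Real.sin (d (f (f x))) * Real.cos (d (f (f x))))) := by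
      have := sum_trig T.q₁ T.q₂ T.e₃ T.f₃
      have a1 := AA_eq (d x)
      have a2 := AA_eq (d (f x))
      have a3 := AA_eq (d (f (f x)))
      have a4 := D1 x
      linarith
    have A := alg (r₁ := r x) (r₂ := r (f x)) (r₃ := r (f (f x))) (A₁ := AA (d x)) (A₂ := AA (d (f x)))
      (A₃ := AA (d (f (f x)))) (α₂ := α₂ x) (α₃ := α₃ x) T.q₂ q3 (by rw [ha₂]) (hb2 x) (by rw [ha₃]) (hb3 x)
      (B2 x) (B3 x) (by rw [hα₂]) (by rw [hα₃]) hAs (star x).2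
    rw [hF]
    refine f4.congr_deriv ?_
    rw [hW, hZ]
    simp only [Psi3, BB_eq]
    simp only [Pi.mul_apply, Pi.sub_apply]
    linear_combination A
  -- continuity
  have c1 : Continuous a₁ := continuous_iff_continuousAt.2 fun x => (hα x).continuousAt
  have c2 : Continuous a₂ := continuous_iff_continuousAt.2 fun x => (da2 x).continuousAt
  have c3 : Continuous a₃ := continuous_iff_continuousAt.2 fun x => (da3 x).continuousAt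
  have gc := hL.gc
  have Ac := AA_cont
  have Bc := BB_cont
  have Wc : Continuous W := by
    rw [hW]
    unfold Psi3
    fun_prop
  have Zc : Continuous Z := by
    rw [hZ]
    fun_prop
  have Wper : ∀ x, W (x + 2 * π) = W x := by
    intro x
    rw [hW]
    simp only [S.hp, S.tp, S.rp, hL.dper]
  have Fper : F (2 * π) = F 0 := by
    have h1 : ∀ x, F (x + 2 * π) = F x := by
      intro x
      rw [hF, ha₃, ha₂, ha₁]
      simp only [S.hp, S.tp, hL.dper, hL.fper]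
    have := h1 0
    rwa [zero_add] at this
  have I0 : ∫ x in (0 : ℝ)..(2 * π), (W x * 1 + W (f x) * g x + W (f (f x)) * (g (f x) * g x) - 2 * Z x) = 0 := by
    rw [intervalIntegral.integral_eq_sub_of_hasDerivAt (fun x _ => dF x)
      (Continuous.intervalIntegrable (by fun_prop) _ _), Fper, sub_self]
  have I2 := subst_int Wc df gc Wper hL.fper
  have I3 := subst_int Wc dff ((gc.comp fc).mul gc) Wper f2per
  have i1 : IntervalIntegrable (fun x => W x * 1) volume 0 (2 * π) := Continuous.intervalIntegrable (by fun_prop) _ _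
  have i2 : IntervalIntegrable (fun x => W (f x) * g x) volume 0 (2 * π) :=
    Continuous.intervalIntegrable (by fun_prop) _ _
  have i3 : IntervalIntegrable (fun x => W (f (f x)) * (g (f x) * g x)) volume 0 (2 * π) :=
    Continuous.intervalIntegrable (by fun_prop) _ _
  have i4 : IntervalIntegrable (fun x => 2 * Z x) volume 0 (2 * π) := Continuous.intervalIntegrable (by fun_prop) _ _
  rw [intervalIntegral.integral_sub ((i1.add i2).add i3) i4, intervalIntegral.integral_add (i1.add i2) i3,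
    intervalIntegral.integral_add i1 i2] at I0
  have I1 : ∫ x in (0 : ℝ)..(2 * π), W x * 1 = ∫ x in (0 : ℝ)..(2 * π), W x := by simp
  have I4 : 0 ≤ ∫ x in (0 : ℝ)..(2 * π), 2 * Z x :=
    intervalIntegral.integral_nonneg (by positivity) fun x _ => by have := Z0 x; positivity
  have I5 : 0 ≤ ∫ x in (0 : ℝ)..(2 * π), W x := by linarith
  have i5 : IntervalIntegrable (fun x => -Psi3 (h x) (t x) (r x) (d x)) volume 0 (2 * π) :=
    Continuous.intervalIntegrable (by unfold Psi3; fun_prop) _ _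
  have i6 : IntervalIntegrable (fun x => π / 12 * ((t x ^ 2 + h x * (r x - h x)) ^ 2 - 4 * (h x * t x) ^ 2))
      volume 0 (2 * π) := Continuous.intervalIntegrable (by fun_prop) _ _
  rw [hW, intervalIntegral.integral_sub i5 i6, intervalIntegral.integral_neg, intervalIntegral.integral_const_mul] at I5
  linarith

end Pool.Agent.H97.IN
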