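import Pool.Agent.H97.IN.Stubs

/-! IN-KIN (by helper4): kinematics of 3-periodic triangles. -/

set_option autoImplicit false

open Set MeasureTheory Filter Topology
open scoped Real

namespace Pool.Agent.H97.IN

namespace Kin

variable {h t r d u f g : ℝ → ℝ}

theorem g_per (hl : Leaf3 h t r d u f g) (x : ℝ) : g (x + 2 * π) = g x := by
  have h1 : HasDerivAt (fun y => f (y + 2 * π)) (g (x + 2 * π)) x :=
    (hl.fd (x + 2 * π)).comp_add_const x (2 * π)
  have h2 : HasDerivAt (fun y => f y + 2 * π) (g x) x := (hl.fd x).add_const _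
  have h3 : (fun y => f (y + 2 * π)) = fun y => f y + 2 * π := funext hl.fper
  rw [h3] at h1
  exact h1.unique h2

theorem g_prod (hl : Leaf3 h t r d u f g) (x : ℝ) : g (f (f x)) * (g (f x) * g x) = 1 := by
  have h1 : HasDerivAt (fun y => f (f (f y))) (g (f (f x)) * (g (f x) * g x)) x :=
    (hl.fd (f (f x))).comp x ((hl.fd (f x)).comp x (hl.fd x))
  have h2 : HasDerivAt (fun y => y + 2 * π) 1 x := (hasDerivAt_id x).add_const _
  have h3 : (fun y => f (f (f y))) = fun y => y + 2 * π := funext hl.f3
  rw [h3] at h1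
  exact h1.unique h2

theorem d_sum (hl : Leaf3 h t r d u f g) (x : ℝ) : d x + d (f x) + d (f (f x)) = π := by
  have h1 := hl.fx x
  have h2 := hl.fx (f x)
  have h3 := hl.fx (f (f x))
  rw [hl.f3, hl.dper] at h3
  linarith

theorem T_eq (hl : Leaf3 h t r d u f g) (x : ℝ) : Real.sin (d x) * t x =
    h (f x) * Real.cos (d (f x)) - h (f (f x)) * Real.cos (d (f (f x))) := by
  have h1 := hl.line x
  have h2 := hl.line (f x)
  have h3 := hl.line (f (f x))
  rw [hl.f3, hl.dper, hl.supp.hp, hl.supp.tp] at h3
  linarith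

theorem u_eq (hl : Leaf3 h t r d u f g) (x : ℝ) : u x = g x - g (f x) * g x := by
  have h1 : ∀ y, d y = π - f (f y) + f y := fun y => by
    have h2 := hl.fx (f y)
    have h3 := d_sum hl y
    linarith
  have h2 : HasDerivAt (fun y => π - f (f y) + f y) (0 - g (f x) * g x + g x) x :=
    ((hasDerivAt_const x π).sub ((hl.fd (f x)).comp x (hl.fd x))).add (hl.fd x)
  have h3 : d = fun y => π - f (f y) + f y := funext h1
  have h4 := hl.dd x
  rw [h3] at h4
  have := h4.unique h2
  linarith

/-- half of the perimeter -/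
noncomputable def Lam (h d f : ℝ → ℝ) (x : ℝ) : ℝ := h x * Real.sin (d x) +
  h (f x) * Real.sin (d (f x)) + h (f (f x)) * Real.sin (d (f (f x)))

theorem Lam_deriv (hl : Leaf3 h t r d u f g) (x : ℝ) : HasDerivAt (Lam h d f) 0 x := by
  have hs := hl.supp
  have A : ∀ y, HasDerivAt (fun y => h y * Real.sin (d y))
      (t y * Real.sin (d y) + h y * (Real.cos (d y) * u y)) y := fun y =>
    (hs.dh y).mul ((hl.dd y).sin)
  have f2 : HasDerivAt (fun y => f (f y)) (g (f x) * g x) x := (hl.fd (f x)).comp x (hl.fd x)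
  have B := ((A x).add ((A (f x)).comp x (hl.fd x))).add ((A (f (f x))).comp x f2)
  have e : t x * Real.sin (d x) + h x * (Real.cos (d x) * u x) +
      (t (f x) * Real.sin (d (f x)) + h (f x) * (Real.cos (d (f x)) * u (f x))) * g x +
      (t (f (f x)) * Real.sin (d (f (f x))) + h (f (f x)) * (Real.cos (d (f (f x))) * u (f (f x)))) *
        (g (f x) * g x) = 0 := by
    have T1 := T_eq hl x
    have T2 := T_eq hl (f x)
    have T3 := T_eq hl (f (f x))
    rw [hl.f3, hs.hp, hl.dper] at T2 T3
    rw [hl.fper, hs.hp, hl.dper] at T3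
    have u1 := u_eq hl x
    have u2 := u_eq hl (f x)
    have u3 := u_eq hl (f (f x))
    rw [hl.f3, g_per hl] at u3
    have gp := g_prod hl x
    rw [u1, u2, u3]
    linear_combination T1 + g x * T2 + (g (f x) * g x) * T3 +
      (h (f (f x)) * Real.cos (d (f (f x))) - h (f x) * Real.cos (d (f x)) -
        h (f (f x)) * Real.cos (d (f (f x))) * g x + 0) * gp
  rw [← e]
  exact B

theorem Lam_const (hl : Leaf3 h t r d u f g) (x : ℝ) : Lam h d f x = Lam h d f 0 :=
  is_const_of_deriv_eq_zero (fun y => (Lam_deriv hl y).differentiableAt)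
    (fun y => (Lam_deriv hl y).deriv) x 0

/-- the derivative of `line` -/
theorem line_deriv (hl : Leaf3 h t r d u f g) (x : ℝ) :
    r x * Real.sin (d x) + r (f x) * Real.sin (d (f x)) * g x =
      (h x * Real.sin (d x) - t x * Real.cos (d x) + h (f x) * Real.sin (d (f x)) +
        t (f x) * Real.cos (d (f x))) * (1 + g x - g (f x) * g x) := by
  have hs := hl.supp
  have A : HasDerivAt (fun y => h y * Real.cos (d y) + t y * Real.sin (d y))
      ((t x * Real.cos (d x) + h x * (-Real.sin (d x) * u x)) +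
        ((r x - h x) * Real.sin (d x) + t x * (Real.cos (d x) * u x))) x :=
    ((hs.dh x).mul ((hl.dd x).cos)).add ((hs.dt x).mul ((hl.dd x).sin))
  have B : ∀ y, HasDerivAt (fun y => h y * Real.cos (d y) - t y * Real.sin (d y))
      ((t y * Real.cos (d y) + h y * (-Real.sin (d y) * u y)) -
        ((r y - h y) * Real.sin (d y) + t y * (Real.cos (d y) * u y))) y := fun y =>
    ((hs.dh y).mul ((hl.dd y).cos)).sub ((hs.dt y).mul ((hl.dd y).sin))
  have C := (B (f x)).comp x (hl.fd x)
  have hfun : (fun y => h y * Real.cos (d y) + t y * Real.sin (d y)) =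
      ((fun y => h y * Real.cos (d y) - t y * Real.sin (d y)) ∘ f) := funext hl.line
  rw [hfun] at A
  have e := A.unique C
  have u1 := u_eq hl x
  have u2 := u_eq hl (f x)
  have gp := g_prod hl x
  rw [u1, u2] at e
  linear_combination e + (h (f x) * Real.sin (d (f x)) + t (f x) * Real.cos (d (f x))) * gp

/-- relation for one side -/
theorem side (hl : Leaf3 h t r d u f g) (x : ℝ) :
    Real.sin (d x) * Real.sin (d (f x)) *
      (r x * Real.sin (d x) + r (f x) * Real.sin (d (f x)) * g x) =
    Real.cos (d (f (f x))) * Lam h d f 0 * (1 + g x - g (f x) * g x) := by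
  have hs := hl.supp
  rw [line_deriv hl x, ← Lam_const hl x]
  have T1 := T_eq hl x
  have T2 := T_eq hl (f x)
  rw [hl.f3, hs.hp, hl.dper] at T2
  have hd3 : d (f (f x)) = π - (d x + d (f x)) := by
    have := d_sum hl x; linarith
  have c3 : Real.cos (d (f (f x))) = Real.sin (d x) * Real.sin (d (f x)) -
      Real.cos (d x) * Real.cos (d (f x)) := by
    rw [hd3, Real.cos_pi_sub, Real.cos_add]; ring
  have s3 : Real.sin (d (f (f x))) = Real.sin (d x) * Real.cos (d (f x)) +
      Real.cos (d x) * Real.sin (d (f x)) := by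
    rw [hd3, Real.sin_pi_sub, Real.sin_add]
  have key : Real.sin (d x) * Real.sin (d (f x)) * (h x * Real.sin (d x) - t x * Real.cos (d x) +
      h (f x) * Real.sin (d (f x)) + t (f x) * Real.cos (d (f x))) =
      Real.cos (d (f (f x))) * Lam h d f x := by
    unfold Lam
    rw [s3]
    linear_combination (-Real.sin (d (f x)) * Real.cos (d x)) * T1 +
      (Real.sin (d x) * Real.cos (d (f x))) * T2 -
      (h x * Real.sin (d x) + h (f x) * Real.sin (d (f x))) * c3
  linear_combination (1 + g x - g (f x) * g x) * key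

end Kin

open Kin in
theorem kin : S_kin := by
  intro h t r d u f g hl
  have hs := hl.supp
  refine ⟨g_prod hl, d_sum hl, T_eq hl, u_eq hl, Lam h d f 0, ?_, Lam_const hl, ?_⟩
  · -- positivity
    have E1 := side hl 0
    have E2 := side hl (f 0)
    rw [hl.f3, hl.dper] at E2
    set x : ℝ := 0
    have s1 : 0 < Real.sin (d x) := Real.sin_pos_of_pos_of_lt_pi (hl.dpos x)
      (by have := hl.dlt x; have := Real.pi_pos; linarith)
    have s2 : 0 < Real.sin (d (f x)) := Real.sin_pos_of_pos_of_lt_pi (hl.dpos _)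
      (by have := hl.dlt (f x); have := Real.pi_pos; linarith)
    have s3 : 0 < Real.sin (d (f (f x))) := Real.sin_pos_of_pos_of_lt_pi (hl.dpos _)
      (by have := hl.dlt (f (f x)); have := Real.pi_pos; linarith)
    have c1 : 0 < Real.cos (d x) := Real.cos_pos_of_mem_Ioo
      ⟨by have := hl.dpos x; have := Real.pi_pos; linarith, hl.dlt x⟩
    have c3 : 0 < Real.cos (d (f (f x))) := Real.cos_pos_of_mem_Ioo
      ⟨by have := hl.dpos (f (f x)); have := Real.pi_pos; linarith, hl.dlt _⟩
    have r1 := hs.rpos x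
    have r2 := hs.rpos (f x)
    have r3 := hs.rpos (f (f x))
    have g1 := hl.gpos x
    have g2 := hl.gpos (f x)
    have P1 : 0 < Lam h d f x * (1 + g x - g (f x) * g x) := by
      have : 0 < Real.cos (d (f (f x))) * (Lam h d f x * (1 + g x - g (f x) * g x)) := by
        rw [← mul_assoc, ← E1]; positivity
      exact (mul_pos_iff_of_pos_left c3).1 this
    have P2 : 0 < Lam h d f x * (1 + g (f x) - g (f (f x)) * g (f x)) := by
      have : 0 < Real.cos (d x) * (Lam h d f x * (1 + g (f x) - g (f (f x)) * g (f x))) := by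
        rw [← mul_assoc, ← E2]; positivity
      exact (mul_pos_iff_of_pos_left c1).1 this
    have gp := g_prod hl x
    have P3 : 0 < Lam h d f x * (2 * g x) := by
      have h1 : Lam h d f x * (2 * g x) = Lam h d f x * (1 + g x - g (f x) * g x) +
          g x * (Lam h d f x * (1 + g (f x) - g (f (f x)) * g (f x))) := by
        linear_combination (Lam h d f x) * gp
      rw [h1]
      positivity
    exact (pos_iff_pos_of_mul_pos P3).2 (by positivity)
  · intro x
    have E1 := side hl x
    have E2 := side hl (f x)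
    have E3 := side hl (f (f x))
    rw [hl.f3, hl.dper] at E2 E3
    rw [hs.rp, hl.fper, hl.dper, g_per hl] at E3
    have gp := g_prod hl x
    have s1 : 0 < Real.sin (d x) := Real.sin_pos_of_pos_of_lt_pi (hl.dpos x)
      (by have := hl.dlt x; have := Real.pi_pos; linarith)
    have s2 : 0 < Real.sin (d (f x)) := Real.sin_pos_of_pos_of_lt_pi (hl.dpos _)
      (by have := hl.dlt (f x); have := Real.pi_pos; linarith)
    have s3 : 0 < Real.sin (d (f (f x))) := Real.sin_pos_of_pos_of_lt_pi (hl.dpos _)
      (by have := hl.dlt (f (f x)); have := Real.pi_pos; linarith)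
    have hd3 : d (f (f x)) = π - (d x + d (f x)) := by
      have := d_sum hl x; linarith
    have c3' : Real.cos (d (f (f x))) = Real.sin (d x) * Real.sin (d (f x)) -
        Real.cos (d x) * Real.cos (d (f x)) := by
      rw [hd3, Real.cos_pi_sub, Real.cos_add]; ring
    have s3' : Real.sin (d (f (f x))) = Real.sin (d x) * Real.cos (d (f x)) +
        Real.cos (d x) * Real.sin (d (f x)) := by
      rw [hd3, Real.sin_pi_sub, Real.sin_add]
    have q1 := Real.sin_sq_add_cos_sq (d x)
    have q2 := Real.sin_sq_add_cos_sq (d (f x))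
    generalize Lam h d f 0 = L at E1 E2 E3 ⊢
    generalize Real.sin (d x) = a1 at *
    generalize Real.sin (d (f x)) = a2 at *
    generalize Real.sin (d (f (f x))) = a3 at *
    generalize Real.cos (d x) = b1 at *
    generalize Real.cos (d (f x)) = b2 at *
    generalize Real.cos (d (f (f x))) = b3 at *
    have I1 : b1 * a1 + b2 * a2 + b3 * a3 = 2 * a1 * a2 * a3 := by
      rw [c3', s3']; linear_combination -(b1 * a1) * q2 - (b2 * a2) * q1
    have I2 : b3 * a3 - b2 * a2 - b1 * a1 = -2 * b1 * b2 * a3 := by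
      rw [c3', s3']; linear_combination (b1 * a1) * q2 + (b2 * a2) * q1
    have I3 : b2 * a2 - b3 * a3 - b1 * a1 = -2 * b1 * b3 * a2 := by
      rw [c3', s3']; linear_combination (b1 * a1) * q2 - (b2 * a2) * q1
    have main : r x * a1 ^ 2 * a2 * a3 =
        L * (a1 * a2 * a3 - b1 * b2 * a3 * g x - b1 * b3 * a2 * (g (f x) * g x)) := by
      linear_combination (1 / 2) * a3 * E1 + (1 / 2) * a2 * (g (f x) * g x) * E3 -
        (1 / 2) * a1 * g x * E2 + (1 / 2) * L * I1 + (1 / 2) * L * g x * I2 +
        (1 / 2) * L * (g (f x) * g x) * I3 +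
        (1 / 2) * (-(r x * a1 ^ 2 * a2 * a3) + b1 * a1 * L + a2 * b2 * L * (1 - g x)) * gp
    have h23 : a2 * a3 ≠ 0 := by positivity
    apply mul_left_cancel₀ h23
    have e : a2 * a3 * (L * (1 - a1 * b1 * (b1 / a1 + b2 / a2 * g x + b3 / a3 * (g (f x) * g x)))) =
        L * (a2 * a3 * (1 - b1 ^ 2) - a1 * b1 * b2 * a3 * g x -
          a1 * b1 * b3 * a2 * (g (f x) * g x)) := by
      field_simp
      ring
    rw [e]
    linear_combination a1 * main + L * a2 * a3 * q1

end Pool.Agent.H97.IN
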