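import Pool.Agent.H97.IN.Stubs2

/-!
# IN-LEAF: the equality case on the leaves
-/

set_option autoImplicit false

open Set MeasureTheory Filter Topology Complex
open scoped Real

namespace Pool.Agent.H97.IN

theorem leafeq : S_leafeq := by
  intro h t r σ u hs hpos hc hσ hd heq
  have key : ∀ c ∈ Ioo (0 : ℝ) 1, ∀ x, Real.sin (σ c x) * h 0 = Real.sin (σ c 0) * h x := by
    intro c hcm x
    have hF : ∀ x, HasDerivAt (fun x => Real.sin (σ c x) / h x) 0 x := by
      intro x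
      have h1 := ((hd c hcm.1 hcm.2.le x).sin).div (hs.dh x) (hpos x).ne'
      refine h1.congr_deriv ?_
      have h2 := heq c hcm x
      rw [div_eq_zero_iff]
      left
      linear_combination h2
    have h3 : (fun x => Real.sin (σ c x) / h x) x = (fun x => Real.sin (σ c x) / h x) 0 :=
      is_const_of_deriv_eq_zero (fun x => (hF x).differentiableAt) (fun x => (hF x).deriv) x 0
    have h4 : Real.sin (σ c x) / h x = Real.sin (σ c 0) / h 0 := h3
    rw [div_eq_div_iff (hpos x).ne' (hpos 0).ne'] at h4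
    exact h4
  have key2 : ∀ c, 0 < c → c ≤ 1 → ∀ x, Real.sin (σ c x) * h 0 = Real.sin (σ c 0) * h x := by
    intro c h0 h1 x
    rcases lt_or_eq_of_le h1 with h2 | h2
    · exact key c ⟨h0, h2⟩ x
    subst h2
    have hcx : ∀ x, Tendsto (fun c => σ c x) (𝓝[Ioo (0 : ℝ) 1] 1) (𝓝 (σ 1 x)) := by
      intro x
      have h3 : ContinuousWithinAt (fun x : ℝ × ℝ => σ x.1 x.2) (Icc 0 1 ×ˢ univ) (1, x) :=
        hc (1, x) ⟨⟨by norm_num, le_rfl⟩, mem_univ _⟩
      have h4 : Tendsto (fun c : ℝ => ((c, x) : ℝ × ℝ)) (𝓝[Ioo (0 : ℝ) 1] 1)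
          (𝓝[Icc 0 1 ×ˢ univ] ((1 : ℝ), x)) := by
        refine tendsto_nhdsWithin_iff.2 ⟨?_, ?_⟩
        · have : Continuous (fun c : ℝ => ((c, x) : ℝ × ℝ)) := by fun_prop
          exact (this.tendsto 1).mono_left nhdsWithin_le_nhds
        · filter_upwards [self_mem_nhdsWithin] with c hc'
          exact ⟨⟨hc'.1.le, hc'.2.le⟩, mem_univ _⟩
      exact Tendsto.comp h3 h4
    have hne : (𝓝[Ioo (0 : ℝ) 1] 1).NeBot := by
      rw [← mem_closure_iff_nhdsWithin_neBot, closure_Ioo (by norm_num)]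
      exact ⟨by norm_num, le_rfl⟩
    have e1 : Tendsto (fun c => Real.sin (σ c x) * h 0) (𝓝[Ioo (0 : ℝ) 1] 1)
        (𝓝 (Real.sin (σ 1 x) * h 0)) :=
      ((Real.continuous_sin.tendsto _).comp (hcx x)).mul_const _
    have e2 : Tendsto (fun c => Real.sin (σ c 0) * h x) (𝓝[Ioo (0 : ℝ) 1] 1)
        (𝓝 (Real.sin (σ 1 0) * h x)) :=
      ((Real.continuous_sin.tendsto _).comp (hcx 0)).mul_const _
    refine tendsto_nhds_unique e1 (e2.congr' ?_)
    filter_upwards [self_mem_nhdsWithin] with c hc'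
    exact (key c hc' x).symm
  intro c h0 h1
  have hpos0 := hσ c h0 h1 0
  refine ⟨Real.sin (σ c 0) / h 0, div_pos (Real.sin_pos_of_pos_of_lt_pi hpos0.1
    (by linarith [hpos0.2, Real.pi_pos])) (hpos 0), fun x => ?_⟩
  rw [div_mul_eq_mul_div, eq_div_iff (hpos 0).ne']
  exact key2 c h0 h1 x

end Pool.Agent.H97.IN
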