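import Pool.Agent.H97.IN.Stubs

set_option autoImplicit false

open Set Filter Topology MeasureTheory
open scoped Real

namespace Pool.Agent.H97.IN

theorem dAA (d : ℝ) : HasDerivAt AA (Real.sin d ^ 2 * Real.cos d ^ 2) d := by
  have hs := Real.hasDerivAt_sin d
  have hc := Real.hasDerivAt_cos d
  have h := ((hasDerivAt_id d).sub ((hs.mul hc).mul ((hc.pow 2).sub (hs.pow 2)))).div_const 8
  refine (h.congr_deriv ?_)
  simp only [Pi.mul_apply, Pi.sub_apply, Pi.pow_apply, Nat.cast_ofNat, Nat.reduceSub, pow_one]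
  have h1 := Real.sin_sq_add_cos_sq d
  have h2 : Real.sin d ^ 2 = 1 - Real.cos d ^ 2 := by linarith
  have h4 : Real.sin d ^ 4 = (1 - Real.cos d ^ 2) ^ 2 := by
    rw [← h2]; ring
  ring_nf
  rw [h4, h2]
  ring

theorem dBB (d : ℝ) : HasDerivAt BB (Real.sin d ^ 2) d := by
  have hs := Real.hasDerivAt_sin d
  have hc := Real.hasDerivAt_cos d
  have h := ((hasDerivAt_id d).sub (hs.mul hc)).div_const 2
  refine (h.congr_deriv ?_)
  have h1 := Real.sin_sq_add_cos_sq d
  have h2 : Real.cos d ^ 2 = 1 - Real.sin d ^ 2 := by linarith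
  ring_nf
  rw [h2]
  ring

theorem dPsi3 (h t r d : ℝ) : HasDerivAt (fun d => Psi3 h t r d) (QQ3 h t r d) d := by
  have hA := dAA d
  have hB := dBB d
  have e := (((hA.const_mul (h ^ 3)).add ((hB.sub (hA.const_mul 3)).const_mul
    (h * t ^ 2))).const_mul (2 * r)).sub (hA.const_mul (2 * r ^ 2 * h ^ 2))
  refine (e.congr_deriv ?_)
  unfold QQ3
  ring

theorem continuous_AA : Continuous AA :=
  continuous_iff_continuousAt.2 fun d => (dAA d).continuousAt

theorem continuous_BB : Continuous BB :=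
  continuous_iff_continuousAt.2 fun d => (dBB d).continuousAt

theorem continuousOn_Psi3 {X : Type*} [TopologicalSpace X] {S : Set X} {a b r s : X → ℝ}
    (ha : ContinuousOn a S) (hb : ContinuousOn b S) (hr : ContinuousOn r S)
    (hs : ContinuousOn s S) :
    ContinuousOn (fun x => Psi3 (a x) (b x) (r x) (s x)) S := by
  unfold Psi3
  have hA : ContinuousOn (fun x => AA (s x)) S := continuous_AA.comp_continuousOn hs
  have hB : ContinuousOn (fun x => BB (s x)) S := continuous_BB.comp_continuousOn hs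
  fun_prop

theorem continuousOn_QQ3 {X : Type*} [TopologicalSpace X] {S : Set X} {a b r s : X → ℝ}
    (ha : ContinuousOn a S) (hb : ContinuousOn b S) (hr : ContinuousOn r S)
    (hs : ContinuousOn s S) :
    ContinuousOn (fun x => QQ3 (a x) (b x) (r x) (s x)) S := by
  unfold QQ3
  fun_prop

theorem Psi3_zero (p q r : ℝ) : Psi3 p q r 0 = 0 := by
  unfold Psi3 AA BB
  simp

theorem mono3 : S_mono3 := by
  intro p q ρ σ v hS hσ hv hd hσ0 hint
  have hpc : Continuous p := continuous_iff_continuousAt.2 fun x => (hS.dh x).continuousAt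
  have hqc : Continuous q := continuous_iff_continuousAt.2 fun x => (hS.dt x).continuousAt
  have hrc := hS.cont
  set P : ℝ → ℝ → ℝ := fun c θ => Psi3 (p θ) (q θ) (ρ θ) (σ c θ) with hP
  set D : ℝ → ℝ → ℝ := fun c θ =>
    QQ3 (p θ) (q θ) (ρ θ) (σ c θ) * v c θ with hD
  have hPcont : ContinuousOn (fun x : ℝ × ℝ => P x.1 x.2) (Icc 0 1 ×ˢ univ) :=
    continuousOn_Psi3 (hpc.comp continuous_snd).continuousOn (hqc.comp continuous_snd).continuousOn
      (hrc.comp continuous_snd).continuousOn hσ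
  have hsub : (Ioo (0 : ℝ) 1 ×ˢ (univ : Set ℝ)) ⊆ Icc (0 : ℝ) 1 ×ˢ univ :=
    prod_mono Ioo_subset_Icc_self subset_rfl
  have hDcont : ContinuousOn (fun x : ℝ × ℝ => D x.1 x.2) (Ioo 0 1 ×ˢ univ) := by
    have hσ' := hσ.mono hsub
    exact (continuousOn_QQ3 (hpc.comp continuous_snd).continuousOn
      (hqc.comp continuous_snd).continuousOn
      (hrc.comp continuous_snd).continuousOn hσ').mul hv
  have hPd : ∀ c ∈ Ioo (0 : ℝ) 1, ∀ θ, HasDerivAt (fun c => P c θ) (D c θ) c := by
    intro c hc θ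
    exact (dPsi3 (p θ) (q θ) (ρ θ) (σ c θ)).comp c (hd c hc θ)
  -- slices
  have hPslice : ∀ c ∈ Icc (0 : ℝ) 1, Continuous (P c) := by
    intro c hc
    rw [← continuousOn_univ]
    exact hPcont.comp (f := fun θ : ℝ => (c, θ)) (by fun_prop) (fun θ _ => ⟨hc, mem_univ _⟩)
  have hDslice : ∀ c ∈ Ioo (0 : ℝ) 1, Continuous (D c) := by
    intro c hc
    rw [← continuousOn_univ]
    exact hDcont.comp (f := fun θ : ℝ => (c, θ)) (by fun_prop) (fun θ _ => ⟨hc, mem_univ _⟩)
  set G : ℝ → ℝ := fun c => ∫ θ in (0 : ℝ)..(2 * π), P c θ with hG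
  have hGcont : ContinuousOn G (Icc 0 1) := by
    set pr : ℝ → ℝ := fun c => max 0 (min 1 c) with hpr
    have hprmem : ∀ c, pr c ∈ Icc (0 : ℝ) 1 := fun c =>
      ⟨le_max_left _ _, max_le zero_le_one (min_le_left _ _)⟩
    have hc2 : Continuous (fun x : ℝ × ℝ => P (pr x.1) x.2) := by
      rw [← continuousOn_univ]
      refine hPcont.comp (f := fun x : ℝ × ℝ => (pr x.1, x.2)) (by fun_prop)
        (fun x _ => ⟨hprmem _, mem_univ _⟩)
    have hc3 : Continuous (fun c => ∫ θ in (0 : ℝ)..(2 * π), P (pr c) θ) :=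
      intervalIntegral.continuous_parametric_intervalIntegral_of_continuous' hc2 0 (2 * π)
    refine hc3.continuousOn.congr ?_
    intro c hc
    have : pr c = c := by
      simp only [hpr]
      rw [min_eq_right hc.2, max_eq_right hc.1]
    simp only [hG, this]
  have hGd : ∀ c ∈ Ioo (0 : ℝ) 1, HasDerivAt G (∫ θ in (0 : ℝ)..(2 * π), D c θ) c := by
    intro c hc
    obtain ⟨ε, hε, hball⟩ := Metric.isOpen_iff.1 isOpen_Ioo c hc
    have hcb : Metric.closedBall c (ε / 2) ⊆ Ioo 0 1 := fun x hx =>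
      hball (lt_of_le_of_lt (Metric.mem_closedBall.1 hx) (by linarith))
    have hcomp : IsCompact (Metric.closedBall c (ε / 2) ×ˢ Icc (0 : ℝ) (2 * π)) :=
      (isCompact_closedBall _ _).prod isCompact_Icc
    obtain ⟨K, hK⟩ := hcomp.exists_bound_of_continuousOn
      (hDcont.mono (prod_mono hcb (subset_univ _)))
    have h2pi : (0 : ℝ) ≤ 2 * π := by positivity
    have hmem : Metric.ball c (ε / 2) ∈ 𝓝 c := Metric.ball_mem_nhds _ (by linarith)
    refine (intervalIntegral.hasDerivAt_integral_of_dominated_loc_of_deriv_le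
      (μ := volume) (F := P) (F' := D) (bound := fun _ => K) (a := 0) (b := 2 * π)
      hmem ?_ ?_ ?_ ?_ ?_ ?_).2
    · filter_upwards [hmem] with x hx
      exact (hPslice x (Ioo_subset_Icc_self (hcb (Metric.ball_subset_closedBall hx)))).aestronglyMeasurable
    · exact (hPslice c (Ioo_subset_Icc_self hc)).intervalIntegrable _ _
    · exact (hDslice c hc).aestronglyMeasurable
    · refine Eventually.of_forall fun θ hθ x hx => ?_
      rw [uIoc_of_le h2pi] at hθ
      exact hK (x, θ) ⟨Metric.ball_subset_closedBall hx, ⟨hθ.1.le, hθ.2⟩⟩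
    · exact intervalIntegrable_const
    · refine Eventually.of_forall fun θ _ x hx => ?_
      exact hPd x (hcb (Metric.ball_subset_closedBall hx)) θ
  have hmono : MonotoneOn G (Icc 0 1) := by
    refine monotoneOn_of_deriv_nonneg (convex_Icc _ _) hGcont ?_ ?_
    · intro c hc
      rw [interior_Icc] at hc
      exact (hGd c hc).differentiableAt.differentiableWithinAt
    · intro c hc
      rw [interior_Icc] at hc
      rw [(hGd c hc).deriv]
      exact hint c hc
  have hG0 : G 0 = 0 := by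
    simp only [hG, hP, hσ0, Psi3_zero, intervalIntegral.integral_zero]
  have hG1 : 0 ≤ G 1 := by
    rw [← hG0]
    exact hmono (left_mem_Icc.2 zero_le_one) (right_mem_Icc.2 zero_le_one) zero_le_one
  refine ⟨hG1, fun hle c hc => ?_⟩
  have hle' : G 1 ≤ 0 := hle
  have hz : ∀ x ∈ Icc (0 : ℝ) 1, G x = 0 := by
    intro x hx
    apply le_antisymm
    · exact (hmono hx (right_mem_Icc.2 zero_le_one) hx.2).trans hle'
    · rw [← hG0]
      exact hmono (left_mem_Icc.2 zero_le_one) hx hx.1
  have hev : G =ᶠ[𝓝 c] fun _ => (0 : ℝ) := by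
    filter_upwards [isOpen_Ioo.mem_nhds hc] with x hx
    exact hz x (Ioo_subset_Icc_self hx)
  have h0 : HasDerivAt G 0 c := (hasDerivAt_const c (0 : ℝ)).congr_of_eventuallyEq hev
  exact (hGd c hc).unique h0

end Pool.Agent.H97.IN
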