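import Pool.Agent.H97.IN.Stubs

/-! # IN-POINT: the pointwise inequality (helper92) -/

set_option autoImplicit false

open Set MeasureTheory Filter Topology
open scoped Real

namespace Pool.Agent.H97.IN

namespace Point

lemma cs {n₂ n₃ v₂ v₃ A B : ℝ} (hA : 0 < A) (hB : 0 < B) :
    (n₂ * v₂ + n₃ * v₃) ^ 2 ≤ (n₂ ^ 2 * A + n₃ ^ 2 * B) * (v₂ ^ 2 / A + v₃ ^ 2 / B) := by
  have h : (n₂ ^ 2 * A + n₃ ^ 2 * B) * (v₂ ^ 2 / A + v₃ ^ 2 / B) - (n₂ * v₂ + n₃ * v₃) ^ 2 =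
      (n₂ * v₃ * A - n₃ * v₂ * B) ^ 2 / (A * B) := by
    field_simp
    ring
  have h2 : 0 ≤ (n₂ * v₃ * A - n₃ * v₂ * B) ^ 2 / (A * B) := by positivity
  linarith

lemma core {s₁ s₂ s₃ c₁ c₂ c₃ g₁ g₂ g₃ v₁ v₂ v₃ Γ a₁ α₂ α₃ : ℝ} (hs₁ : 0 < s₁) (hs₂ : 0 < s₂)
    (hs₃ : 0 < s₃) (hc₁ : 0 < c₁) (hc₂ : 0 < c₂) (hc₃ : 0 < c₃) (h1 : s₁ ^ 2 + c₁ ^ 2 = 1)
    (hg₁ : 0 < g₁) (hg₂ : 0 < g₂) (hg₃ : 0 < g₃) (ha : 0 < a₁) (hα₂ : 0 < α₂) (hα₃ : 0 < α₃)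
    (h2 : s₂ ^ 3 * c₂ * a₁ ≤ s₁ * c₁ ^ 3 * α₂) (h3 : s₃ ^ 3 * c₃ * a₁ ≤ s₁ * c₁ ^ 3 * α₃)
    (hΓ : Γ = c₁ / s₁ * g₁ + c₂ / s₂ * g₂ + c₃ / s₃ * g₃) (hn : s₁ * c₁ * Γ ≤ g₁)
    (hv : s₁ * c₁ * v₁ + s₂ * c₂ * v₂ + s₃ * c₃ * v₃ = 0) :
    0 ≤ -a₁ * (v₁ ^ 2 / g₁) + α₂ * (v₂ ^ 2 / g₂) + α₃ * (v₃ ^ 2 / g₃) := by
  set S := v₂ ^ 2 / (g₂ / α₂) + v₃ ^ 2 / (g₃ / α₃) with hS
  set Z := (s₂ * c₂) ^ 2 * (g₂ / α₂) + (s₃ * c₃) ^ 2 * (g₃ / α₃) with hZ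
  have hA : 0 < g₂ / α₂ := div_pos hg₂ hα₂
  have hB : 0 < g₃ / α₃ := div_pos hg₃ hα₃
  have hS0 : 0 ≤ S := by positivity
  have hcs := cs (n₂ := s₂ * c₂) (n₃ := s₃ * c₃) (v₂ := v₂) (v₃ := v₃) hA hB
  rw [← hS, ← hZ] at hcs
  -- `a₁ Z ≤ n₁² g₁`
  have e2 : a₁ * ((s₂ * c₂) ^ 2 * (g₂ / α₂)) ≤ s₁ * c₁ ^ 3 * (c₂ / s₂ * g₂) := by
    have e : a₁ * ((s₂ * c₂) ^ 2 * (g₂ / α₂)) = s₂ ^ 3 * c₂ * a₁ * (c₂ / s₂ * g₂ / α₂) := by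
      field_simp
    have e' : s₁ * c₁ ^ 3 * (c₂ / s₂ * g₂) = s₁ * c₁ ^ 3 * α₂ * (c₂ / s₂ * g₂ / α₂) := by
      field_simp
    rw [e, e']
    exact mul_le_mul_of_nonneg_right h2 (by positivity)
  have e3 : a₁ * ((s₃ * c₃) ^ 2 * (g₃ / α₃)) ≤ s₁ * c₁ ^ 3 * (c₃ / s₃ * g₃) := by
    have e : a₁ * ((s₃ * c₃) ^ 2 * (g₃ / α₃)) = s₃ ^ 3 * c₃ * a₁ * (c₃ / s₃ * g₃ / α₃) := by
      field_simp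
    have e' : s₁ * c₁ ^ 3 * (c₃ / s₃ * g₃) = s₁ * c₁ ^ 3 * α₃ * (c₃ / s₃ * g₃ / α₃) := by
      field_simp
    rw [e, e']
    exact mul_le_mul_of_nonneg_right h3 (by positivity)
  have e4 : c₁ ^ 2 * Γ ≤ c₁ / s₁ * g₁ := by
    have e : c₁ / s₁ * (s₁ * c₁ * Γ) = c₁ ^ 2 * Γ := by field_simp
    rw [← e]
    exact mul_le_mul_of_nonneg_left hn (by positivity)
  have e5 : c₂ / s₂ * g₂ + c₃ / s₃ * g₃ ≤ s₁ ^ 2 * Γ := by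
    have : s₁ ^ 2 * Γ = Γ - c₁ ^ 2 * Γ := by
      have : s₁ ^ 2 = 1 - c₁ ^ 2 := by linarith
      rw [this]
      ring
    linarith
  have e6 : a₁ * Z ≤ (s₁ * c₁) ^ 2 * g₁ := by
    calc a₁ * Z = a₁ * ((s₂ * c₂) ^ 2 * (g₂ / α₂)) + a₁ * ((s₃ * c₃) ^ 2 * (g₃ / α₃)) := by
          rw [hZ]
          ring
      _ ≤ s₁ * c₁ ^ 3 * (c₂ / s₂ * g₂) + s₁ * c₁ ^ 3 * (c₃ / s₃ * g₃) := add_le_add e2 e3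
      _ = s₁ * c₁ ^ 3 * (c₂ / s₂ * g₂ + c₃ / s₃ * g₃) := by ring
      _ ≤ s₁ * c₁ ^ 3 * (s₁ ^ 2 * Γ) := mul_le_mul_of_nonneg_left e5 (by positivity)
      _ = (s₁ * c₁) ^ 2 * (s₁ * c₁ * Γ) := by ring
      _ ≤ (s₁ * c₁) ^ 2 * g₁ := mul_le_mul_of_nonneg_left hn (by positivity)
  have e7 : (s₁ * c₁) ^ 2 * (a₁ * v₁ ^ 2) ≤ (s₁ * c₁) ^ 2 * (g₁ * S) := by
    have e : s₁ * c₁ * v₁ = -(s₂ * c₂ * v₂ + s₃ * c₃ * v₃) := by linarith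
    calc (s₁ * c₁) ^ 2 * (a₁ * v₁ ^ 2) = a₁ * (s₁ * c₁ * v₁) ^ 2 := by ring
      _ = a₁ * (s₂ * c₂ * v₂ + s₃ * c₃ * v₃) ^ 2 := by rw [e]; ring
      _ ≤ a₁ * (Z * S) := mul_le_mul_of_nonneg_left hcs ha.le
      _ = a₁ * Z * S := by ring
      _ ≤ (s₁ * c₁) ^ 2 * g₁ * S := mul_le_mul_of_nonneg_right e6 hS0
      _ = (s₁ * c₁) ^ 2 * (g₁ * S) := by ring
  have e8 : a₁ * v₁ ^ 2 ≤ g₁ * S := le_of_mul_le_mul_left e7 (by positivity)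
  have e9 : a₁ * (v₁ ^ 2 / g₁) ≤ S := by
    rw [← mul_div_assoc, div_le_iff₀ hg₁]
    linarith
  have e10 : S = α₂ * (v₂ ^ 2 / g₂) + α₃ * (v₃ ^ 2 / g₃) := by
    rw [hS]
    field_simp
  linarith

lemma sin_pos' {d : ℝ} (h0 : 0 < d) (h1 : d ≤ 3 * π / 8) : 0 < Real.sin d :=
  Real.sin_pos_of_pos_of_lt_pi h0 (by linarith [Real.pi_pos])

lemma cos_pos' {d : ℝ} (h0 : 0 < d) (h1 : d ≤ 3 * π / 8) : 0 < Real.cos d :=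
  Real.cos_pos_of_mem_Ioo ⟨by linarith [Real.pi_pos], by linarith [Real.pi_pos]⟩

lemma neg_case (h : S_trig) {d₁ d₂ d₃ g₁ g₂ g₃ v₁ v₂ v₃ Γ : ℝ} (hd₁ : 0 < d₁) (hd₂ : 0 < d₂)
    (hd₃ : 0 < d₃) (h1 : d₁ ≤ 3 * π / 8) (h2 : d₂ ≤ 3 * π / 8) (h3 : d₃ ≤ 3 * π / 8)
    (hsum : d₁ + d₂ + d₃ = π) (hg₁ : 0 < g₁) (hg₂ : 0 < g₂) (hg₃ : 0 < g₃)
    (hΓ : Γ = Real.cos d₁ / Real.sin d₁ * g₁ + Real.cos d₂ / Real.sin d₂ * g₂ +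
      Real.cos d₃ / Real.sin d₃ * g₃) (hn : Real.sin d₁ * Real.cos d₁ * Γ ≤ g₁)
    (hv : Real.sin d₁ * Real.cos d₁ * v₁ + Real.sin d₂ * Real.cos d₂ * v₂ +
      Real.sin d₃ * Real.cos d₃ * v₃ = 0) (hA : AA d₁ < π / 24) :
    0 ≤ (AA d₁ - π / 24) * (v₁ ^ 2 / g₁) + (AA d₂ - π / 24) * (v₂ ^ 2 / g₂) +
      (AA d₃ - π / 24) * (v₃ ^ 2 / g₃) := by
  obtain ⟨p2, q2⟩ := h d₁ d₂ hd₁ hd₂ h1 h2 (by linarith) hA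
  obtain ⟨p3, q3⟩ := h d₁ d₃ hd₁ hd₃ h1 h3 (by linarith) hA
  have := core (sin_pos' hd₁ h1) (sin_pos' hd₂ h2) (sin_pos' hd₃ h3) (cos_pos' hd₁ h1)
    (cos_pos' hd₂ h2) (cos_pos' hd₃ h3) (Real.sin_sq_add_cos_sq d₁) hg₁ hg₂ hg₃
    (sub_pos.2 hA) (sub_pos.2 p2) (sub_pos.2 p3) q2 q3 hΓ hn hv
  linarith

end Point

open Point in
theorem point (h : S_trig) : S_point := by
  intro d₁ d₂ d₃ g₁ g₂ g₃ v₁ v₂ v₃ Γ hd₁ hd₂ hd₃ h1 h2 h3 hsum hg₁ hg₂ hg₃ hΓ n1 n2 n3 hv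
  by_cases a1 : AA d₁ < π / 24
  · exact neg_case h hd₁ hd₂ hd₃ h1 h2 h3 hsum hg₁ hg₂ hg₃ hΓ n1 hv a1
  by_cases a2 : AA d₂ < π / 24
  · have := neg_case h (v₁ := v₂) (v₂ := v₁) (v₃ := v₃) hd₂ hd₁ hd₃ h2 h1 h3 (by linarith) hg₂
      hg₁ hg₃ (by rw [hΓ]; ring) n2 (by linarith) a2
    linarith
  by_cases a3 : AA d₃ < π / 24
  · have := neg_case h (v₁ := v₃) (v₂ := v₁) (v₃ := v₂) hd₃ hd₁ hd₂ h3 h1 h2 (by linarith) hg₃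
      hg₁ hg₂ (by rw [hΓ]; ring) n3 (by linarith) a3
    linarith
  have b1 : 0 ≤ AA d₁ - π / 24 := sub_nonneg.2 (not_lt.1 a1)
  have b2 : 0 ≤ AA d₂ - π / 24 := sub_nonneg.2 (not_lt.1 a2)
  have b3 : 0 ≤ AA d₃ - π / 24 := sub_nonneg.2 (not_lt.1 a3)
  positivity

end Pool.Agent.H97.IN
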