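import Pool.Agent.H97.IN.Stubs2

/-!
# IN-SIG: the polar description of the collar
-/

set_option autoImplicit false

open Set MeasureTheory Filter Topology Complex
open scoped Real

namespace Pool.Agent.H97.IN

open Pool.Agent.H97.OB Pool.Agent.H97.OC

namespace Sig

/-- The data provided by S_table and S_rad. -/
structure Dat (γ : ℝ → ℂ) (ρ : ℝ → ℝ) (Y : ℂ → ℝ) (h t r ϑ ϑ' : ℝ → ℝ)
    (G G1 G2 : ℝ → ℝ → ℝ) : Prop where
  sit : Sit γ ρ Y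
  ang : ∀ θ, SigmaAngular γ Y θ
  supp : Supp3 h t r
  hpos : ∀ x, 0 < h x
  tc : Continuous ϑ'
  tpos : ∀ x, 0 < ϑ' x
  td : ∀ x, HasDerivAt ϑ (ϑ' x) x
  tper : ∀ x, ϑ (x + 2 * π) = ϑ x + 2 * π
  inv1 : ∀ x, ϑ x + Real.arctan (sq γ (ϑ x) / sp γ (ϑ x)) = x
  inv2 : ∀ θ, ϑ (θ + Real.arctan (sq γ θ / sp γ θ)) = θ
  base : ∀ z, z ∈ range γ ↔ ∃ x : ℝ, z = exp (x * I) / (h x : ℂ)
  pol : ∀ x s δ : ℝ, δ = ϑ x + Real.arctan ((sq γ (ϑ x) + s) / sp γ (ϑ x)) - x →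
      0 < h x * Real.cos δ + t x * Real.sin δ ∧
      P γ (ϑ x) s = exp (((x + δ : ℝ) : ℂ) * I) /
        ((h x * Real.cos δ + t x * Real.sin δ : ℝ) : ℂ)
  leaf : ∀ c, 0 < c → c ≤ 1 → ∀ z, Y z = c ↔ ∃ φ : ℝ, z = exp (φ * I) / (G c φ : ℂ)
  Gpos : ∀ c, 0 < c → c ≤ 1 → ∀ φ, 0 < G c φ
  Gun : ∀ c, 0 < c → c ≤ 1 → ∀ φ s : ℝ, 0 < s → Y (exp (φ * I) / (s : ℂ)) = c → s = G c φ
  Gper : ∀ c, 0 < c → c ≤ 1 → ∀ φ, G c (φ + 2 * π) = G c φ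
  G2per : ∀ c, 0 < c → c ≤ 1 → ∀ φ, G2 c (φ + 2 * π) = G2 c φ
  Gd : ∀ c, 0 < c → c ≤ 1 → ∀ φ, HasDerivAt (G c) (G1 c φ) φ
  G1c : ∀ c, 0 < c → c ≤ 1 → Continuous (G1 c)
  G2c : ∀ c, 0 < c → c ≤ 1 → Continuous (G2 c)
  G2pos : ∀ c, 0 < c → c ≤ 1 → ∀ φ, 0 < G2 c φ
  Gf : ∀ c, 0 < c → c < 1 → ∀ φ, HasFDerivAt (fun q : ℝ × ℝ => G q.1 q.2)
      (-(G2 c φ) • ContinuousLinearMap.fst ℝ ℝ ℝ + G1 c φ • ContinuousLinearMap.snd ℝ ℝ ℝ) (c, φ)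

/-- the angle of the forward point of the leaf -/
noncomputable def sig (γ : ℝ → ℂ) (Y : ℂ → ℝ) (ϑ : ℝ → ℝ) (c x : ℝ) : ℝ :=
  ϑ x + Real.arctan ((sq γ (ϑ x) + Sit.sg γ Y c (ϑ x)) / sp γ (ϑ x)) - x

variable {γ : ℝ → ℂ} {ρ : ℝ → ℝ} {Y : ℂ → ℝ} {h t r ϑ ϑ' : ℝ → ℝ} {G G1 G2 : ℝ → ℝ → ℝ}

namespace Dat

lemma ppos (D : Dat γ ρ Y h t r ϑ ϑ' G G1 G2) (θ : ℝ) : 0 < sp γ θ := D.sit.org θ

/-- angle of the point with parameter `s` -/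
lemma dl_eq (D : Dat γ ρ Y h t r ϑ ϑ' G G1 G2) (x s : ℝ) :
    ϑ x + Real.arctan ((sq γ (ϑ x) + s) / sp γ (ϑ x)) - x =
      Real.arctan ((sq γ (ϑ x) + s) / sp γ (ϑ x)) -
        Real.arctan (sq γ (ϑ x) / sp γ (ϑ x)) := by
  have := D.inv1 x
  linarith

lemma dl_pos (D : Dat γ ρ Y h t r ϑ ϑ' G G1 G2) (x : ℝ) {s : ℝ} (hs : 0 < s) :
    0 < ϑ x + Real.arctan ((sq γ (ϑ x) + s) / sp γ (ϑ x)) - x := by
  rw [D.dl_eq, sub_pos]
  apply Real.arctan_strictMono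
  have := D.ppos (ϑ x)
  gcongr
  linarith

lemma dl_neg (D : Dat γ ρ Y h t r ϑ ϑ' G G1 G2) (x : ℝ) {s : ℝ} (hs : s < 0) :
    ϑ x + Real.arctan ((sq γ (ϑ x) + s) / sp γ (ϑ x)) - x < 0 := by
  rw [D.dl_eq, sub_neg]
  apply Real.arctan_strictMono
  have := D.ppos (ϑ x)
  gcongr
  linarith

lemma dl_abs (D : Dat γ ρ Y h t r ϑ ϑ' G G1 G2) (x s : ℝ) :
    |ϑ x + Real.arctan ((sq γ (ϑ x) + s) / sp γ (ϑ x)) - x| < π := by
  rw [D.dl_eq, abs_lt]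
  have h1 := Real.arctan_lt_pi_div_two ((sq γ (ϑ x) + s) / sp γ (ϑ x))
  have h2 := Real.arctan_lt_pi_div_two (sq γ (ϑ x) / sp γ (ϑ x))
  have h3 := Real.neg_pi_div_two_lt_arctan ((sq γ (ϑ x) + s) / sp γ (ϑ x))
  have h4 := Real.neg_pi_div_two_lt_arctan (sq γ (ϑ x) / sp γ (ϑ x))
  constructor <;> linarith

lemma gam_pol (D : Dat γ ρ Y h t r ϑ ϑ' G G1 G2) (x : ℝ) :
    γ (ϑ x) = exp (x * I) / (h x : ℂ) := by
  have h1 := (D.pol x 0 0 (by rw [add_zero]; have := D.inv1 x; linarith)).2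
  rw [P_zero] at h1
  rw [h1]
  simp

/-- the angle under which a segment of the tangent line appears from the origin -/
lemma angle_pol (D : Dat γ ρ Y h t r ϑ ϑ' G G1 G2) (x s : ℝ) :
    InnerProductGeometry.angle (γ (ϑ x)) (γ (ϑ x) + s * tang (ϑ x)) =
      |ϑ x + Real.arctan ((sq γ (ϑ x) + s) / sp γ (ϑ x)) - x| := by
  have hP : γ (ϑ x) + s * tang (ϑ x) = P γ (ϑ x) s := rfl
  set δ := ϑ x + Real.arctan ((sq γ (ϑ x) + s) / sp γ (ϑ x)) - x with hδ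
  obtain ⟨h1, h2⟩ := D.pol x s δ rfl
  have h3 := D.hpos x
  have h4 := abs_lt.1 (D.dl_abs x s)
  rw [← hδ] at h4
  set k := h x * Real.cos δ + t x * Real.sin δ with hk
  have hkc : (k : ℂ) ≠ 0 := by exact_mod_cast h1.ne'
  have hhc : (h x : ℂ) ≠ 0 := by exact_mod_cast h3.ne'
  rw [hP, h2, D.gam_pol x, angle_eq_abs_arg]
  · have e1 : exp (x * I) / (h x : ℂ) / (exp (((x + δ : ℝ) : ℂ) * I) / (k : ℂ)) =
        ((k / h x : ℝ) : ℂ) * (Complex.cos ((-δ : ℝ) : ℂ) + Complex.sin ((-δ : ℝ) : ℂ) * I) := by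
      rw [← exp_mul_I]
      have e2 : exp (x * I) = exp (((x + δ : ℝ) : ℂ) * I) * exp (((-δ : ℝ) : ℂ) * I) := by
        rw [← exp_add]; congr 1; push_cast; ring
      rw [e2]
      have := exp_ne_zero (((x + δ : ℝ) : ℂ) * I)
      push_cast
      push_cast at this
      field_simp
    rw [e1, arg_mul_cos_add_sin_mul_I (div_pos h1 h3) ⟨by linarith [h4.2], by linarith [h4.1]⟩,
      abs_neg]
  · exact div_ne_zero (exp_ne_zero _) hhc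
  · exact div_ne_zero (exp_ne_zero _) hkc

/-- forward point -/
lemma sig_eq {c : ℝ} (h0 : 0 < c) (x : ℝ) : sig γ Y ϑ c x =
    ϑ x + Real.arctan ((sq γ (ϑ x) + S γ Y c (ϑ x)) / sp γ (ϑ x)) - x := by
  unfold sig; rw [Sit.sg_pos' h0]

/-- the backward point of the leaf -/
lemma back (D : Dat γ ρ Y h t r ϑ ϑ' G G1 G2) {c : ℝ} (h0 : 0 < c) (h1 : c ≤ 1) (x s : ℝ)
    (hs : s < 0) (hY : Y (P γ (ϑ x) s) = c) :
    ϑ x + Real.arctan ((sq γ (ϑ x) + s) / sp γ (ϑ x)) - x = -sig γ Y ϑ c x := by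
  obtain ⟨h2, h3⟩ := D.sit.S_spec h0 h1 (ϑ x)
  have h4 := D.ang (ϑ x) s (S γ Y c (ϑ x)) hs h2
    (by
      have e1 : γ (ϑ x) + s * tang (ϑ x) = P γ (ϑ x) s := rfl
      have e2 : γ (ϑ x) + S γ Y c (ϑ x) * tang (ϑ x) = P γ (ϑ x) (S γ Y c (ϑ x)) := rfl
      rw [e1, e2, hY, h3])
    (by
      have e2 : γ (ϑ x) + S γ Y c (ϑ x) * tang (ϑ x) = P γ (ϑ x) (S γ Y c (ϑ x)) := rfl
      rw [e2, h3]; exact h1)
  rw [D.angle_pol, D.angle_pol, abs_of_neg (D.dl_neg x hs), abs_of_pos (D.dl_pos x h2)] at h4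
  rw [sig_eq h0]
  linarith

lemma exists_back (D : Dat γ ρ Y h t r ϑ ϑ' G G1 G2) {c : ℝ} (h0 : 0 < c) (h1 : c ≤ 1) (θ : ℝ) :
    ∃ s, s < 0 ∧ Y (P γ θ s) = c := by
  obtain ⟨τ, hτ, hY⟩ := D.sit.exists_on_path (A := fun s => P γ θ (-s)) (c₀ := 0) (c := c)
    ((P_continuous D.sit.oval).comp (by fun_prop : Continuous fun s : ℝ => ((θ, -s) : ℝ × ℝ)))
    (by simp only [neg_zero, P_zero]; exact (D.sit.Y_gam θ).le) le_rfl h0 h1 (by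
      intro M
      refine ⟨|sq γ θ| + |M| + 1, fun τ hτ => ?_⟩
      have h2 := norm_P_sq γ θ (-τ)
      have h3 : |M| < τ - sq γ θ := by
        have := le_abs_self (sq γ θ)
        linarith
      have h4 : |M| ^ 2 < ‖P γ θ (-τ)‖ ^ 2 := by
        rw [h2]
        have := D.sit.supp.ppos θ
        nlinarith [abs_nonneg M]
      have h5 := lt_of_pow_lt_pow_left₀ 2 (norm_nonneg _) h4
      exact lt_of_le_of_lt (le_abs_self M) h5)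
  exact ⟨-τ, by linarith, hY⟩

lemma sig_pos (D : Dat γ ρ Y h t r ϑ ϑ' G G1 G2) {c : ℝ} (h0 : 0 < c) (h1 : c ≤ 1) (x : ℝ) :
    0 < sig γ Y ϑ c x := by
  rw [sig_eq h0]
  exact D.dl_pos x (D.sit.S_spec h0 h1 (ϑ x)).1

lemma sig_lt (D : Dat γ ρ Y h t r ϑ ϑ' G G1 G2) {c : ℝ} (h0 : 0 < c) (h1 : c ≤ 1) (x : ℝ) :
    sig γ Y ϑ c x < π / 2 := by
  obtain ⟨s, hs, hY⟩ := D.exists_back h0 h1 (ϑ x)
  have h2 := D.back h0 h1 x s hs hY
  have h3 := sig_eq (γ := γ) (Y := Y) (ϑ := ϑ) h0 x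
  have h4 := Real.arctan_lt_pi_div_two ((sq γ (ϑ x) + S γ Y c (ϑ x)) / sp γ (ϑ x))
  have h5 := Real.neg_pi_div_two_lt_arctan ((sq γ (ϑ x) + s) / sp γ (ϑ x))
  linarith

lemma sig_zero (D : Dat γ ρ Y h t r ϑ ϑ' G G1 G2) (x : ℝ) : sig γ Y ϑ 0 x = 0 := by
  unfold sig
  have : Sit.sg γ Y 0 (ϑ x) = 0 := by unfold Sit.sg; simp
  rw [this, add_zero, D.inv1]; ring

lemma sp_per (D : Dat γ ρ Y h t r ϑ ϑ' G G1 G2) (θ : ℝ) : sp γ (θ + 2 * π) = sp γ θ :=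
  D.sit.supp.pp θ

lemma P_per (D : Dat γ ρ Y h t r ϑ ϑ' G G1 G2) (θ s : ℝ) : P γ (θ + 2 * π) s = P γ θ s := by
  unfold P
  rw [D.sit.oval.per, tang_two_pi]

lemma sig_per (D : Dat γ ρ Y h t r ϑ ϑ' G G1 G2) {c : ℝ} (h0 : 0 < c) (h1 : c ≤ 1) (x : ℝ) :
    sig γ Y ϑ c (x + 2 * π) = sig γ Y ϑ c x := by
  have e1 : S γ Y c (ϑ x + 2 * π) = S γ Y c (ϑ x) := by
    obtain ⟨h2, h3⟩ := D.sit.S_spec h0 h1 (ϑ x + 2 * π)
    rw [D.P_per] at h3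
    exact D.sit.S_unique h0 h1 h2 h3
  rw [sig_eq h0, sig_eq h0, D.tper, e1, D.sit.supp.pp, D.sit.supp.qp]
  ring

lemma theta_cont (D : Dat γ ρ Y h t r ϑ ϑ' G G1 G2) : Continuous ϑ :=
  continuous_iff_continuousAt.2 fun x => (D.td x).continuousAt

lemma sp_cont (D : Dat γ ρ Y h t r ϑ ϑ' G G1 G2) : Continuous (sp γ) :=
  continuous_iff_continuousAt.2 fun x => (D.sit.supp.dp x).continuousAt

lemma sq_cont (D : Dat γ ρ Y h t r ϑ ϑ' G G1 G2) : Continuous (sq γ) :=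
  continuous_iff_continuousAt.2 fun x => (D.sit.supp.dq x).continuousAt

lemma sig_cont (D : Dat γ ρ Y h t r ϑ ϑ' G G1 G2) :
    ContinuousOn (fun x : ℝ × ℝ => sig γ Y ϑ x.1 x.2) (Icc 0 1 ×ˢ univ) := by
  have h1 := D.theta_cont
  have h2 := D.sp_cont
  have h3 := D.sq_cont
  have h4 : ContinuousOn (fun x : ℝ × ℝ => Sit.sg γ Y x.1 (ϑ x.2)) (Icc 0 1 ×ˢ univ) := by
    have e : ContinuousOn (fun x : ℝ × ℝ => ((x.1, ϑ x.2) : ℝ × ℝ)) (Icc 0 1 ×ˢ univ) := by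
      fun_prop
    exact D.sit.sg_continuousOn.comp e (fun x hx => ⟨hx.1, mem_univ _⟩)
  have h5 : ContinuousOn (fun x : ℝ × ℝ => (sq γ (ϑ x.2) + Sit.sg γ Y x.1 (ϑ x.2)) /
      sp γ (ϑ x.2)) (Icc 0 1 ×ˢ univ) := by
    refine ContinuousOn.div (ContinuousOn.add (by fun_prop) h4) (by fun_prop) ?_
    intro x _
    exact (D.ppos _).ne'
  unfold sig
  exact (ContinuousOn.add (by fun_prop) (Real.continuous_arctan.comp_continuousOn h5)).sub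
    (by fun_prop)

/-- derivative in `x` -/
lemma sig_diff (D : Dat γ ρ Y h t r ϑ ϑ' G G1 G2) {c : ℝ} (h0 : 0 < c) (h1 : c ≤ 1) (x : ℝ) :
    HasDerivAt (sig γ Y ϑ c) (deriv (sig γ Y ϑ c) x) x := by
  apply DifferentiableAt.hasDerivAt
  have e : sig γ Y ϑ c = fun x =>
      ϑ x + Real.arctan ((sq γ (ϑ x) + S γ Y c (ϑ x)) / sp γ (ϑ x)) - x :=
    funext fun x => sig_eq h0 x
  rw [e]
  have a1 : DifferentiableAt ℝ ϑ x := (D.td x).differentiableAt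
  have a2 : DifferentiableAt ℝ (fun x => sq γ (ϑ x)) x :=
    DifferentiableAt.comp (g := sq γ) x (D.sit.supp.dq (ϑ x)).differentiableAt a1
  have a3 : DifferentiableAt ℝ (fun x => sp γ (ϑ x)) x :=
    DifferentiableAt.comp (g := sp γ) x (D.sit.supp.dp (ϑ x)).differentiableAt a1
  have a4 : DifferentiableAt ℝ (fun x => S γ Y c (ϑ x)) x :=
    DifferentiableAt.comp (g := fun θ => S γ Y c θ) x
      (D.sit.S_deriv_right h0 h1 (ϑ x)).differentiableAt a1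
  have a5 : DifferentiableAt ℝ (fun x => (sq γ (ϑ x) + S γ Y c (ϑ x)) / sp γ (ϑ x)) x :=
    (a2.add a4).div a3 (D.ppos _).ne'
  exact (a1.add a5.arctan).sub differentiableAt_id

/-- derivative in `c` -/
noncomputable def vv (γ : ℝ → ℂ) (Y : ℂ → ℝ) (ϑ : ℝ → ℝ) (c x : ℝ) : ℝ :=
  1 / (1 + ((sq γ (ϑ x) + S γ Y c (ϑ x)) / sp γ (ϑ x)) ^ 2) *
    (1 / fderiv ℝ Y (Sit.Z γ Y c (ϑ x)) (tang (ϑ x)) / sp γ (ϑ x))

lemma sig_diff_c (D : Dat γ ρ Y h t r ϑ ϑ' G G1 G2) {c : ℝ} (h0 : 0 < c) (h1 : c < 1) (x : ℝ) :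
    HasDerivAt (fun c => sig γ Y ϑ c x) (vv γ Y ϑ c x) c := by
  have e : (fun c => sig γ Y ϑ c x) =ᶠ[𝓝 c] fun c =>
      ϑ x + Real.arctan ((sq γ (ϑ x) + S γ Y c (ϑ x)) / sp γ (ϑ x)) - x := by
    filter_upwards [lt_mem_nhds h0] with c' hc'
    exact sig_eq hc' x
  refine HasDerivAt.congr_of_eventuallyEq ?_ e
  have a1 := D.sit.S_deriv_left h0 h1 (ϑ x)
  have a2 := ((a1.const_add (sq γ (ϑ x))).div_const (sp γ (ϑ x))).arctan
  exact (a2.const_add (ϑ x)).sub_const x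

lemma vv_cont (D : Dat γ ρ Y h t r ϑ ϑ' G G1 G2) :
    ContinuousOn (fun x : ℝ × ℝ => vv γ Y ϑ x.1 x.2) (Ioo 0 1 ×ˢ univ) := by
  have h1 := D.theta_cont
  have h2 := D.sp_cont
  have h3 := D.sq_cont
  have e : ContinuousOn (fun x : ℝ × ℝ => ((x.1, ϑ x.2) : ℝ × ℝ)) (Ioo 0 1 ×ˢ univ) := by
    fun_prop
  have hm : MapsTo (fun x : ℝ × ℝ => ((x.1, ϑ x.2) : ℝ × ℝ)) (Ioo 0 1 ×ˢ univ)
      (Ioc 0 1 ×ˢ univ) := fun x hx => ⟨⟨hx.1.1, hx.1.2.le⟩, mem_univ _⟩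
  have h4 : ContinuousOn (fun x : ℝ × ℝ => S γ Y x.1 (ϑ x.2)) (Ioo 0 1 ×ˢ univ) :=
    D.sit.S_continuousOn.comp e hm
  have h5 : ContinuousOn (fun x : ℝ × ℝ =>
      1 / fderiv ℝ Y (Sit.Z γ Y x.1 (ϑ x.2)) (tang (ϑ x.2))) (Ioo 0 1 ×ˢ univ) :=
    D.sit.Sc_continuousOn.comp e hm
  have h6 : ContinuousOn (fun x : ℝ × ℝ => (sq γ (ϑ x.2) + S γ Y x.1 (ϑ x.2)) /
      sp γ (ϑ x.2)) (Ioo 0 1 ×ˢ univ) := by
    refine ContinuousOn.div (ContinuousOn.add (by fun_prop) h4) (by fun_prop) ?_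
    intro x _
    exact (D.ppos _).ne'
  unfold vv
  refine ContinuousOn.mul ?_ ?_
  · refine ContinuousOn.div continuousOn_const (continuousOn_const.add (h6.pow 2)) ?_
    intro x _
    positivity
  · refine ContinuousOn.div h5 (by fun_prop) ?_
    intro x _
    exact (D.ppos _).ne'

lemma plus (D : Dat γ ρ Y h t r ϑ ϑ' G G1 G2) {c : ℝ} (h0 : 0 < c) (h1 : c ≤ 1) (x : ℝ) :
    G c (x + sig γ Y ϑ c x) = h x * Real.cos (sig γ Y ϑ c x) + t x * Real.sin (sig γ Y ϑ c x) := by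
  obtain ⟨h2, h3⟩ := D.pol x (S γ Y c (ϑ x)) (sig γ Y ϑ c x) (sig_eq h0 x)
  have h4 := (D.sit.S_spec h0 h1 (ϑ x)).2
  rw [h3] at h4
  exact (D.Gun c h0 h1 _ _ h2 h4).symm

lemma minus (D : Dat γ ρ Y h t r ϑ ϑ' G G1 G2) {c : ℝ} (h0 : 0 < c) (h1 : c ≤ 1) (x : ℝ) :
    G c (x - sig γ Y ϑ c x) = h x * Real.cos (sig γ Y ϑ c x) - t x * Real.sin (sig γ Y ϑ c x) := by
  obtain ⟨s, hs, hY⟩ := D.exists_back h0 h1 (ϑ x)
  obtain ⟨h2, h3⟩ := D.pol x s (-sig γ Y ϑ c x) (D.back h0 h1 x s hs hY).symm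
  rw [h3] at hY
  have := (D.Gun c h0 h1 _ _ h2 hY).symm
  rw [Real.cos_neg, Real.sin_neg] at this
  rw [sub_eq_add_neg, this]; ring

/-- the derivative of `plus` -/
lemma dplus (D : Dat γ ρ Y h t r ϑ ϑ' G G1 G2) {c : ℝ} (h0 : 0 < c) (h1 : c ≤ 1) (x : ℝ) :
    (G1 c (x + sig γ Y ϑ c x) + h x * Real.sin (sig γ Y ϑ c x) -
      t x * Real.cos (sig γ Y ϑ c x)) * (1 + deriv (sig γ Y ϑ c) x) =
      r x * Real.sin (sig γ Y ϑ c x) := by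
  have hσ := D.sig_diff h0 h1 x
  have a1 : HasDerivAt (fun x => G c (x + sig γ Y ϑ c x))
      (G1 c (x + sig γ Y ϑ c x) * (1 + deriv (sig γ Y ϑ c) x)) x :=
    HasDerivAt.comp (h₂ := G c) x (D.Gd c h0 h1 _) ((hasDerivAt_id x).add hσ)
  have a2 : HasDerivAt (fun x => h x * Real.cos (sig γ Y ϑ c x) +
      t x * Real.sin (sig γ Y ϑ c x)) _ x :=
    ((D.supp.dh x).mul hσ.cos).add ((D.supp.dt x).mul hσ.sin)
  have a3 : (fun x => G c (x + sig γ Y ϑ c x)) = fun x => h x * Real.cos (sig γ Y ϑ c x) +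
      t x * Real.sin (sig γ Y ϑ c x) := funext fun x => D.plus h0 h1 x
  rw [a3] at a1
  have := a1.unique a2
  linear_combination this

/-- the derivative of `minus` -/
lemma dminus (D : Dat γ ρ Y h t r ϑ ϑ' G G1 G2) {c : ℝ} (h0 : 0 < c) (h1 : c ≤ 1) (x : ℝ) :
    (-G1 c (x - sig γ Y ϑ c x) + h x * Real.sin (sig γ Y ϑ c x) +
      t x * Real.cos (sig γ Y ϑ c x)) * (1 - deriv (sig γ Y ϑ c) x) =
      r x * Real.sin (sig γ Y ϑ c x) := by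
  have hσ := D.sig_diff h0 h1 x
  have a1 : HasDerivAt (fun x => G c (x - sig γ Y ϑ c x))
      (G1 c (x - sig γ Y ϑ c x) * (1 - deriv (sig γ Y ϑ c) x)) x :=
    HasDerivAt.comp (h₂ := G c) x (D.Gd c h0 h1 _) ((hasDerivAt_id x).sub hσ)
  have a2 : HasDerivAt (fun x => h x * Real.cos (sig γ Y ϑ c x) -
      t x * Real.sin (sig γ Y ϑ c x)) _ x :=
    ((D.supp.dh x).mul hσ.cos).sub ((D.supp.dt x).mul hσ.sin)
  have a3 : (fun x => G c (x - sig γ Y ϑ c x)) = fun x => h x * Real.cos (sig γ Y ϑ c x) -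
      t x * Real.sin (sig γ Y ϑ c x) := funext fun x => D.minus h0 h1 x
  rw [a3] at a1
  have := a1.unique a2
  linear_combination -this

lemma rs_pos (D : Dat γ ρ Y h t r ϑ ϑ' G G1 G2) {c : ℝ} (h0 : 0 < c) (h1 : c ≤ 1) (x : ℝ) :
    0 < r x * Real.sin (sig γ Y ϑ c x) := by
  refine mul_pos (D.supp.rpos x) (Real.sin_pos_of_pos_of_lt_pi (D.sig_pos h0 h1 x) ?_)
  have := D.sig_lt h0 h1 x
  have := Real.pi_pos
  linarith

lemma sigc_cont (D : Dat γ ρ Y h t r ϑ ϑ' G G1 G2) {c : ℝ} (h0 : 0 < c) (h1 : c ≤ 1) :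
    Continuous (sig γ Y ϑ c) :=
  continuous_iff_continuousAt.2 fun x => (D.sig_diff h0 h1 x).continuousAt

lemma h_cont (D : Dat γ ρ Y h t r ϑ ϑ' G G1 G2) : Continuous h :=
  continuous_iff_continuousAt.2 fun x => (D.supp.dh x).continuousAt

lemma t_cont (D : Dat γ ρ Y h t r ϑ ϑ' G G1 G2) : Continuous t :=
  continuous_iff_continuousAt.2 fun x => (D.supp.dt x).continuousAt

lemma u_cont (D : Dat γ ρ Y h t r ϑ ϑ' G G1 G2) {c : ℝ} (h0 : 0 < c) (h1 : c ≤ 1) :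
    Continuous (deriv (sig γ Y ϑ c)) := by
  have c1 := D.sigc_cont h0 h1
  have c2 := D.h_cont
  have c3 := D.t_cont
  have c4 := D.G1c c h0 h1
  have c5 := D.supp.cont
  have hne : ∀ x, G1 c (x + sig γ Y ϑ c x) + h x * Real.sin (sig γ Y ϑ c x) -
      t x * Real.cos (sig γ Y ϑ c x) ≠ 0 := by
    intro x hx
    have := D.dplus h0 h1 x
    rw [hx, zero_mul] at this
    exact (D.rs_pos h0 h1 x).ne this
  have e : deriv (sig γ Y ϑ c) = fun x => r x * Real.sin (sig γ Y ϑ c x) /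
      (G1 c (x + sig γ Y ϑ c x) + h x * Real.sin (sig γ Y ϑ c x) -
      t x * Real.cos (sig γ Y ϑ c x)) - 1 := by
    funext x
    have := D.dplus h0 h1 x
    have h2 := hne x
    rw [← this]
    field_simp
    ring
  rw [e]
  refine Continuous.sub (Continuous.div (by fun_prop) ?_ hne) continuous_const
  have c6 : Continuous fun x => G1 c (x + sig γ Y ϑ c x) := c4.comp (continuous_id.add c1)
  fun_prop

lemma u_ne (D : Dat γ ρ Y h t r ϑ ϑ' G G1 G2) {c : ℝ} (h0 : 0 < c) (h1 : c ≤ 1) (x : ℝ) :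
    1 + deriv (sig γ Y ϑ c) x ≠ 0 ∧ 1 - deriv (sig γ Y ϑ c) x ≠ 0 := by
  constructor
  · intro hx
    have := D.dplus h0 h1 x
    rw [hx, mul_zero] at this
    exact (D.rs_pos h0 h1 x).ne this
  · intro hx
    have := D.dminus h0 h1 x
    rw [hx, mul_zero] at this
    exact (D.rs_pos h0 h1 x).ne this

lemma u_abs (D : Dat γ ρ Y h t r ϑ ϑ' G G1 G2) {c : ℝ} (h0 : 0 < c) (h1 : c ≤ 1) (x : ℝ) :
    |deriv (sig γ Y ϑ c) x| < 1 := by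
  have hc := D.u_cont h0 h1
  -- a zero of the derivative
  obtain ⟨ξ, -, hξ⟩ := exists_hasDerivAt_eq_zero (f := sig γ Y ϑ c)
    (f' := deriv (sig γ Y ϑ c)) (a := 0) (b := 2 * π) (by positivity)
    (D.sigc_cont h0 h1).continuousOn (by
      have := D.sig_per h0 h1 0
      rw [zero_add] at this
      exact this.symm) (fun x _ => D.sig_diff h0 h1 x)
  have key : ∀ w : ℝ → ℝ, Continuous w → (∀ x, w x ≠ 0) → w ξ = 1 → ∀ x, 0 < w x := by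
    intro w hw hne h1 x
    by_contra hcon
    push Not at hcon
    obtain ⟨y, hy⟩ := mem_range_of_exists_le_of_exists_ge hw ⟨x, hcon⟩
      ⟨ξ, by rw [h1]; norm_num⟩
    exact hne y hy
  have k1 := key (fun x => 1 + deriv (sig γ Y ϑ c) x) (continuous_const.add hc)
    (fun x => (D.u_ne h0 h1 x).1) (by simp [hξ]) x
  have k2 := key (fun x => 1 - deriv (sig γ Y ϑ c) x) (continuous_const.sub hc)
    (fun x => (D.u_ne h0 h1 x).2) (by simp [hξ]) x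
  rw [abs_lt]
  constructor <;> linarith

/-- the derivative of `plus` in `c` -/
lemma cplus (D : Dat γ ρ Y h t r ϑ ϑ' G G1 G2) {c : ℝ} (h0 : 0 < c) (h1 : c < 1) (x : ℝ) :
    G2 c (x + sig γ Y ϑ c x) = (G1 c (x + sig γ Y ϑ c x) + h x * Real.sin (sig γ Y ϑ c x) -
      t x * Real.cos (sig γ Y ϑ c x)) * vv γ Y ϑ c x := by
  have hσ := D.sig_diff_c h0 h1 x
  have a0 : HasDerivAt (fun c => ((c, x + sig γ Y ϑ c x) : ℝ × ℝ)) (1, vv γ Y ϑ c x) c :=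
    (hasDerivAt_id c).prodMk (hσ.const_add x)
  have a1 : HasDerivAt (fun c => G c (x + sig γ Y ϑ c x)) _ c :=
    HasFDerivAt.comp_hasDerivAt (f := fun c => ((c, x + sig γ Y ϑ c x) : ℝ × ℝ)) c
      (D.Gf c h0 h1 (x + sig γ Y ϑ c x)) a0
  have a2 : HasDerivAt (fun c => h x * Real.cos (sig γ Y ϑ c x) +
      t x * Real.sin (sig γ Y ϑ c x)) _ c :=
    (hσ.cos.const_mul (h x)).add (hσ.sin.const_mul (t x))
  have a3 : (fun c => G c (x + sig γ Y ϑ c x)) =ᶠ[𝓝 c] fun c => h x * Real.cos (sig γ Y ϑ c x) +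
      t x * Real.sin (sig γ Y ϑ c x) := by
    filter_upwards [lt_mem_nhds h0, gt_mem_nhds h1] with c' hc hc'
    exact D.plus hc hc'.le x
  have := a1.unique (a2.congr_of_eventuallyEq a3)
  simp at this
  linear_combination -this

lemma cminus (D : Dat γ ρ Y h t r ϑ ϑ' G G1 G2) {c : ℝ} (h0 : 0 < c) (h1 : c < 1) (x : ℝ) :
    G2 c (x - sig γ Y ϑ c x) = (-G1 c (x - sig γ Y ϑ c x) + h x * Real.sin (sig γ Y ϑ c x) +
      t x * Real.cos (sig γ Y ϑ c x)) * vv γ Y ϑ c x := by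
  have hσ := D.sig_diff_c h0 h1 x
  have a0 : HasDerivAt (fun c => ((c, x - sig γ Y ϑ c x) : ℝ × ℝ)) (1, -vv γ Y ϑ c x) c :=
    (hasDerivAt_id c).prodMk (hσ.const_sub x)
  have a1 : HasDerivAt (fun c => G c (x - sig γ Y ϑ c x)) _ c :=
    HasFDerivAt.comp_hasDerivAt (f := fun c => ((c, x - sig γ Y ϑ c x) : ℝ × ℝ)) c
      (D.Gf c h0 h1 (x - sig γ Y ϑ c x)) a0
  have a2 : HasDerivAt (fun c => h x * Real.cos (sig γ Y ϑ c x) -
      t x * Real.sin (sig γ Y ϑ c x)) _ c :=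
    (hσ.cos.const_mul (h x)).sub (hσ.sin.const_mul (t x))
  have a3 : (fun c => G c (x - sig γ Y ϑ c x)) =ᶠ[𝓝 c] fun c => h x * Real.cos (sig γ Y ϑ c x) -
      t x * Real.sin (sig γ Y ϑ c x) := by
    filter_upwards [lt_mem_nhds h0, gt_mem_nhds h1] with c' hc hc'
    exact D.minus hc hc'.le x
  have := a1.unique (a2.congr_of_eventuallyEq a3)
  simp at this
  linear_combination -this

/-- The polar description. -/
theorem fol (D : Dat γ ρ Y h t r ϑ ϑ' G G1 G2) :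
    Fol γ Y h t r G G1 G2 (sig γ Y ϑ) (fun c => deriv (sig γ Y ϑ c)) (vv γ Y ϑ) where
  supp := D.supp
  hpos := D.hpos
  base := D.base
  leaf := D.leaf
  Gpos := D.Gpos
  Gper := D.Gper
  G2per := D.G2per
  Gd := D.Gd
  G1c := D.G1c
  G2c := D.G2c
  sc := D.sig_cont
  s0 := D.sig_zero
  spos c h0 h1 x := ⟨D.sig_pos h0 h1 x, D.sig_lt h0 h1 x⟩
  sper c h0 h1 x := D.sig_per h0 h1 x
  sd c h0 h1 x := D.sig_diff h0 h1 x
  uc c h0 h1 := D.u_cont h0 h1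
  u1 c h0 h1 x := D.u_abs h0 h1 x
  sv c h0 h1 x := D.sig_diff_c h0 h1 x
  vc := D.vv_cont
  vpos c h0 h1 x := by
    have e1 := D.cplus h0 h1 x
    have e2 := D.dplus h0 h1.le x
    have e3 := D.rs_pos h0 h1.le x
    have e4 := (abs_lt.1 (D.u_abs h0 h1.le x)).1
    have e5 := D.G2pos c h0 h1.le (x + sig γ Y ϑ c x)
    rw [← e2] at e3
    have e6 : 0 < G1 c (x + sig γ Y ϑ c x) + h x * Real.sin (sig γ Y ϑ c x) -
      t x * Real.cos (sig γ Y ϑ c x) := by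
      by_contra hcon
      push Not at hcon
      have : 0 < 1 + deriv (sig γ Y ϑ c) x := by linarith
      nlinarith
    rw [e1] at e5
    exact (pos_iff_pos_of_mul_pos e5).1 e6
  plus c h0 h1 x := D.plus h0 h1 x
  minus c h0 h1 x := D.minus h0 h1 x
  G2plus c h0 h1 x := by
    have e1 := D.cplus h0 h1 x
    have e2 := D.dplus h0 h1.le x
    rw [e1, ← e2]; ring
  G2minus c h0 h1 x := by
    have e1 := D.cminus h0 h1 x
    have e2 := D.dminus h0 h1.le x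
    rw [e1, ← e2]; ring
  next z w hz hw hn := by
    obtain ⟨θ, s, τ, hs, hτ, ez, ew⟩ := hn
    have ez' : z = P γ θ s := ez
    have ew' : w = P γ θ τ := ew
    set x := θ + Real.arctan (sq γ θ / sp γ θ) with hx
    have hθ : ϑ x = θ := D.inv2 θ
    refine ⟨x, ?_, ?_⟩
    · have h2 := D.back one_pos le_rfl x s hs (by rw [hθ, ← ez', hz])
      obtain ⟨h3, h4⟩ := D.pol x s _ h2.symm
      rw [hθ, ← ez'] at h4
      rw [D.minus one_pos le_rfl x, h4, Real.cos_neg, Real.sin_neg]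
      congr 3
      ring
    · have h2 : τ = S γ Y 1 θ := D.sit.S_unique one_pos le_rfl hτ (by rw [← ew', hw])
      obtain ⟨h3, h4⟩ := D.pol x (S γ Y 1 (ϑ x)) (sig γ Y ϑ 1 x) (sig_eq one_pos x)
      rw [hθ, ← h2, ← ew'] at h4
      rw [D.plus one_pos le_rfl x, h4]

end Dat

end Sig

theorem sig : S_sig := by
  intro γ ρ Y Hsec Htable Hrad hγ hin hY hang
  have horg : ∀ θ, 0 < sp γ θ := by
    intro θ
    have := hin θ
    have e : (0 - γ θ) * exp (-(θ * I)) = -(γ θ * exp (-(θ * I))) := by ring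
    rw [e, neg_re] at this
    unfold sp
    linarith
  have hsit : Sit γ ρ Y := ⟨hγ, horg, hY, Hsec⟩
  obtain ⟨h, t, r, ϑ, ϑ', a1, a2, a3, a4, a5, a6, a7, a8, a9, a10⟩ := Htable γ ρ hγ horg
  obtain ⟨G, G1, G2, b1, b2, b3, b4, b5, b6, b7, b8, b9, b10⟩ := Hrad γ ρ Y hsit
  have D : Sig.Dat γ ρ Y h t r ϑ ϑ' G G1 G2 := ⟨hsit, hang, a1, a2, a3, a4, a5, a6, a7, a8, a9,
    a10, b1, b2, b3, b4, b5, b6, b7, b8, b9, b10⟩
  exact ⟨h, t, r, G, G1, G2, _, _, _, D.fol⟩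

end Pool.Agent.H97.IN
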