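import Pool.Agent.H97.IN.Stubs

set_option autoImplicit false

namespace Pool.Agent.H97.IN

/-- The identity in the variables `k i = c i / s i`, `S i = s i ^ 2`. -/
theorem star_core (k₁ k₂ k₃ S₁ S₂ S₃ y₁ y₂ y₃ g₁ g₂ g₃ T₁ T₂ T₃ Γ σ : ℝ)
    (h₁ : S₁ * (1 + k₁ ^ 2) = 1) (h₂ : S₂ * (1 + k₂ ^ 2) = 1)
    (hk : k₃ * (k₁ + k₂) = 1 - k₁ * k₂)
    (h₃ : S₃ = (k₁ + k₂) ^ 2 * S₁ * S₂) (h0 : k₁ + k₂ ≠ 0)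
    (hT₁ : T₁ = k₂ * S₂ * y₂ - k₃ * S₃ * y₃) (hT₂ : T₂ = k₃ * S₃ * y₃ - k₁ * S₁ * y₁)
    (hT₃ : T₃ = k₁ * S₁ * y₁ - k₂ * S₂ * y₂)
    (hΓ : Γ = k₁ * g₁ + k₂ * g₂ + k₃ * g₃)
    (hσ : σ = k₁ ^ 2 * S₁ * y₁ + k₂ ^ 2 * S₂ * y₂ + k₃ ^ 2 * S₃ * y₃) :
    (k₁ * S₁ * T₁ ^ 2 * (y₁ * ((1 + k₁ ^ 2) * g₁ - k₁ * Γ)) +
      k₂ * S₂ * T₂ ^ 2 * (y₂ * ((1 + k₂ ^ 2) * g₂ - k₂ * Γ)) +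
      k₃ * S₃ * T₃ ^ 2 * (y₃ * ((1 + k₃ ^ 2) * g₃ - k₃ * Γ))) -
    ((k₁ * S₁) ^ 2 * (y₁ * T₁ * ((1 + k₁ ^ 2) * (y₁ - σ))) * (g₂ - g₃) +
      (k₂ * S₂) ^ 2 * (y₂ * T₂ * ((1 + k₂ ^ 2) * (y₂ - σ))) * (g₃ - g₁) +
      (k₃ * S₃) ^ 2 * (y₃ * T₃ * ((1 + k₃ ^ 2) * (y₃ - σ))) * (g₁ - g₂)) =
    k₁ * S₁ * (k₂ * S₂) * (y₂ * T₂ * ((y₁ * ((1 + k₁ ^ 2) * g₁ - k₁ * Γ)) -
        (1 + k₁ ^ 2) * (y₁ - σ) * g₁) -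
      y₁ * T₁ * ((y₂ * ((1 + k₂ ^ 2) * g₂ - k₂ * Γ)) - (1 + k₂ ^ 2) * (y₂ - σ) * g₂)) := by
  have hk' : k₃ = (1 - k₁ * k₂) / (k₁ + k₂) := by field_simp; linarith
  have hS₁ : S₁ = 1 / (1 + k₁ ^ 2) := by
    have : (1 + k₁ ^ 2) ≠ 0 := by positivity
    field_simp; linarith
  have hS₂ : S₂ = 1 / (1 + k₂ ^ 2) := by
    have : (1 + k₂ ^ 2) ≠ 0 := by positivity
    field_simp; linarith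
  have a1 : (1 + k₁ ^ 2) ≠ 0 := by positivity
  have a2 : (1 + k₂ ^ 2) ≠ 0 := by positivity
  subst hT₁ hT₂ hT₃ hΓ hσ h₃ hk' hS₁ hS₂
  field_simp
  ring

theorem star : S_star := by
  intro s₁ s₂ s₃ c₁ c₂ c₃ y₁ y₂ y₃ t₁ t₂ t₃ g₁ g₂ g₃ P₁ P₂ P₃ L Γ σ κ₁ κ₂ κ₃ H hσ hκ₁ hκ₂ hκ₃
  obtain ⟨p₁, p₂, p₃, q₁, q₂, e₃, f₃, T₁, T₂, T₃, L0, Γ0, R₁, R₂, R₃⟩ := H
  have n₁ := p₁.ne'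
  have n₂ := p₂.ne'
  have n₃ := p₃.ne'
  have q₃ : s₃ ^ 2 + c₃ ^ 2 = 1 := by
    rw [e₃, f₃]; linear_combination (s₂ ^ 2 + c₂ ^ 2) * q₁ + q₂
  obtain ⟨k₁, hk₁⟩ : ∃ k, k = c₁ / s₁ := ⟨_, rfl⟩
  obtain ⟨k₂, hk₂⟩ : ∃ k, k = c₂ / s₂ := ⟨_, rfl⟩
  obtain ⟨k₃, hk₃⟩ : ∃ k, k = c₃ / s₃ := ⟨_, rfl⟩
  have m₁ : c₁ = k₁ * s₁ := by rw [hk₁]; field_simp
  have m₂ : c₂ = k₂ * s₂ := by rw [hk₂]; field_simp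
  have m₃ : c₃ = k₃ * s₃ := by rw [hk₃]; field_simp
  have h₁ : s₁ ^ 2 * (1 + k₁ ^ 2) = 1 := by rw [m₁] at q₁; linear_combination q₁
  have h₂ : s₂ ^ 2 * (1 + k₂ ^ 2) = 1 := by rw [m₂] at q₂; linear_combination q₂
  have h₃' : s₃ ^ 2 * (1 + k₃ ^ 2) = 1 := by rw [m₃] at q₃; linear_combination q₃
  have hs₃ : s₃ = (k₁ + k₂) * (s₁ * s₂) := by rw [e₃, m₁, m₂]; ring
  have h0 : k₁ + k₂ ≠ 0 := by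
    intro h; rw [h] at hs₃; simp at hs₃; exact n₃ hs₃
  have hk : k₃ * (k₁ + k₂) = 1 - k₁ * k₂ := by
    have e : k₃ * s₃ = s₁ * s₂ - c₁ * c₂ := by rw [← m₃, f₃]
    rw [hs₃, m₁, m₂] at e
    have : s₁ * s₂ ≠ 0 := mul_ne_zero n₁ n₂
    apply mul_left_cancel₀ this
    linear_combination e
  have h₃ : s₃ ^ 2 = (k₁ + k₂) ^ 2 * s₁ ^ 2 * s₂ ^ 2 := by rw [hs₃]; ring
  have V₁ : P₁ = L * (y₁ * ((1 + k₁ ^ 2) * g₁ - k₁ * Γ)) := by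
    have : s₁ ^ 2 ≠ 0 := pow_ne_zero _ n₁
    apply mul_left_cancel₀ this
    rw [R₁, m₁]
    linear_combination (-(L * y₁ * g₁)) * h₁
  have V₂ : P₂ = L * (y₂ * ((1 + k₂ ^ 2) * g₂ - k₂ * Γ)) := by
    have : s₂ ^ 2 ≠ 0 := pow_ne_zero _ n₂
    apply mul_left_cancel₀ this
    rw [R₂, m₂]
    linear_combination (-(L * y₂ * g₂)) * h₂
  have V₃ : P₃ = L * (y₃ * ((1 + k₃ ^ 2) * g₃ - k₃ * Γ)) := by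
    have : s₃ ^ 2 ≠ 0 := pow_ne_zero _ n₃
    apply mul_left_cancel₀ this
    rw [R₃, m₃]
    linear_combination (-(L * y₃ * g₃)) * h₃'
  have K₁ : κ₁ = L * ((1 + k₁ ^ 2) * (y₁ - σ)) := by
    have : s₁ ^ 2 ≠ 0 := pow_ne_zero _ n₁
    apply mul_left_cancel₀ this
    rw [hκ₁]
    linear_combination (-(L * (y₁ - σ))) * h₁
  have K₂ : κ₂ = L * ((1 + k₂ ^ 2) * (y₂ - σ)) := by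
    have : s₂ ^ 2 ≠ 0 := pow_ne_zero _ n₂
    apply mul_left_cancel₀ this
    rw [hκ₂]
    linear_combination (-(L * (y₂ - σ))) * h₂
  have K₃ : κ₃ = L * ((1 + k₃ ^ 2) * (y₃ - σ)) := by
    have : s₃ ^ 2 ≠ 0 := pow_ne_zero _ n₃
    apply mul_left_cancel₀ this
    rw [hκ₃]
    linear_combination (-(L * (y₃ - σ))) * h₃'
  have hΓ : Γ = k₁ * g₁ + k₂ * g₂ + k₃ * g₃ := by rw [Γ0, hk₁, hk₂, hk₃]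
  have hσ' : σ = k₁ ^ 2 * s₁ ^ 2 * y₁ + k₂ ^ 2 * s₂ ^ 2 * y₂ + k₃ ^ 2 * s₃ ^ 2 * y₃ := by
    rw [hσ, m₁, m₂, m₃]; ring
  have core := star_core k₁ k₂ k₃ (s₁ ^ 2) (s₂ ^ 2) (s₃ ^ 2) y₁ y₂ y₃ g₁ g₂ g₃
    (s₁ * t₁) (s₂ * t₂) (s₃ * t₃) Γ σ h₁ h₂ hk h₃ h0
    (by rw [T₁, m₂, m₃]; ring) (by rw [T₂, m₁, m₃]; ring) (by rw [T₃, m₁, m₂]; ring) hΓ hσ'
  constructor
  · rw [V₁, V₂, V₃, K₁, K₂, K₃, m₁, m₂, m₃]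
    have x₁ : s₁ * (k₁ * s₁) * (L * (y₁ * ((1 + k₁ ^ 2) * g₁ - k₁ * Γ)) -
        L * ((1 + k₁ ^ 2) * (y₁ - σ)) * g₁) =
        L * (σ * (k₁ * g₁) * (s₁ ^ 2 * (1 + k₁ ^ 2)) - k₁ ^ 2 * s₁ ^ 2 * y₁ * Γ) := by ring
    have x₂ : s₂ * (k₂ * s₂) * (L * (y₂ * ((1 + k₂ ^ 2) * g₂ - k₂ * Γ)) -
        L * ((1 + k₂ ^ 2) * (y₂ - σ)) * g₂) =
        L * (σ * (k₂ * g₂) * (s₂ ^ 2 * (1 + k₂ ^ 2)) - k₂ ^ 2 * s₂ ^ 2 * y₂ * Γ) := by ring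
    have x₃ : s₃ * (k₃ * s₃) * (L * (y₃ * ((1 + k₃ ^ 2) * g₃ - k₃ * Γ)) -
        L * ((1 + k₃ ^ 2) * (y₃ - σ)) * g₃) =
        L * (σ * (k₃ * g₃) * (s₃ ^ 2 * (1 + k₃ ^ 2)) - k₃ ^ 2 * s₃ ^ 2 * y₃ * Γ) := by ring
    rw [x₁, x₂, x₃, h₁, h₂, h₃']
    linear_combination (-(L * σ)) * hΓ + (L * Γ) * hσ'
  · rw [V₁, V₂, V₃, K₁, K₂, K₃, m₁, m₂, m₃]
    linear_combination L * core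

end Pool.Agent.H97.IN
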