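import Pool.Agent.H97.IN.Stubs2

/-!
# IN-THREE: the leaf of 3-periodic orbits
-/

set_option autoImplicit false

open Set MeasureTheory Filter Topology Complex
open scoped Real

namespace Pool.Agent.H97.IN

open Pool.Agent.H97.OB Pool.Agent.H97.OC

namespace Three

/-- points in polar coordinates -/
lemma polar_inj {a b p q : ℝ} (hp : 0 < p) (hq : 0 < q)
    (he : exp ((a : ℂ) * I) / (p : ℂ) = exp ((b : ℂ) * I) / (q : ℂ)) :
    ∃ k : ℤ, b = a + k * (2 * π) := by
  have hn := congrArg norm he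
  rw [norm_div, norm_div, norm_exp_ofReal_mul_I, norm_exp_ofReal_mul_I, norm_real, norm_real,
    Real.norm_eq_abs, Real.norm_eq_abs, abs_of_pos hp, abs_of_pos hq] at hn
  have hpq : p = q := by
    have h1 : (1 : ℝ) / p = 1 / q := hn
    field_simp at h1
    linarith
  subst hpq
  have h3 : (p : ℂ) ≠ 0 := by exact_mod_cast hp.ne'
  have h4 : exp ((a : ℂ) * I) = exp ((b : ℂ) * I) := by
    exact (div_left_inj' h3).mp he
  obtain ⟨n, hn⟩ := exp_eq_exp_iff_exists_int.1 h4.symm
  refine ⟨n, ?_⟩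
  have h5 : (b : ℂ) * I = ((a + n * (2 * π) : ℝ) : ℂ) * I := by
    rw [hn]; push_cast; ring
  have h6 := mul_right_cancel₀ I_ne_zero h5
  exact_mod_cast h6

lemma shift_int {g : ℝ → ℝ} (hg : ∀ x, g (x + 2 * π) = g x + 2 * π) (x : ℝ) (k : ℤ) :
    g (x + k * (2 * π)) = g x + k * (2 * π) := by
  have hper : Function.Periodic (fun x => g x - x) (2 * π) := by
    intro x; simp only [hg]; ring
  have := hper.int_mul k x
  linarith

/-- the angle between two points -/
lemma angle_polar {x d p q : ℝ} (hd0 : 0 < d) (hd : d < π / 2) (hp : 0 < p) (hq : 0 < q) :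
    InnerProductGeometry.angle (exp (((x - d : ℝ) : ℂ) * I) / (p : ℂ))
      (exp (((x + d : ℝ) : ℂ) * I) / (q : ℂ)) = 2 * d := by
  have e1 : exp (((x - d : ℝ) : ℂ) * I) / (p : ℂ) = (p⁻¹ : ℝ) • exp (((x - d : ℝ) : ℂ) * I) := by
    rw [real_smul, ofReal_inv, div_eq_mul_inv, mul_comm]
  have e2 : exp (((x + d : ℝ) : ℂ) * I) / (q : ℂ) = (q⁻¹ : ℝ) • exp (((x + d : ℝ) : ℂ) * I) := by
    rw [real_smul, ofReal_inv, div_eq_mul_inv, mul_comm]
  rw [e1, e2, InnerProductGeometry.angle_smul_left_of_pos _ _ (inv_pos.mpr hp),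
    InnerProductGeometry.angle_smul_right_of_pos _ _ (inv_pos.mpr hq), Complex.angle_exp_exp]
  have e3 : toIocMod Real.two_pi_pos (-π) (x - d - (x + d)) = -(2 * d) := by
    have : x - d - (x + d) = -(2 * d) := by ring
    rw [this, toIocMod_eq_self]
    constructor <;> linarith
  rw [e3, abs_neg, abs_of_pos (by linarith)]

end Three

theorem three : S_three := by
  intro γ Y h t r G G1 G2 σ u v hF h3 hw
  have h01 : (0 : ℝ) < 1 := one_pos
  have hδ := fun x => hF.spos 1 h01 le_rfl x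
  have hδp := fun x => hF.sper 1 h01 le_rfl x
  have hδd := fun x => hF.sd 1 h01 le_rfl x
  have hu := fun x => abs_lt.mp (hF.u1 1 h01 le_rfl x)
  have hG := fun x => hF.Gpos 1 h01 le_rfl x
  have hπ := Real.pi_pos
  -- the two maps
  obtain ⟨α, hα⟩ : ∃ α : ℝ → ℝ, α = fun x => x - σ 1 x := ⟨_, rfl⟩
  have hα' : ∀ x, α x = x - σ 1 x := fun x => by rw [hα]
  have hαd : ∀ x, HasDerivAt α (1 - u 1 x) x := fun x => by
    rw [hα]
    exact (hasDerivAt_id x).sub (hδd x)
  have hαc : Continuous α := continuous_iff_continuousAt.2 fun x => (hαd x).continuousAt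
  have hαm : StrictMono α := by
    apply strictMono_of_deriv_pos
    intro x
    rw [(hαd x).deriv]
    linarith [(hu x).2]
  have hαp : ∀ x, α (x + 2 * π) = α x + 2 * π := fun x => by
    rw [hα', hα', hδp]
    ring
  have hαtop : Tendsto α atTop atTop := by
    apply tendsto_atTop_mono (f := fun x : ℝ => x - π / 2)
    · intro x
      rw [hα']
      linarith [(hδ x).2]
    · exact tendsto_atTop_add_const_right _ _ tendsto_id
  have hαbot : Tendsto α atBot atBot := by
    refine tendsto_atBot_mono (fun x => ?_) tendsto_id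
    rw [hα']
    simp only [id]
    linarith [(hδ x).1]
  have hαs : Function.Surjective α := hαc.surjective hαtop hαbot
  obtain ⟨E, hE⟩ : ∃ E : ℝ ≃o ℝ, ∀ x, E x = α x :=
    ⟨hαm.orderIsoOfSurjective α hαs, fun x => rfl⟩
  have hAc : Continuous E.symm := E.symm.continuous
  have hαA : ∀ y, α (E.symm y) = y := fun y => by rw [← hE, E.apply_symm_apply]
  have hAd : ∀ y, HasDerivAt E.symm (1 - u 1 (E.symm y))⁻¹ y := fun y => by
    apply HasDerivAt.of_local_left_inverse hAc.continuousAt (hαd _)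
    · linarith [(hu (E.symm y)).2]
    · exact Eventually.of_forall hαA
  -- the map `f`
  obtain ⟨f, hf⟩ : ∃ f : ℝ → ℝ, f = fun x => E.symm (x + σ 1 x) := ⟨_, rfl⟩
  have hαf : ∀ x, α (f x) = x + σ 1 x := fun x => by rw [hf]; exact hαA _
  have hfc : Continuous f := by
    rw [hf]
    have : Continuous (σ 1) := continuous_iff_continuousAt.2 fun x => (hδd x).continuousAt
    exact hAc.comp (continuous_id.add this)
  have hfd : ∀ x, HasDerivAt f ((1 - u 1 (f x))⁻¹ * (1 + u 1 x)) x := fun x => by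
    have h1 := (hAd (x + σ 1 x)).comp x ((hasDerivAt_id x).add (hδd x))
    rw [hf]
    exact h1
  have hfx : ∀ x, f x - x = σ 1 x + σ 1 (f x) := fun x => by
    have := hαf x
    rw [hα'] at this
    linarith
  have hfp : ∀ x, f (x + 2 * π) = f x + 2 * π := fun x => by
    apply hαm.injective
    rw [hαp, hαf, hαf, hδp]
    ring
  -- uniqueness of the parameter of a side
  have huniq : ∀ x y : ℝ, exp (((α x : ℝ) : ℂ) * I) / (G 1 (α x) : ℂ) =
      exp (((α y : ℝ) : ℂ) * I) / (G 1 (α y) : ℂ) → ∃ k : ℤ, y = x + k * (2 * π) := by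
    intro x y he
    obtain ⟨k, hk⟩ := Three.polar_inj (hG _) (hG _) he
    refine ⟨k, hαm.injective ?_⟩
    rw [Three.shift_int hαp]
    exact hk
  have hnext : ∀ z w, Y z = 1 → Y w = 1 → Next γ z w → ∃ x : ℝ,
      z = exp (((α x : ℝ) : ℂ) * I) / (G 1 (α x) : ℂ) ∧
      w = exp (((x + σ 1 x : ℝ) : ℂ) * I) / (G 1 (x + σ 1 x) : ℂ) := by
    intro z w hz hw hn
    obtain ⟨x, e1, e2⟩ := hF.next z w hz hw hn
    exact ⟨x, by rw [hα']; exact e1, e2⟩
  have hf3 : ∀ x, f (f (f x)) = x + 2 * π := by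
    intro x
    have y1 : Y (exp (((α x : ℝ) : ℂ) * I) / (G 1 (α x) : ℂ)) = 1 :=
      (hF.leaf 1 h01 le_rfl _).mpr ⟨α x, rfl⟩
    obtain ⟨z₂, z₃, y2, y3, n1, n2, n3⟩ := h3 _ y1
    obtain ⟨x1, c1, d1⟩ := hnext _ _ y1 y2 n1
    obtain ⟨x2, c2, d2⟩ := hnext _ _ y2 y3 n2
    obtain ⟨x3, c3, d3⟩ := hnext _ _ y3 y1 n3
    rw [← hαf] at d1 d2 d3
    obtain ⟨k1, hk1⟩ := huniq _ _ c1
    obtain ⟨k2, hk2⟩ := huniq _ _ (d1.symm.trans c2)
    obtain ⟨k3, hk3⟩ := huniq _ _ (d2.symm.trans c3)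
    obtain ⟨k4, hk4⟩ := huniq _ _ d3.symm
    have sh := fun x k => Three.shift_int hfp x k
    have e1 : f x1 = f x + k1 * (2 * π) := by rw [hk1, sh]
    have e2 : f x2 = f (f x) + ((k1 + k2 : ℤ) : ℝ) * (2 * π) := by
      rw [hk2, e1, show f x + k1 * (2 * π) + k2 * (2 * π) =
        f x + ((k1 + k2 : ℤ) : ℝ) * (2 * π) by push_cast; ring, sh]
    have e3 : f x3 = f (f (f x)) + ((k1 + k2 + k3 : ℤ) : ℝ) * (2 * π) := by
      rw [hk3, e2, show f (f x) + ((k1 + k2 : ℤ) : ℝ) * (2 * π) + k3 * (2 * π) =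
        f (f x) + ((k1 + k2 + k3 : ℤ) : ℝ) * (2 * π) by push_cast; ring, sh]
    have e5 : f (f (f x)) = x + ((-(k1 + k2 + k3 + k4) : ℤ) : ℝ) * (2 * π) := by
      push_cast
      push_cast at e3
      linarith
    have b1 := hfx x
    have b2 := hfx (f x)
    have b3 := hfx (f (f x))
    have s1 := hδ x
    have s2 := hδ (f x)
    have s3 := hδ (f (f x))
    have s4 := hδ (f (f (f x)))
    have lo : x < f (f (f x)) := by linarith [s1.1, s2.1, s3.1, s4.1]
    have hi : f (f (f x)) < x + 3 * π := by linarith [s1.2, s2.2, s3.2, s4.2]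
    obtain ⟨K, hK⟩ : ∃ K : ℤ, K = -(k1 + k2 + k3 + k4) := ⟨_, rfl⟩
    rw [← hK] at e5
    rw [e5] at lo hi
    have k1' : (0 : ℝ) < K := by
      by_contra hcon
      push Not at hcon
      nlinarith
    have k2' : (K : ℝ) < 2 := by
      by_contra hcon
      push Not at hcon
      nlinarith
    have k3' : K = 1 := by
      have : 0 < K := by exact_mod_cast k1'
      have : K < 2 := by exact_mod_cast k2'
      omega
    rw [e5, k3']
    push_cast; ring
  -- the angles
  have hangle : ∀ x, σ 1 x ≤ 3 * π / 8 := by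
    intro x
    have y1 : Y (exp (((α x : ℝ) : ℂ) * I) / (G 1 (α x) : ℂ)) = 1 :=
      (hF.leaf 1 h01 le_rfl _).mpr ⟨α x, rfl⟩
    obtain ⟨z₂, z₃, y2, y3, n1, n2, n3⟩ := h3 _ y1
    obtain ⟨x1, c1, d1⟩ := hnext _ _ y1 y2 n1
    obtain ⟨k1, hk1⟩ := huniq _ _ c1
    have h1 := hw _ _ y1 y2 n1
    rw [c1, d1, hα', Three.angle_polar (hδ x1).1 (hδ x1).2 (hG _) (hG _)] at h1
    have h2 : σ 1 x1 = σ 1 x := by
      have hper : Function.Periodic (σ 1) (2 * π) := hδp
      rw [hk1]
      exact hper.int_mul k1 x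
    linarith
  refine ⟨hangle, f, fun x => (1 - u 1 (f x))⁻¹ * (1 + u 1 x), ?_⟩
  have huc := hF.uc 1 h01 le_rfl
  exact
    { supp := hF.supp
      uc := huc
      gc := by
        apply Continuous.mul _ (continuous_const.add huc)
        apply Continuous.inv₀ (continuous_const.sub (huc.comp hfc))
        intro x
        have := (hu (f x)).2
        show 1 - u 1 (f x) ≠ 0
        linarith
      dd := hδd
      fd := hfd
      gpos := fun x => by
        have h1 := (hu (f x)).2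
        have h2 := (hu x).1
        have h3 : 0 < 1 - u 1 (f x) := by linarith
        have h4 : 0 < 1 + u 1 x := by linarith
        positivity
      dpos := fun x => (hδ x).1
      dlt := fun x => (hδ x).2
      dper := hδp
      fper := hfp
      f3 := hf3
      fx := hfx
      line := fun x => by
        rw [← hF.plus 1 h01 le_rfl x, ← hF.minus 1 h01 le_rfl (f x)]
        congr 1
        linarith [hfx x] }

end Pool.Agent.H97.IN
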