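import Pool.Agent.H97.IN.Stubs

/-! # IN-TRIG: the trigonometric inequality (helper92) -/

set_option autoImplicit false

open Set MeasureTheory Filter Topology
open scoped Real

namespace Pool.Agent.H97.IN

namespace Trig

/-- `8 (AA d - π / 24)` -/
noncomputable def gg (d : ℝ) : ℝ := d - π / 3 - Real.sin (4 * d) / 4

lemma AA_eq (d : ℝ) : AA d = π / 24 + gg d / 8 := by
  unfold AA gg
  have h1 : Real.sin (4 * d) = 2 * (2 * Real.sin d * Real.cos d) *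
      (Real.cos d ^ 2 - Real.sin d ^ 2) := by
    rw [show 4 * d = 2 * (2 * d) by ring, Real.sin_two_mul, Real.sin_two_mul, Real.cos_two_mul']
  rw [h1]
  ring

lemma gg_mono {a b : ℝ} (h : a ≤ b) : gg a ≤ gg b := by
  unfold gg
  have h1 := Real.lipschitzWith_sin.dist_le_mul (4 * b) (4 * a)
  rw [Real.dist_eq, Real.dist_eq, NNReal.coe_one, one_mul,
    abs_of_nonneg (show 0 ≤ 4 * b - 4 * a by linarith)] at h1
  have h2 := le_abs_self (Real.sin (4 * b) - Real.sin (4 * a))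
  linarith

lemma sin_cube_cos (y : ℝ) : Real.sin y ^ 3 * Real.cos y ≤ 0.325 := by
  have h1 : (Real.sin y ^ 3 * Real.cos y) ^ 2 ≤ 0.325 ^ 2 := by
    have h2 : Real.cos y ^ 2 = 1 - Real.sin y ^ 2 := by
      have := Real.sin_sq_add_cos_sq y
      linarith
    have h3 : (Real.sin y ^ 3 * Real.cos y) ^ 2 =
        (Real.sin y ^ 2) ^ 3 * (1 - Real.sin y ^ 2) := by
      rw [← h2]
      ring
    rw [h3]
    set s := Real.sin y ^ 2
    have h4 : 0 ≤ (s - 3 / 4) ^ 2 * (s ^ 2 + s / 2 + 3 / 16) := by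
      have : 0 ≤ s := sq_nonneg _
      positivity
    nlinarith
  exact abs_le_of_sq_le_sq' h1 (by norm_num) |>.2

lemma poly {τ q : ℝ} (h0 : 0 ≤ τ) (h1 : τ ≤ 0.14) (hq1 : 3.14159 < q) (hq2 : q < 3.1416) :
    0.325 * (q / 12 - 2 * τ + 8 / 3 * τ ^ 3) ≤
      (1 - 2 * τ ^ 2) * (1 - 2 * τ) / 4 * (q / 24 + 1 / 4 - τ - 2 * τ ^ 2) := by
  have e1 : 0 ≤ (1 - 2 * τ ^ 2) * (1 - 2 * τ) / 4 := by
    have : 0 ≤ 1 - 2 * τ ^ 2 := by nlinarith
    have : 0 ≤ 1 - 2 * τ := by linarith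
    positivity
  have e2 : (1 - 2 * τ ^ 2) * (1 - 2 * τ) / 4 * (0.3808 - τ - 2 * τ ^ 2) ≤
      (1 - 2 * τ ^ 2) * (1 - 2 * τ) / 4 * (q / 24 + 1 / 4 - τ - 2 * τ ^ 2) :=
    mul_le_mul_of_nonneg_left (by linarith) e1
  refine le_trans ?_ e2
  have e3 : 0.325 * (q / 12 - 2 * τ + 8 / 3 * τ ^ 3) ≤
      0.325 * (0.2618 - 2 * τ + 8 / 3 * τ ^ 3) := by linarith
  refine e3.trans ?_
  have h2 : 0 ≤ τ ^ 2 := sq_nonneg _
  have h3 : 0 ≤ τ * (0.14 - τ) := mul_nonneg h0 (by linarith)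
  have h4 : 0 ≤ τ ^ 2 * (0.14 - τ) := mul_nonneg h2 (by linarith)
  have h5 : 0 ≤ τ ^ 3 * (0.14 - τ) := mul_nonneg (by positivity) (by linarith)
  have h6 : 0 ≤ τ ^ 4 * (0.14 - τ) := mul_nonneg (by positivity) (by linarith)
  nlinarith [pow_nonneg h0 5]

end Trig

open Trig in
theorem trig : S_trig := by
  intro x y hx hy hx' hy' hxy hA
  have hp1 := Real.pi_gt_d6
  have hp2 := Real.pi_lt_d6
  rw [AA_eq] at hA
  have hgx : gg x < 0 := by linarith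
  obtain ⟨τ, rfl⟩ : ∃ τ, x = π / 4 + τ := ⟨x - π / 4, by ring⟩
  have hτ0 : 0 ≤ τ := by linarith
  have hτ1 : τ ≤ π / 8 := by linarith
  have hs4 : Real.sin (4 * (π / 4 + τ)) = -Real.sin (4 * τ) := by
    rw [show 4 * (π / 4 + τ) = 4 * τ + π by ring, Real.sin_add_pi]
  have hgx' : gg (π / 4 + τ) = -(π / 12 - τ - Real.sin (4 * τ) / 4) := by
    unfold gg
    rw [hs4]
    ring
  rw [hgx'] at hgx
  -- the sine
  have hsin : 4 * τ - 32 / 3 * τ ^ 3 ≤ Real.sin (4 * τ) := by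
    rcases hτ0.eq_or_lt with h | h
    · rw [← h]
      norm_num
    · have h1 := Real.sin_gt_sub_cube (show 0 < 4 * τ by linarith)
      nlinarith
  have hτ : τ ≤ 0.14 := by
    by_contra hcon
    push Not at hcon
    have h1 : 2 * τ - 8 / 3 * τ ^ 3 < 0.2618 := by linarith
    have h2 : τ ≤ 0.3928 := by linarith
    nlinarith [mul_nonneg (sub_nonneg.2 hcon.le) (sub_nonneg.2 h2),
      mul_nonneg hτ0 (mul_nonneg (sub_nonneg.2 hcon.le) (sub_nonneg.2 h2))]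
  have hgy : π / 24 - τ + Real.cos (4 * τ) / 4 ≤ gg y := by
    have h1 : gg (3 * π / 8 - τ) ≤ gg y := gg_mono (by linarith)
    refine le_trans (le_of_eq ?_) h1
    unfold gg
    have h2 : Real.sin (4 * (3 * π / 8 - τ)) = -Real.cos (4 * τ) := by
      rw [show 4 * (3 * π / 8 - τ) = (π / 2 - 4 * τ) + π by ring, Real.sin_add_pi,
        Real.sin_pi_div_two_sub]
    rw [h2]
    ring
  have hc4 : 1 - 8 * τ ^ 2 ≤ Real.cos (4 * τ) := by
    have h1 := Real.one_sub_sq_div_two_le_cos (x := 4 * τ)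
    nlinarith
  have hc2 : 1 - 2 * τ ^ 2 ≤ Real.cos (2 * τ) := by
    have h1 := Real.one_sub_sq_div_two_le_cos (x := 2 * τ)
    nlinarith
  have hs2 : Real.sin (2 * τ) ≤ 2 * τ := Real.sin_le (by linarith)
  have hgy2 : π / 24 + 1 / 4 - τ - 2 * τ ^ 2 ≤ gg y := by linarith
  have hgy0 : 0 < π / 24 + 1 / 4 - τ - 2 * τ ^ 2 := by nlinarith
  rw [AA_eq, AA_eq, hgx']
  refine ⟨by linarith, ?_⟩
  have hprod : Real.sin (π / 4 + τ) * Real.cos (π / 4 + τ) ^ 3 =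
      Real.cos (2 * τ) * (1 - Real.sin (2 * τ)) / 4 := by
    have h1 : Real.sin (2 * (π / 4 + τ)) = Real.cos (2 * τ) := by
      rw [show 2 * (π / 4 + τ) = 2 * τ + π / 2 by ring, Real.sin_add_pi_div_two]
    have h2 : Real.cos (2 * (π / 4 + τ)) = -Real.sin (2 * τ) := by
      rw [show 2 * (π / 4 + τ) = 2 * τ + π / 2 by ring, Real.cos_add_pi_div_two]
    rw [Real.sin_two_mul] at h1
    rw [Real.cos_two_mul] at h2
    rw [← h1]
    have h3 : Real.sin (2 * τ) = 1 - 2 * Real.cos (π / 4 + τ) ^ 2 := by linarith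
    rw [h3]
    ring
  have hL : Real.sin y ^ 3 * Real.cos y * (π / 24 - (π / 24 + -(π / 12 - τ -
      Real.sin (4 * τ) / 4) / 8)) ≤ 0.325 * (π / 12 - 2 * τ + 8 / 3 * τ ^ 3) / 8 := by
    have h1 := mul_le_mul_of_nonneg_right (sin_cube_cos y)
      (show 0 ≤ π / 12 - τ - Real.sin (4 * τ) / 4 by linarith)
    linarith
  have hR : (1 - 2 * τ ^ 2) * (1 - 2 * τ) / 4 * (π / 24 + 1 / 4 - τ - 2 * τ ^ 2) / 8 ≤
      Real.sin (π / 4 + τ) * Real.cos (π / 4 + τ) ^ 3 * (π / 24 + gg y / 8 - π / 24) := by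
    rw [hprod]
    have h1 : (1 - 2 * τ ^ 2) * (1 - 2 * τ) / 4 ≤
        Real.cos (2 * τ) * (1 - Real.sin (2 * τ)) / 4 := by
      have h3 : 0 ≤ 1 - 2 * τ ^ 2 := by nlinarith
      have h4 : 0 ≤ 1 - 2 * τ := by linarith
      have h5 : (1 - 2 * τ ^ 2) * (1 - 2 * τ) ≤ Real.cos (2 * τ) * (1 - Real.sin (2 * τ)) :=
        mul_le_mul hc2 (by linarith) h4 (by linarith)
      linarith
    have h2 : 0 ≤ (1 - 2 * τ ^ 2) * (1 - 2 * τ) / 4 := by
      have h3 : 0 ≤ 1 - 2 * τ ^ 2 := by nlinarith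
      have h4 : 0 ≤ 1 - 2 * τ := by linarith
      positivity
    have h6 := mul_le_mul h1 hgy2 hgy0.le (by linarith)
    linarith
  have hP := poly hτ0 hτ (by linarith) (by linarith : π < 3.1416)
  linarith

end Pool.Agent.H97.IN
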