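import Pool.Agent.H97.IN.Stubs

/-! IN-WIRT (by helper4): Wirtinger's inequality, second level, with the equality case
(Parseval for the function and its derivative). -/

set_option autoImplicit false

open Set MeasureTheory Filter Topology
open scoped Real

namespace Pool.Agent.H97.IN


namespace Wirt

/-- Fourier coefficient -/
noncomputable def cf (b : ℝ → ℝ) (n : ℤ) : ℂ :=
  (1 / (2 * π) : ℝ) • ∫ x in (0 : ℝ)..(2 * π), Complex.exp (-(n * x) * Complex.I) * (b x : ℂ)

theorem two_pi_pos' : (0 : ℝ) < 2 * π := by positivity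

theorem cf_on (b : ℝ → ℝ) (n : ℤ) :
    fourierCoeffOn two_pi_pos' (fun x => (b x : ℂ)) n = cf b n := by
  rw [fourierCoeffOn_eq_integral, cf, sub_zero]
  congr 1
  apply intervalIntegral.integral_congr
  intro x _
  simp only [smul_eq_mul]
  rw [fourier_coe_apply]
  congr 2
  have : (π : ℂ) ≠ 0 := by exact_mod_cast Real.pi_ne_zero
  push_cast
  field_simp

theorem cf_lift (b : ℝ → ℝ) (n : ℤ)
    (F : AddCircle (2 * π) → ℂ) (hF : ∀ x : ℝ, F (x : AddCircle (2 * π)) = (b x : ℂ))
    [Fact (0 < 2 * π)] :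
    fourierCoeff F n = cf b n := by
  rw [fourierCoeff_eq_intervalIntegral F n 0, cf, zero_add]
  congr 1
  apply intervalIntegral.integral_congr
  intro x _
  simp only [smul_eq_mul]
  rw [fourier_coe_apply, hF]
  congr 2
  have : (π : ℂ) ≠ 0 := by exact_mod_cast Real.pi_ne_zero
  push_cast
  field_simp

theorem cf_deriv (b b' : ℝ → ℝ) (hd : ∀ x, HasDerivAt b (b' x) x) (hc : Continuous b')
    (hp : b (0 + 2 * π) = b 0) (n : ℤ) (hn : n ≠ 0) : cf b' n = Complex.I * n * cf b n := by
  have h := fourierCoeffOn_of_hasDerivAt (a := 0) (b := 2 * π) two_pi_pos'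
    (f := fun x => (b x : ℂ)) (f' := fun x => (b' x : ℂ)) hn (fun x _ => (hd x).ofReal_comp)
    ((Complex.continuous_ofReal.comp hc).intervalIntegrable _ _)
  rw [cf_on, cf_on] at h
  rw [zero_add] at hp
  rw [hp, sub_self, mul_zero, zero_sub] at h
  rw [h]
  have : (π : ℂ) ≠ 0 := by exact_mod_cast Real.pi_ne_zero
  have hn' : (n : ℂ) ≠ 0 := by exact_mod_cast hn
  push_cast
  rw [sub_zero]
  have := Complex.I_ne_zero
  field_simp

theorem cf_parseval (b : ℝ → ℝ) (hc : Continuous b) :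
    HasSum (fun n : ℤ => ‖cf b n‖ ^ 2) ((2 * π)⁻¹ * ∫ x in (0 : ℝ)..(2 * π), b x ^ 2) := by
  have hcc : Continuous (fun x => (b x : ℂ)) := Complex.continuous_ofReal.comp hc
  have hL : MemLp (fun x => (b x : ℂ)) 2 (volume.restrict (Ioc 0 (2 * π))) := by
    obtain ⟨C, hC⟩ := (isCompact_Icc (a := (0 : ℝ)) (b := 2 * π)).exists_bound_of_continuousOn
      hcc.continuousOn
    refine MemLp.of_bound hcc.aestronglyMeasurable C ?_
    filter_upwards [ae_restrict_mem measurableSet_Ioc] with x hx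
    exact hC x (Ioc_subset_Icc_self hx)
  have h := hasSum_sq_fourierCoeffOn two_pi_pos' hL
  simp only [cf_on] at h
  rw [sub_zero, smul_eq_mul] at h
  convert h using 3
  simp

theorem cf_zero (b : ℝ → ℝ) (h : (∫ x in (0 : ℝ)..(2 * π), b x) = 0) : cf b 0 = 0 := by
  unfold cf
  have : (∫ x in (0 : ℝ)..(2 * π), Complex.exp (-(((0 : ℤ) : ℂ) * x) * Complex.I) * (b x : ℂ)) =
      ∫ x in (0 : ℝ)..(2 * π), (b x : ℂ) := by
    apply intervalIntegral.integral_congr
    intro x _
    simp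
  rw [this, intervalIntegral.integral_ofReal, h]
  simp

theorem cf_pm (b : ℝ → ℝ) (hb : Continuous b) (h1 : (∫ x in (0 : ℝ)..(2 * π), b x * Real.cos x) = 0)
    (h2 : (∫ x in (0 : ℝ)..(2 * π), b x * Real.sin x) = 0) (n : ℤ) (hn : n = 1 ∨ n = -1) :
    cf b n = 0 := by
  unfold cf
  have hn2 : (n : ℝ) = 1 ∨ (n : ℝ) = -1 := by
    rcases hn with h | h
    · left; rw [h]; simp
    · right; rw [h]; simp
  have : (∫ x in (0 : ℝ)..(2 * π), Complex.exp (-((n : ℂ) * x) * Complex.I) * (b x : ℂ)) =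
      ∫ x in (0 : ℝ)..(2 * π), (((b x * Real.cos x : ℝ) : ℂ) - (((b x * Real.sin x : ℝ) : ℂ) * (n * Complex.I))) := by
    apply intervalIntegral.integral_congr
    intro x _
    simp only
    have e : Complex.exp (-((n : ℂ) * x) * Complex.I) =
        ((Real.cos x : ℝ) : ℂ) - ((Real.sin x : ℝ) : ℂ) * (n * Complex.I) := by
      rcases hn with h | h
      · subst h
        rw [Complex.exp_mul_I]
        push_cast
        rw [one_mul, Complex.cos_neg, Complex.sin_neg]
        ring
      · subst h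
        rw [Complex.exp_mul_I]
        push_cast
        have : -(-1 * (x : ℂ)) = x := by ring
        rw [this]
        ring
    rw [e]
    push_cast
    ring
  rw [this, intervalIntegral.integral_sub, intervalIntegral.integral_mul_const,
    intervalIntegral.integral_ofReal, intervalIntegral.integral_ofReal, h1, h2]
  · simp
  · exact (Continuous.intervalIntegrable (by fun_prop) _ _)
  · exact (Continuous.intervalIntegrable (by fun_prop) _ _)

end Wirt

open Wirt in
theorem wirt : S_wirt := by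
  intro b b' hd hc hper h0 h1 h2 hle
  have hbc : Continuous b := continuous_iff_continuousAt.2 fun x => (hd x).continuousAt
  have c0 := cf_zero b h0
  have c1 := cf_pm b hbc h1 h2 1 (Or.inl rfl)
  have cm1 := cf_pm b hbc h1 h2 (-1) (Or.inr rfl)
  have P := cf_parseval b hbc
  have P' := cf_parseval b' hc
  have hdif := P'.sub (P.mul_left 4)
  have hval : (2 * π)⁻¹ * (∫ x in (0 : ℝ)..(2 * π), b' x ^ 2) -
      4 * ((2 * π)⁻¹ * ∫ x in (0 : ℝ)..(2 * π), b x ^ 2) ≤ 0 := by
    have : 0 < (2 * π)⁻¹ := by positivity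
    nlinarith
  have hnorm : ∀ n : ℤ, n ≠ 0 → ‖cf b' n‖ ^ 2 = (n : ℝ) ^ 2 * ‖cf b n‖ ^ 2 := by
    intro n hn
    rw [cf_deriv b b' hd hc (hper 0) n hn, norm_mul, norm_mul, Complex.norm_I, one_mul, mul_pow]
    congr 1
    rw [Complex.norm_intCast]
    simp
  have hnonneg : ∀ n : ℤ, 0 ≤ ‖cf b' n‖ ^ 2 - 4 * ‖cf b n‖ ^ 2 := by
    intro n
    by_cases hn0 : n = 0
    · subst hn0; rw [c0]; simp
    by_cases hn1 : n = 1
    · subst hn1; rw [c1]; simp
    by_cases hn2 : n = -1
    · subst hn2; rw [cm1]; simp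
    rw [hnorm n hn0]
    have : (4 : ℝ) ≤ (n : ℝ) ^ 2 := by
      have : (4 : ℤ) ≤ n ^ 2 := by
        have : 2 ≤ n ∨ n ≤ -2 := by omega
        rcases this with h | h <;> nlinarith
      exact_mod_cast this
    nlinarith [sq_nonneg ‖cf b n‖]
  have hval0 : (2 * π)⁻¹ * (∫ x in (0 : ℝ)..(2 * π), b' x ^ 2) -
      4 * ((2 * π)⁻¹ * ∫ x in (0 : ℝ)..(2 * π), b x ^ 2) = 0 :=
    le_antisymm hval (hdif.nonneg hnonneg)
  rw [hval0] at hdif
  have hall := (hasSum_zero_iff_of_nonneg hnonneg).1 hdif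
  have hbig : ∀ n : ℤ, n ≠ 2 → n ≠ -2 → cf b n = 0 := by
    intro n hn2 hnm2
    by_cases hn0 : n = 0
    · subst hn0; exact c0
    by_cases hn1 : n = 1
    · subst hn1; exact c1
    by_cases hnm1 : n = -1
    · subst hnm1; exact cm1
    have h := congrFun hall n
    simp only [Pi.zero_apply] at h
    rw [hnorm n hn0] at h
    have h5 : (9 : ℝ) ≤ (n : ℝ) ^ 2 := by
      have : (9 : ℤ) ≤ n ^ 2 := by
        have : 3 ≤ n ∨ n ≤ -3 := by omega
        rcases this with h | h <;> nlinarith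
      exact_mod_cast this
    have h6 : ‖cf b n‖ ^ 2 = 0 := by nlinarith [sq_nonneg ‖cf b n‖]
    simpa using h6
  -- the function on the circle
  have : Fact (0 < 2 * π) := ⟨two_pi_pos'⟩
  have hbp : Function.Periodic (fun x => (b x : ℂ)) (2 * π) := fun x => by simp only [hper]
  have hcc : Continuous (fun x => (b x : ℂ)) := Complex.continuous_ofReal.comp hbc
  let F : C(AddCircle (2 * π), ℂ) := ⟨hbp.lift, by
    exact continuous_coinduced_dom.mpr hcc⟩
  have hF : ∀ x : ℝ, F (x : AddCircle (2 * π)) = (b x : ℂ) := fun x => rfl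
  have hFc : ∀ n, fourierCoeff F n = cf b n := fun n => cf_lift b n F hF
  have hsupp : ∀ n ∉ ({2, -2} : Finset ℤ), fourierCoeff F n = 0 := by
    intro n hn
    rw [hFc]
    simp only [Finset.mem_insert, Finset.mem_singleton, not_or] at hn
    exact hbig n hn.1 hn.2
  have hsum : Summable (fourierCoeff F) := summable_of_ne_finset_zero hsupp
  refine ⟨(cf b 2).re + (cf b (-2)).re, (cf b (-2)).im - (cf b 2).im, fun x => ?_⟩
  have hpt := has_pointwise_sum_fourier_series_of_summable hsum (x : AddCircle (2 * π))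
  have hfin : HasSum (fun i => fourierCoeff F i • fourier i (x : AddCircle (2 * π)))
      (∑ i ∈ ({2, -2} : Finset ℤ), fourierCoeff F i • fourier i (x : AddCircle (2 * π))) := by
    apply hasSum_sum_of_ne_finset_zero
    intro i hi
    rw [hsupp i hi, zero_smul]
  have heq := hpt.unique hfin
  rw [hF, Finset.sum_pair (by norm_num)] at heq
  simp only [smul_eq_mul, hFc, fourier_coe_apply] at heq
  have hpi : (π : ℂ) ≠ 0 := by exact_mod_cast Real.pi_ne_zero
  have e1 : 2 * (π : ℂ) * Complex.I * ((2 : ℤ) : ℂ) * x / ((2 * π : ℝ) : ℂ) = ((2 * x : ℝ) : ℂ) * Complex.I := by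
    push_cast; field_simp
  have e2 : 2 * (π : ℂ) * Complex.I * ((-2 : ℤ) : ℂ) * x / ((2 * π : ℝ) : ℂ) = ((-(2 * x) : ℝ) : ℂ) * Complex.I := by
    push_cast; field_simp
  rw [e1, e2, Complex.exp_mul_I, Complex.exp_mul_I, ← Complex.ofReal_cos, ← Complex.ofReal_sin,
    ← Complex.ofReal_cos, ← Complex.ofReal_sin, Real.cos_neg, Real.sin_neg] at heq
  have hre := congrArg Complex.re heq
  simp only [Complex.ofReal_re, Complex.add_re, Complex.mul_re, Complex.I_re, Complex.I_im,
    Complex.ofReal_im, Complex.add_im, Complex.mul_im] at hre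
  rw [hre]
  ring

end Pool.Agent.H97.IN
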