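import Pool.Agent.H97.IN.Main
import Pool.Agent.H97.IN.Center
import Pool.Agent.H97.IN.Ell
import Pool.Agent.H97.IN.Geo
import Pool.Agent.H97.IN.Hopf
import Pool.Agent.H97.IN.Ineq
import Pool.Agent.H97.IN.Kap
import Pool.Agent.H97.IN.Key
import Pool.Agent.H97.IN.Kin
import Pool.Agent.H97.IN.LeafEq
import Pool.Agent.H97.IN.Mono
import Pool.Agent.H97.IN.Point
import Pool.Agent.H97.IN.Rad
import Pool.Agent.H97.IN.Sig
import Pool.Agent.H97.IN.Star
import Pool.Agent.H97.IN.Table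
import Pool.Agent.H97.IN.Three
import Pool.Agent.H97.IN.Trig
import Pool.Agent.H97.IN.Wirt

/-!
# Ordinary billiards in dual form: the theorem
-/

set_option autoImplicit false

open Set Complex
open scoped Real

namespace Pool.Agent.H97.IN

open Pool.Agent.H97.OB Pool.Agent.H97.OC

theorem inner_three_periodic {γ : ℝ → ℂ} {ρ : ℝ → ℝ} {Y : ℂ → ℝ}
    (hγ : IsOval γ ρ) (h0 : (0 : ℂ) ∈ inside γ) (hY : IsCollar γ Y)
    (hσ : ∀ θ, SigmaAngular γ Y θ) (h3 : OuterLeafThreePeriodic γ Y) (hw : SidesAtMost γ Y) :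
    ∃ a b d e f : ℝ,
      (∀ z : ℂ, z ∈ range γ ↔
        a * z.re ^ 2 + 2 * b * z.re * z.im + d * z.im ^ 2 + 2 * e * z.re + 2 * f * z.im = 1) ∧
      ∀ c : ℝ, 0 ≤ c → c ≤ 1 → ∃ l : ℝ, 0 ≤ l ∧ 0 < a - l ∧ b ^ 2 < (a - l) * (d - l) ∧
        ∀ z : ℂ, Y z = c ↔ (a - l) * z.re ^ 2 + 2 * b * z.re * z.im + (d - l) * z.im ^ 2 +
          2 * e * z.re + 2 * f * z.im = 1 :=
  inner_rigidity (ineq hopf3 mono3) three leafeq geo table rad sig
    (key kin kap beta star (point trig)) wirt center ell hγ h0 hY hσ h3 hw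

end Pool.Agent.H97.IN
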