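import Pool.Agent.H97.IN.Stubs2
import Pool.Agent.H97.OC.Second

/-!
# Ordinary billiards in dual form: assembly
-/

set_option autoImplicit false

open Set MeasureTheory Filter Topology Complex
open scoped Real

namespace Pool.Agent.H97.IN

open Pool.Agent.H97.OB Pool.Agent.H97.OC

theorem supp_hC {h t r : ℝ → ℝ} (hs : Supp3 h t r) (C : ℂ) : Supp3 (hC h C) (tC t C) r where
  cont := hs.cont
  rpos := hs.rpos
  dh x := by
    have h1 := (hs.dh x).sub (((Real.hasDerivAt_cos x).const_mul C.re).add
      ((Real.hasDerivAt_sin x).const_mul C.im))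
    refine h1.congr_deriv ?_
    unfold tC; ring
  dt x := by
    have h1 := (hs.dt x).sub (((Real.hasDerivAt_cos x).const_mul C.im).sub
      ((Real.hasDerivAt_sin x).const_mul C.re))
    refine h1.congr_deriv ?_
    unfold hC; ring
  hp x := by unfold hC; rw [hs.hp, Real.cos_add_two_pi, Real.sin_add_two_pi]
  tp x := by unfold tC; rw [hs.tp, Real.cos_add_two_pi, Real.sin_add_two_pi]
  rp := hs.rp

/-- lines do not depend on the centre -/
theorem leaf_hC {h t r d u f g : ℝ → ℝ} (hl : Leaf3 h t r d u f g) (C : ℂ) :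
    Leaf3 (hC h C) (tC t C) r d u f g where
  supp := supp_hC hl.supp C
  uc := hl.uc
  gc := hl.gc
  dd := hl.dd
  fd := hl.fd
  gpos := hl.gpos
  dpos := hl.dpos
  dlt := hl.dlt
  dper := hl.dper
  fper := hl.fper
  f3 := hl.f3
  fx := hl.fx
  line x := by
    have h1 := hl.line x
    have h2 : x + d x = f x - d (f x) := by have := hl.fx x; linarith
    have e1 : Real.cos (x + d x) = Real.cos (f x - d (f x)) := by rw [h2]
    have e2 : Real.sin (x + d x) = Real.sin (f x - d (f x)) := by rw [h2]
    rw [Real.cos_add, Real.cos_sub] at e1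
    rw [Real.sin_add, Real.sin_sub] at e2
    unfold hC tC
    linear_combination h1 - C.re * e1 - C.im * e2

theorem inner_rigidity (Hineq : S_ineq) (Hthree : S_three) (Hleaf : S_leafeq) (Hgeo : S_geo)
    (Htable : S_table) (Hrad : S_rad) (Hsig : S_sig) (Hkey : S_key) (Hwirt : S_wirt)
    (Hcenter : S_center) (Hell : S_ell) {γ : ℝ → ℂ} {ρ : ℝ → ℝ} {Y : ℂ → ℝ}
    (hγ : IsOval γ ρ) (h0 : (0 : ℂ) ∈ inside γ) (hY : IsCollar γ Y)
    (hσ : ∀ θ, SigmaAngular γ Y θ) (h3 : OuterLeafThreePeriodic γ Y) (hw : SidesAtMost γ Y) :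
    ∃ a b d e f : ℝ,
      (∀ z : ℂ, z ∈ range γ ↔
        a * z.re ^ 2 + 2 * b * z.re * z.im + d * z.im ^ 2 + 2 * e * z.re + 2 * f * z.im = 1) ∧
      ∀ c : ℝ, 0 ≤ c → c ≤ 1 → ∃ l : ℝ, 0 ≤ l ∧ 0 < a - l ∧ b ^ 2 < (a - l) * (d - l) ∧
        ∀ z : ℂ, Y z = c ↔ (a - l) * z.re ^ 2 + 2 * b * z.re * z.im + (d - l) * z.im ^ 2 +
          2 * e * z.re + 2 * f * z.im = 1 := by
  obtain ⟨h, t, r, G, G1, G2, σ, u, v, hF⟩ := Hsig γ ρ Y second Htable Hrad hγ h0 hY hσ
  obtain ⟨hd, f, g, hL⟩ := Hthree γ Y h t r G G1 G2 σ u v hF h3 hw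
  have hs := hF.supp
  have ch : Continuous h := continuous_iff_continuousAt.2 fun x => (hs.dh x).continuousAt
  obtain ⟨C, hC1, hC2⟩ := Hcenter h ch hF.hpos
  have hsC := supp_hC hs C
  have chC : Continuous (hC h C) := continuous_iff_continuousAt.2 fun x => (hsC.dh x).continuousAt
  have ctC : Continuous (tC t C) := continuous_iff_continuousAt.2 fun x => (hsC.dt x).continuousAt
  have hk := Hkey _ _ _ _ _ _ _ (leaf_hC hL C) hd
  obtain ⟨hI1, hI2⟩ := Hineq γ Y h t r G G1 G2 σ u v hF C
  -- Wirtinger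
  set b : ℝ → ℝ := fun x => hC h C x * tC t C x with hb
  set b' : ℝ → ℝ := fun x => tC t C x ^ 2 + hC h C x * (r x - hC h C x) with hb'
  have db : ∀ x, HasDerivAt b (b' x) x := fun x => by
    refine ((hsC.dh x).mul (hsC.dt x)).congr_deriv ?_
    simp only [hb']; ring
  have cr := hs.cont
  have cb' : Continuous b' := by simp only [hb']; fun_prop
  have cb : Continuous b := by simp only [hb]; fun_prop
  have dsq : ∀ x, HasDerivAt (fun x => hC h C x ^ 2) (2 * b x) x := fun x => by
    refine ((hsC.dh x).pow 2).congr_deriv ?_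
    simp only [hb]; push_cast; ring
  have p0 : hC h C (2 * π) = hC h C 0 := by simpa using hsC.hp 0
  have e0 : (∫ x in (0 : ℝ)..(2 * π), b x) = 0 := by
    have := intervalIntegral.integral_eq_sub_of_hasDerivAt (a := 0) (b := 2 * π)
      (fun x _ => dsq x) ((continuous_const.mul cb).intervalIntegrable _ _)
    rw [intervalIntegral.integral_const_mul, p0, sub_self] at this
    linarith
  have e1 : (∫ x in (0 : ℝ)..(2 * π), b x * Real.cos x) = 0 := by
    have h1 : ∀ x, HasDerivAt (fun x => hC h C x ^ 2 * Real.cos x)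
        (2 * (b x * Real.cos x) - hC h C x ^ 2 * Real.sin x) x := fun x => by
      refine ((dsq x).mul (Real.hasDerivAt_cos x)).congr_deriv ?_
      ring
    have := intervalIntegral.integral_eq_sub_of_hasDerivAt (a := 0) (b := 2 * π)
      (fun x _ => h1 x) ((by fun_prop : Continuous fun x =>
        2 * (b x * Real.cos x) - hC h C x ^ 2 * Real.sin x).intervalIntegrable _ _)
    rw [intervalIntegral.integral_sub
      ((by fun_prop : Continuous fun x => 2 * (b x * Real.cos x)).intervalIntegrable _ _)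
      ((by fun_prop : Continuous fun x => hC h C x ^ 2 * Real.sin x).intervalIntegrable _ _),
      intervalIntegral.integral_const_mul, p0, hC2, Real.cos_two_pi, Real.cos_zero] at this
    linarith
  have e2 : (∫ x in (0 : ℝ)..(2 * π), b x * Real.sin x) = 0 := by
    have h1 : ∀ x, HasDerivAt (fun x => hC h C x ^ 2 * Real.sin x)
        (2 * (b x * Real.sin x) + hC h C x ^ 2 * Real.cos x) x := fun x => by
      refine ((dsq x).mul (Real.hasDerivAt_sin x)).congr_deriv ?_
      ring
    have := intervalIntegral.integral_eq_sub_of_hasDerivAt (a := 0) (b := 2 * π)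
      (fun x _ => h1 x) ((by fun_prop : Continuous fun x =>
        2 * (b x * Real.sin x) + hC h C x ^ 2 * Real.cos x).intervalIntegrable _ _)
    rw [intervalIntegral.integral_add
      ((by fun_prop : Continuous fun x => 2 * (b x * Real.sin x)).intervalIntegrable _ _)
      ((by fun_prop : Continuous fun x => hC h C x ^ 2 * Real.cos x).intervalIntegrable _ _),
      intervalIntegral.integral_const_mul, p0, hC1, Real.sin_two_pi, Real.sin_zero] at this
    linarith
  have e3 : (∫ x in (0 : ℝ)..(2 * π), b' x ^ 2) ≤ 4 * (∫ x in (0 : ℝ)..(2 * π), b x ^ 2) := by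
    have h1 : (∫ x in (0 : ℝ)..(2 * π), (b' x ^ 2 - 4 * b x ^ 2)) ≤ 0 := by
      by_contra hcon
      push Not at hcon
      have : 0 < (π / 12) * (∫ x in (0 : ℝ)..(2 * π), (b' x ^ 2 - 4 * b x ^ 2)) := by positivity
      have h2 : (π / 12) * (∫ x in (0 : ℝ)..(2 * π), (b' x ^ 2 - 4 * b x ^ 2)) ≤
        -∫ x in (0 : ℝ)..(2 * π), Psi3 (hC h C x) (tC t C x) (r x) (σ 1 x) := hk
      linarith
    rw [intervalIntegral.integral_sub
      ((by fun_prop : Continuous fun x => b' x ^ 2).intervalIntegrable _ _)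
      ((by fun_prop : Continuous fun x => 4 * b x ^ 2).intervalIntegrable _ _),
      intervalIntegral.integral_const_mul] at h1
    linarith
  have hbper : ∀ x, b (x + 2 * π) = b x := fun x => by
    simp only [hb]; rw [hsC.hp, hsC.tp]
  obtain ⟨α, β, hαβ⟩ := Hwirt b b' db cb' hbper e0 e1 e2 e3
  -- the mean value of `hC`
  have hmean : 0 < ∫ x in (0 : ℝ)..(2 * π), hC h C x := by
    have h1 : (∫ x in (0 : ℝ)..(2 * π), hC h C x) = ∫ x in (0 : ℝ)..(2 * π), h x := by
      unfold hC
      rw [intervalIntegral.integral_sub (ch.intervalIntegrable _ _)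
        ((by fun_prop : Continuous fun x =>
          C.re * Real.cos x + C.im * Real.sin x).intervalIntegrable _ _),
        intervalIntegral.integral_add
        ((by fun_prop : Continuous fun x => C.re * Real.cos x).intervalIntegrable _ _)
        ((by fun_prop : Continuous fun x => C.im * Real.sin x).intervalIntegrable _ _),
        intervalIntegral.integral_const_mul, intervalIntegral.integral_const_mul]
      simp
    rw [h1]
    exact intervalIntegral.intervalIntegral_pos_of_pos_on (ch.intervalIntegrable _ _)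
      (fun x _ => hF.hpos x) (by positivity)
  obtain ⟨hpos, A, B, D, hA, hB, hQ⟩ := Hell _ _ _ hsC hmean ⟨α, β, hαβ⟩
  -- the integral vanishes
  have hzero : (∫ x in (0 : ℝ)..(2 * π), Psi3 (hC h C x) (tC t C x) (r x) (σ 1 x)) ≤ 0 := by
    have e4 : (∫ x in (0 : ℝ)..(2 * π), (b' x ^ 2 - 4 * b x ^ 2)) = 0 := by
      -- explicit values
      have hb2 : ∀ x, b' x = -(2 * α) * Real.sin (2 * x) + 2 * β * Real.cos (2 * x) := by
        intro x
        have h1 : HasDerivAt (fun x => α * Real.cos (2 * x) + β * Real.sin (2 * x))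
            (-(2 * α) * Real.sin (2 * x) + 2 * β * Real.cos (2 * x)) x := by
          have h2 : HasDerivAt (fun x : ℝ => 2 * x) 2 x := by
            simpa using (hasDerivAt_id x).const_mul 2
          refine ((h2.cos.const_mul α).add (h2.sin.const_mul β)).congr_deriv ?_
          ring
        have h3 : b = fun x => α * Real.cos (2 * x) + β * Real.sin (2 * x) := funext hαβ
        have h4 := db x
        rw [h3] at h4
        exact h4.unique h1
      have h5 : ∀ x, b' x ^ 2 - 4 * b x ^ 2 =
          4 * (β ^ 2 - α ^ 2) * Real.cos (4 * x) - 8 * (α * β) * Real.sin (4 * x) := by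
        intro x
        have e4x : Real.cos (4 * x) = Real.cos (2 * x) ^ 2 - Real.sin (2 * x) ^ 2 := by
          rw [show 4 * x = 2 * (2 * x) by ring, Real.cos_two_mul', ]
        have e4y : Real.sin (4 * x) = 2 * Real.sin (2 * x) * Real.cos (2 * x) := by
          rw [show 4 * x = 2 * (2 * x) by ring, Real.sin_two_mul]
        rw [hb2 x, hαβ x, e4x, e4y]; ring
      have h6 : ∀ x, HasDerivAt (fun x => (β ^ 2 - α ^ 2) * Real.sin (4 * x) +
          2 * (α * β) * Real.cos (4 * x))
          (4 * (β ^ 2 - α ^ 2) * Real.cos (4 * x) - 8 * (α * β) * Real.sin (4 * x)) x := by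
        intro x
        have h2 : HasDerivAt (fun x : ℝ => 4 * x) 4 x := by
          simpa using (hasDerivAt_id x).const_mul 4
        refine ((h2.sin.const_mul _).add (h2.cos.const_mul _)).congr_deriv ?_
        ring
      rw [intervalIntegral.integral_congr (fun x _ => h5 x)]
      rw [intervalIntegral.integral_eq_sub_of_hasDerivAt (a := 0) (b := 2 * π)
        (fun x _ => h6 x) (by
          apply Continuous.intervalIntegrable
          fun_prop)]
      have s8 : Real.sin (4 * (2 * π)) = 0 := by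
        have := Real.sin_nat_mul_pi 8
        rw [show 4 * (2 * π) = ((8 : ℕ) : ℝ) * π by push_cast; ring]
        exact this
      have c8 : Real.cos (4 * (2 * π)) = 1 := by
        have := Real.cos_nat_mul_two_pi 4
        rw [show 4 * (2 * π) = ((4 : ℕ) : ℝ) * (2 * π) by push_cast; ring]
        exact this
      rw [s8, c8]; simp
    have h2 : (π / 12) * (∫ x in (0 : ℝ)..(2 * π), (b' x ^ 2 - 4 * b x ^ 2)) ≤
      -∫ x in (0 : ℝ)..(2 * π), Psi3 (hC h C x) (tC t C x) (r x) (σ 1 x) := hk
    rw [e4, mul_zero] at h2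
    linarith
  have heq := hI2 hzero
  have hsin := Hleaf _ _ _ σ u hsC hpos hF.sc hF.spos hF.sd heq
  exact Hgeo γ Y h t r G G1 G2 σ u v hF hY.leaf_zero C A B D hA hB hpos hQ hsin

end Pool.Agent.H97.IN
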