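import Pool.Agent.H97.IN.Defs

/-!
Statements of the analytic lemmas (project IN, MP_ae5b4e_an).  Each `S_x` is to be proved as
`theorem x : S_x` in its own file `Pool/Agent/H97/IN/X.lean`.
-/

set_option autoImplicit false

open Set MeasureTheory Filter Topology
open scoped Real

namespace Pool.Agent.H97.IN

/-- IN-HOPF: the integrated identity on one leaf.
Proof.  Differentiating the relations for `G` gives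
`G1 (x + d) (1 + u) = (t cos d - h sin d) (1 + u) + r sin d` and
`G1 (x - d) (1 - u) = (t cos d + h sin d) (1 - u) - r sin d`.
The integral of the `2 π`-periodic function `G² G1 G2` over a period is computed by the substitutions
`φ = x + d x` and `φ = x - d x` (as `hopf_int` in `Pool/Agent/H97/OC/Hopf.lean`); equality of the two
results, written with `p = h cos d + t sin d`, `m = h cos d - t sin d`, is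
`∫ v r sin d [p² (h sin d - t cos d) + m² (h sin d + t cos d)] =
 ∫ v r² sin² d [p² / (1 + u) + m² / (1 - u)]`.
Subtract `2 ∫ v r² h² sin² d cos² d`; pointwise the left-hand side is `QQ3 v` and the right-hand
side `NN3 v` (because `(1 + u) m - (1 - u) p = 2 (u h cos d - t sin d)`). -/
def S_hopf3 : Prop := ∀ (h t r d u v G G1 G2 : ℝ → ℝ), Supp3 h t r →
  Continuous u → Continuous v → Continuous G1 → Continuous G2 →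
  (∀ x, HasDerivAt d (u x) x) → (∀ x, |u x| < 1) → (∀ x, d (x + 2 * π) = d x) →
  (∀ φ, G (φ + 2 * π) = G φ) → (∀ φ, G2 (φ + 2 * π) = G2 φ) →
  (∀ φ, HasDerivAt G (G1 φ) φ) →
  (∀ x, G (x + d x) = h x * Real.cos (d x) + t x * Real.sin (d x)) →
  (∀ x, G (x - d x) = h x * Real.cos (d x) - t x * Real.sin (d x)) →
  (∀ x, G2 (x + d x) * (1 + u x) = v x * (r x * Real.sin (d x))) →
  (∀ x, G2 (x - d x) * (1 - u x) = v x * (r x * Real.sin (d x))) →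
  ∫ x in (0 : ℝ)..(2 * π), QQ3 (h x) (t x) (r x) (d x) * v x =
    ∫ x in (0 : ℝ)..(2 * π), NN3 (h x) (t x) (r x) (d x) (u x) * v x

/-- IN-MONO: monotonicity of `c ↦ ∫ Psi3 (σ c x) dx` and the equality case (compare
`Pool/Agent/H97/OC/Mono.lean`). -/
def S_mono3 : Prop := ∀ (h t r : ℝ → ℝ) (σ v : ℝ → ℝ → ℝ), Supp3 h t r →
  ContinuousOn (fun x : ℝ × ℝ => σ x.1 x.2) (Icc 0 1 ×ˢ univ) →
  ContinuousOn (fun x : ℝ × ℝ => v x.1 x.2) (Ioo 0 1 ×ˢ univ) →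
  (∀ c ∈ Ioo (0 : ℝ) 1, ∀ x, HasDerivAt (fun c => σ c x) (v c x) c) →
  (∀ x, σ 0 x = 0) →
  (∀ c ∈ Ioo (0 : ℝ) 1,
    0 ≤ ∫ x in (0 : ℝ)..(2 * π), QQ3 (h x) (t x) (r x) (σ c x) * v c x) →
  0 ≤ (∫ x in (0 : ℝ)..(2 * π), Psi3 (h x) (t x) (r x) (σ 1 x)) ∧
  ((∫ x in (0 : ℝ)..(2 * π), Psi3 (h x) (t x) (r x) (σ 1 x)) ≤ 0 →
    ∀ c ∈ Ioo (0 : ℝ) 1,
      ∫ x in (0 : ℝ)..(2 * π), QQ3 (h x) (t x) (r x) (σ c x) * v c x = 0)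

/-- IN-TRIG: the trigonometric inequality behind IN-POINT.
Proof.  `8 (AA d - π / 24) = g d`, `g d = d - π / 3 - sin (4 d) / 4`, is nondecreasing.  `y ≤ 3π/8`
gives `x ≥ π / 4`; put `τ = x - π / 4 ≥ 0`, so `g x = -π / 12 + τ + sin (4 τ) / 4 < 0`, hence
`τ < 0.14`; `g y ≥ g (3 π / 8 - τ) = π / 24 - τ + cos (4 τ) / 4 > 0`,
`sin³ y cos y ≤ 3 √3 / 16 < 0.325`, `sin x cos³ x = cos (2 τ) (1 - sin (2 τ)) / 4`; then bound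
`cos (2 τ) ≥ 1 - 2 τ²`, `sin (2 τ) ≤ 2 τ`, `cos (4 τ) ≥ 1 - 8 τ²`, `sin (4 τ) ≥ 4 τ - 32/3 τ³` and
compare polynomials on `[0, 0.14]` (`0.0952` against `0.0851` at `τ = 0`, the difference grows). -/
def S_trig : Prop := ∀ x y : ℝ, 0 < x → 0 < y → x ≤ 3 * π / 8 → y ≤ 3 * π / 8 →
  5 * π / 8 ≤ x + y → AA x < π / 24 →
  π / 24 < AA y ∧
    Real.sin y ^ 3 * Real.cos y * (π / 24 - AA x) ≤
      Real.sin x * Real.cos x ^ 3 * (AA y - π / 24)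

/-- IN-POINT: the pointwise inequality.  Put `n = sin d cos d`, `Γ = ∑ cot (d i) (g i)`.
Proof.  If all `AA (d i) ≥ π / 24` it is trivial.  Otherwise, by symmetry, `AA d₁ < π / 24`, and by
S_trig (for `(d₁, d₂)` and `(d₁, d₃)`, as the third angle is `≤ 3 π / 8`) the other two are
`> π / 24`.  With `α i = AA (d i) - π / 24`, Cauchy-Schwarz gives
`(n₂ v₂ + n₃ v₃)² ≤ (n₂² g₂ / α₂ + n₃² g₃ / α₃) (α₂ v₂² / g₂ + α₃ v₃² / g₃)`, so it is enough that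
`n₁² g₁ / |α₁| ≥ n₂² g₂ / α₂ + n₃² g₃ / α₃`.  Here `n_j² g_j / α_j = (sin³ cos / α)_j (cot_j g_j)
≤ K cot_j g_j` with `K = sin d₁ cos³ d₁ / |α₁|` (S_trig), and
`cot₂ g₂ + cot₃ g₃ = Γ - cot₁ g₁ ≤ Γ (1 - cos² d₁) = Γ sin² d₁` and `g₁ ≥ n₁ Γ`, so the right-hand
side is `≤ K Γ sin² d₁ = n₁³ Γ / |α₁| ≤ n₁² g₁ / |α₁|`. -/
def S_point : Prop := ∀ d₁ d₂ d₃ g₁ g₂ g₃ v₁ v₂ v₃ Γ : ℝ, 0 < d₁ → 0 < d₂ → 0 < d₃ →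
  d₁ ≤ 3 * π / 8 → d₂ ≤ 3 * π / 8 → d₃ ≤ 3 * π / 8 → d₁ + d₂ + d₃ = π →
  0 < g₁ → 0 < g₂ → 0 < g₃ →
  Γ = Real.cos d₁ / Real.sin d₁ * g₁ + Real.cos d₂ / Real.sin d₂ * g₂ +
    Real.cos d₃ / Real.sin d₃ * g₃ →
  Real.sin d₁ * Real.cos d₁ * Γ ≤ g₁ → Real.sin d₂ * Real.cos d₂ * Γ ≤ g₂ →
  Real.sin d₃ * Real.cos d₃ * Γ ≤ g₃ →
  Real.sin d₁ * Real.cos d₁ * v₁ + Real.sin d₂ * Real.cos d₂ * v₂ +
    Real.sin d₃ * Real.cos d₃ * v₃ = 0 →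
  0 ≤ (AA d₁ - π / 24) * (v₁ ^ 2 / g₁) + (AA d₂ - π / 24) * (v₂ ^ 2 / g₂) +
    (AA d₃ - π / 24) * (v₃ ^ 2 / g₃)

/-- Twice... the real part `a₁` of `exp (-2 i ψ₁) β`, as a function of the quotients
`y = h / sin d` and the cosines and sines of `d₂`, `d₃`. -/
noncomputable def a3 (y₁ y₂ y₃ c₂ s₂ c₃ s₃ : ℝ) : ℝ :=
  (y₂ * y₃ + y₁ * y₃ * (c₃ ^ 2 - s₃ ^ 2) + y₁ * y₂ * (c₂ ^ 2 - s₂ ^ 2)) / 2

/-- Relations between the data at the three vertices of a 3-periodic triangle: `s`, `c` sine and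
cosine of the angles `d i` (sum `π`), `h i = s i * y i`, `t i`; `g i` the derivatives of the normal
angles, `P i = h i * r i * g i`, `L` half of the perimeter, `Γ = ∑ cot g`. -/
structure Tri (s₁ s₂ s₃ c₁ c₂ c₃ y₁ y₂ y₃ t₁ t₂ t₃ g₁ g₂ g₃ P₁ P₂ P₃ L Γ : ℝ) : Prop where
  p₁ : 0 < s₁
  p₂ : 0 < s₂
  p₃ : 0 < s₃
  q₁ : s₁ ^ 2 + c₁ ^ 2 = 1
  q₂ : s₂ ^ 2 + c₂ ^ 2 = 1
  e₃ : s₃ = s₁ * c₂ + c₁ * s₂
  f₃ : c₃ = s₁ * s₂ - c₁ * c₂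
  T₁ : s₁ * t₁ = s₂ * c₂ * y₂ - s₃ * c₃ * y₃
  T₂ : s₂ * t₂ = s₃ * c₃ * y₃ - s₁ * c₁ * y₁
  T₃ : s₃ * t₃ = s₁ * c₁ * y₁ - s₂ * c₂ * y₂
  L0 : L = s₁ ^ 2 * y₁ + s₂ ^ 2 * y₂ + s₃ ^ 2 * y₃
  Γ0 : Γ = c₁ / s₁ * g₁ + c₂ / s₂ * g₂ + c₃ / s₃ * g₃
  R₁ : s₁ ^ 2 * P₁ = L * y₁ * (g₁ - s₁ * c₁ * Γ)
  R₂ : s₂ ^ 2 * P₂ = L * y₂ * (g₂ - s₂ * c₂ * Γ)
  R₃ : s₃ ^ 2 * P₃ = L * y₃ * (g₃ - s₃ * c₃ * Γ)

/-- IN-KAP: `κ₁ = h₁² - t₁² - 2 a₁ = L (y₁ - σ) / s₁²`, `σ = ∑ c² y`.  (`2 n₂ n₃ - s₁² =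
-(s₂² c₃² + s₃² c₂²)`.) -/
def S_kap : Prop := ∀ s₁ s₂ s₃ c₁ c₂ c₃ y₁ y₂ y₃ t₁ t₂ t₃ g₁ g₂ g₃ P₁ P₂ P₃ L Γ : ℝ,
  Tri s₁ s₂ s₃ c₁ c₂ c₃ y₁ y₂ y₃ t₁ t₂ t₃ g₁ g₂ g₃ P₁ P₂ P₃ L Γ →
  s₁ ^ 2 * ((s₁ * y₁) ^ 2 - t₁ ^ 2 - 2 * a3 y₁ y₂ y₃ c₂ s₂ c₃ s₃) =
    L * (y₁ - (c₁ ^ 2 * y₁ + c₂ ^ 2 * y₂ + c₃ ^ 2 * y₃))

/-- IN-BETA: with `b i = h i * t i = s i * y i * t i` the numbers `(a i + i b i) exp (2 i ψ i)` are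
equal: `a₂ + i b₂ = (a₁ + i b₁) exp (2 i d₃)`, `a₃ + i b₃ = (a₁ + i b₁) exp (-2 i d₂)`. -/
def S_beta : Prop := ∀ s₁ s₂ s₃ c₁ c₂ c₃ y₁ y₂ y₃ t₁ t₂ t₃ g₁ g₂ g₃ P₁ P₂ P₃ L Γ : ℝ,
  Tri s₁ s₂ s₃ c₁ c₂ c₃ y₁ y₂ y₃ t₁ t₂ t₃ g₁ g₂ g₃ P₁ P₂ P₃ L Γ →
  (a3 y₂ y₃ y₁ c₃ s₃ c₁ s₁ = a3 y₁ y₂ y₃ c₂ s₂ c₃ s₃ * (c₃ ^ 2 - s₃ ^ 2) -
    s₁ * y₁ * t₁ * (2 * s₃ * c₃)) ∧
  (s₂ * y₂ * t₂ = a3 y₁ y₂ y₃ c₂ s₂ c₃ s₃ * (2 * s₃ * c₃) +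
    s₁ * y₁ * t₁ * (c₃ ^ 2 - s₃ ^ 2)) ∧
  (a3 y₃ y₁ y₂ c₁ s₁ c₂ s₂ = a3 y₁ y₂ y₃ c₂ s₂ c₃ s₃ * (c₂ ^ 2 - s₂ ^ 2) +
    s₁ * y₁ * t₁ * (2 * s₂ * c₂)) ∧
  (s₃ * y₃ * t₃ = -(a3 y₁ y₂ y₃ c₂ s₂ c₃ s₃ * (2 * s₂ * c₂)) +
    s₁ * y₁ * t₁ * (c₂ ^ 2 - s₂ ^ 2))

/-- IN-STAR: the algebraic identity.  With `n = s c`, `b = s y t`, `κ i = L (y i - σ) / s i²`,
`D i = P i - κ i g i` (so `∑ n D = 0`) and `w = n₁ n₂ (b₂ D₁ - b₁ D₂)`.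
Proof: `s i² t i² = T i²`, `T₁ = n₂ y₂ - n₃ y₃`, … and everything is a rational function of
`u i = c i / s i`, `s i² = 1 / (1 + u i²)`, `u₃ = (1 - u₁ u₂) / (u₁ + u₂)`, `y i`, `g i`. -/
def S_star : Prop := ∀ s₁ s₂ s₃ c₁ c₂ c₃ y₁ y₂ y₃ t₁ t₂ t₃ g₁ g₂ g₃ P₁ P₂ P₃ L Γ σ κ₁ κ₂ κ₃ : ℝ,
  Tri s₁ s₂ s₃ c₁ c₂ c₃ y₁ y₂ y₃ t₁ t₂ t₃ g₁ g₂ g₃ P₁ P₂ P₃ L Γ →
  σ = c₁ ^ 2 * y₁ + c₂ ^ 2 * y₂ + c₃ ^ 2 * y₃ →
  s₁ ^ 2 * κ₁ = L * (y₁ - σ) → s₂ ^ 2 * κ₂ = L * (y₂ - σ) → s₃ ^ 2 * κ₃ = L * (y₃ - σ) →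
  (s₁ * c₁ * (P₁ - κ₁ * g₁) + s₂ * c₂ * (P₂ - κ₂ * g₂) + s₃ * c₃ * (P₃ - κ₃ * g₃) = 0) ∧
  (s₁ * c₁ * (s₁ ^ 2 * t₁ ^ 2 * P₁) + s₂ * c₂ * (s₂ ^ 2 * t₂ ^ 2 * P₂) +
      s₃ * c₃ * (s₃ ^ 2 * t₃ ^ 2 * P₃)) -
    ((s₁ * c₁) ^ 2 * (s₁ * y₁ * t₁ * κ₁) * (g₂ - g₃) +
      (s₂ * c₂) ^ 2 * (s₂ * y₂ * t₂ * κ₂) * (g₃ - g₁) +
      (s₃ * c₃) ^ 2 * (s₃ * y₃ * t₃ * κ₃) * (g₁ - g₂)) =
    s₁ * c₁ * (s₂ * c₂) * (s₂ * y₂ * t₂ * (P₁ - κ₁ * g₁) - s₁ * y₁ * t₁ * (P₂ - κ₂ * g₂))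

/-- The hypotheses on a leaf of 3-periodic orbits: `d` half of the angle between the two sides of the
triangle at the tangent line of normal angle `x`, `u` its derivative, `f` the map of normal angles,
`g` its derivative. -/
structure Leaf3 (h t r d u f g : ℝ → ℝ) : Prop where
  supp : Supp3 h t r
  uc : Continuous u
  gc : Continuous g
  dd : ∀ x, HasDerivAt d (u x) x
  fd : ∀ x, HasDerivAt f (g x) x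
  gpos : ∀ x, 0 < g x
  dpos : ∀ x, 0 < d x
  dlt : ∀ x, d x < π / 2
  dper : ∀ x, d (x + 2 * π) = d x
  fper : ∀ x, f (x + 2 * π) = f x + 2 * π
  f3 : ∀ x, f (f (f x)) = x + 2 * π
  fx : ∀ x, f x - x = d x + d (f x)
  line : ∀ x, h x * Real.cos (d x) + t x * Real.sin (d x) =
    h (f x) * Real.cos (d (f x)) - t (f x) * Real.sin (d (f x))

/-- IN-KIN: kinematics of 3-periodic triangles.
Proof.  `ψ₁ = x`, `ψ₂ = f x`, `ψ₃ = f (f x)`, `ψ₁ + 2 π = f ψ₃`, so `2 ∑ d = 2 π`; with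
`N = h cos d`, `T = t sin d`: `N₁ + T₁ = N₂ - T₂`, … give `T₁ = N₂ - N₃`, ….
`d₁ = ψ₂ - ψ₃ + π`.  The derivative of `∑ h sin d` vanishes.
Differentiating `line`: `r₁ s₁ g₁ + r₂ s₂ g₂ = L₁₂ (g₁ + g₂ - g₃)` with
`L₁₂ = h₁ s₁ - t₁ c₁ + h₂ s₂ + t₂ c₂ = c₃ L / (s₁ s₂)`, and cyclically; solve for `r₁ s₁ g₁`, using
`sin 2d₁ + sin 2d₂ - sin 2d₃ = 4 c₁ c₂ s₃`: `r₁ s₁ g₁ = L (g₁ / s₁² - (c₁ / s₁) Γ)`,
`Γ = ∑ (c/s) g > 0`.  `L > 0`: otherwise `g i ≤ s i c i Γ`, so `Γ ≤ Γ ∑ c² = Γ (1 - 2 c₁ c₂ c₃)`. -/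
def S_kin : Prop := ∀ h t r d u f g : ℝ → ℝ, Leaf3 h t r d u f g →
  (∀ x, g (f (f x)) * (g (f x) * g x) = 1) ∧
  (∀ x, d x + d (f x) + d (f (f x)) = π) ∧
  (∀ x, Real.sin (d x) * t x = h (f x) * Real.cos (d (f x)) -
    h (f (f x)) * Real.cos (d (f (f x)))) ∧
  (∀ x, u x = g x - g (f x) * g x) ∧
  ∃ L : ℝ, 0 < L ∧
    (∀ x, h x * Real.sin (d x) + h (f x) * Real.sin (d (f x)) +
      h (f (f x)) * Real.sin (d (f (f x))) = L) ∧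
    (∀ x, r x * Real.sin (d x) ^ 3 = L * (1 - Real.sin (d x) * Real.cos (d x) *
      (Real.cos (d x) / Real.sin (d x) + Real.cos (d (f x)) / Real.sin (d (f x)) * g x +
        Real.cos (d (f (f x))) / Real.sin (d (f (f x))) * (g (f x) * g x))))

/-- IN-KEY: the inequality on the leaf of 3-periodic orbits (any centre; `h` may have any sign).

Proof.  With parameter `x`, `ψ₁ = x`, `ψ₂ = f x`, `ψ₃ = f (f x)`, `g₁ = 1`, `g₂ = g x`,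
`g₃ = g (f x) g x` the data `h i, t i, r i, d i, s i, c i`, `y i = h i / s i`, `P i = h i r i g i`
satisfy `Tri` (S_kin at `x`, `f x`, `f (f x)`).  Put `a i` = a3 (cyclic), `b i = h i t i`,
`κ i = h i² - t i² - 2 a i`, `δ i = h i r i - κ i`, `b˙ i = t i² + h i (r i - h i)` (so
`δ i = b˙ i + 2 a i`), `n i = s i c i`, `A i = AA (d i)`.  `β = (a i + i b i) exp (2 i ψ i)` does
not depend on `i` (S_beta); let `β'` be its derivative, `ω = Im (conj β β')`,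
`p i = Re (exp (-2 i ψ i) β')`.  Then `Im (exp (-2 i ψ i) β') = δ i g i`, `a i' = p i + 2 b i g i`,
`ω = a i δ i g i - b i p i`, `2 n₃ ω = b₂ δ₁ g₁ - b₁ δ₂ g₂`.
(1) `(b i κ i)' / 4 = E i g i + ω / 2`, `E = (δ (h² - 3 t² - 4 a) - 2 κ (t² + a)) / 4` (`ring`).
(2) `8 ∑ A i = π + 8 n₁ n₂ n₃` and `(A i)' = n i² (d i)'`, `(d₁)' = g₂ - g₃`, …; with (1) and S_star
`(2 ∑ A b κ)' = ∑ g (8 A E + 2 n s² t² h r) + (π / 2) ω`.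
(3) `BB = 4 AA - n s²`, so `-Psi3 = 2 A h r (h r - h² - t²) + 2 n s² t² h r =
2 A δ² + 8 A E + 2 n s² t² h r` (`ring`).  Hence `∑ -Psi3 g = 2 ∑ A δ² g + (2 ∑ A b κ)' - (π/2) ω`.
(4) `∑ (b˙² - 4 b²) g = ∑ δ² g - 6 ω - 2 (∑ a b)'` (`ring`).
(5) So `∑ -Psi3 g = 2 ∑ (A - π/24) δ² g + (π/12) ∑ (b˙² - 4 b²) g + (2 ∑ A b κ + (π/6) ∑ a b)'`.
Integrate over `[0, 2 π]`: the derivative of a periodic function integrates to `0`,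
`∫ ∑ X(ψ i) g i = 3 ∫ X` for periodic `X` (substitution `f`), and `∑ (A - π/24) δ² g ≥ 0` by
S_point with `v i = δ i g i` (S_star gives `∑ n v = 0`; `g i ≥ n i Γ` from `r > 0`, `L > 0`). -/
def S_key : Prop := ∀ h t r d u f g : ℝ → ℝ, Leaf3 h t r d u f g → (∀ x, d x ≤ 3 * π / 8) →
  (π / 12) * (∫ x in (0 : ℝ)..(2 * π),
    ((t x ^ 2 + h x * (r x - h x)) ^ 2 - 4 * (h x * t x) ^ 2)) ≤
    -∫ x in (0 : ℝ)..(2 * π), Psi3 (h x) (t x) (r x) (d x)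

/-- IN-WIRT: Wirtinger's inequality, second level, with the equality case. -/
def S_wirt : Prop := ∀ b b' : ℝ → ℝ, (∀ x, HasDerivAt b (b' x) x) → Continuous b' →
  (∀ x, b (x + 2 * π) = b x) →
  (∫ x in (0 : ℝ)..(2 * π), b x) = 0 → (∫ x in (0 : ℝ)..(2 * π), b x * Real.cos x) = 0 →
  (∫ x in (0 : ℝ)..(2 * π), b x * Real.sin x) = 0 →
  (∫ x in (0 : ℝ)..(2 * π), b' x ^ 2) ≤ 4 * (∫ x in (0 : ℝ)..(2 * π), b x ^ 2) →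
  ∃ α β : ℝ, ∀ x, b x = α * Real.cos (2 * x) + β * Real.sin (2 * x)

/-- IN-CENTER: the centre.  `hC² = h² - 2 h (C·e) + (C·e)²`, and the last term is orthogonal to
`cos`, `sin`; the linear system has the positive definite matrix `∫ h e eᵀ`. -/
def S_center : Prop := ∀ h : ℝ → ℝ, Continuous h → (∀ x, 0 < h x) →
  ∃ C : ℂ, (∫ x in (0 : ℝ)..(2 * π), hC h C x ^ 2 * Real.cos x) = 0 ∧
    (∫ x in (0 : ℝ)..(2 * π), hC h C x ^ 2 * Real.sin x) = 0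

/-- IN-ELL: `(h²)' = 2 h t` in the span of `cos 2x`, `sin 2x` means that the table is an ellipse with
centre at the chosen point.
Proof.  `h² = Q` is a trigonometric polynomial with frequencies `0, 2`.  If it had a zero `x₀`, then
`Q = k sin² (x - x₀)`; `h` is differentiable, so `h = ± √k sin (x - x₀)` everywhere or on the
intervals between zeros (with derivative `t` continuous at `x₀` the same sign on both sides or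
`k = 0`), and `r = h + h'' = 0`, contradiction.  So `h` has a constant sign, which is positive. -/
def S_ell : Prop := ∀ h t r : ℝ → ℝ, Supp3 h t r → 0 < (∫ x in (0 : ℝ)..(2 * π), h x) →
  (∃ α β : ℝ, ∀ x, h x * t x = α * Real.cos (2 * x) + β * Real.sin (2 * x)) →
  (∀ x, 0 < h x) ∧ ∃ A B D : ℝ, 0 < A ∧ B ^ 2 < A * D ∧
    ∀ x, h x ^ 2 = A * Real.cos x ^ 2 + 2 * B * (Real.cos x * Real.sin x) + D * Real.sin x ^ 2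

end Pool.Agent.H97.IN
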