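import Pool.Agent.H97.IN.Stubs2

/-!
# IN-TABLE: the dual table
-/

set_option autoImplicit false

open Set MeasureTheory Filter Topology Complex
open scoped Real

namespace Pool.Agent.H97.IN

open Pool.Agent.H97.OB Pool.Agent.H97.OC

namespace Table

lemma cs {p q : ℝ} (hp : 0 < p) : Real.cos (Real.arctan (q / p)) = p / √(p ^ 2 + q ^ 2) ∧
    Real.sin (Real.arctan (q / p)) = q / √(p ^ 2 + q ^ 2) := by
  have h1 : √(1 + (q / p) ^ 2) = √(p ^ 2 + q ^ 2) / p := by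
    rw [eq_div_iff hp.ne', ← Real.sqrt_sq hp.le, ← Real.sqrt_mul (by positivity),
      Real.sqrt_sq hp.le]
    congr 1
    field_simp
  have h2 : 0 < √(p ^ 2 + q ^ 2) := Real.sqrt_pos.2 (by positivity)
  rw [Real.cos_arctan, Real.sin_arctan, h1]
  constructor <;> field_simp

lemma polar {p q : ℝ} (hp : 0 < p) (θ : ℝ) : ((p : ℂ) + (q : ℂ) * I) * exp (θ * I) =
    ((√(p ^ 2 + q ^ 2) : ℝ) : ℂ) * exp (((θ + Real.arctan (q / p) : ℝ) : ℂ) * I) := by
  obtain ⟨hc, hs⟩ := cs (q := q) hp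
  have h2 : (√(p ^ 2 + q ^ 2) : ℝ) ≠ 0 := (Real.sqrt_pos.2 (by positivity)).ne'
  have h3 : exp ((Real.arctan (q / p) : ℝ) * I) = ((p / √(p ^ 2 + q ^ 2) : ℝ) : ℂ) +
      ((q / √(p ^ 2 + q ^ 2) : ℝ) : ℂ) * I := by
    rw [exp_mul_I, ← ofReal_cos, ← ofReal_sin, hc, hs]
  have h4 : exp (((θ + Real.arctan (q / p) : ℝ) : ℂ) * I) = exp (θ * I) *
      exp ((Real.arctan (q / p) : ℝ) * I) := by
    rw [← exp_add]; congr 1; push_cast; ring
  have h5 : ((√(p ^ 2 + q ^ 2) : ℝ) : ℂ) ≠ 0 := by exact_mod_cast h2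
  rw [h4, h3]
  push_cast
  field_simp

/-- the polar angle -/
noncomputable def psi (p q : ℝ → ℝ) (θ : ℝ) : ℝ := θ + Real.arctan (q θ / p θ)

variable {p q ρ : ℝ → ℝ}

lemma psi_deriv (hp : ∀ θ, 0 < p θ) (dp : ∀ θ, HasDerivAt p (q θ) θ)
    (dq : ∀ θ, HasDerivAt q (ρ θ - p θ) θ) (θ : ℝ) :
    HasDerivAt (psi p q) (p θ * ρ θ / (p θ ^ 2 + q θ ^ 2)) θ := by
  have h1 := ((dq θ).div (dp θ) (hp θ).ne').arctan
  have h2 := (hasDerivAt_id θ).add h1
  refine HasDerivAt.congr_deriv (f := psi p q) h2 ?_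
  have h3 := (hp θ).ne'
  have h4 : p θ ^ 2 + q θ ^ 2 ≠ 0 := by have := hp θ; positivity
  have h5 : 1 + (q θ / p θ) ^ 2 ≠ 0 := by positivity
  have h6 : 1 + (q θ / p θ) ^ 2 = (p θ ^ 2 + q θ ^ 2) / p θ ^ 2 := by field_simp
  simp only [Pi.div_apply]
  rw [h6]
  field_simp
  ring

end Table

open Table in
theorem table : S_table := by
  intro γ ρ hov hsp
  have hS := supp_of_oval hov hsp
  set p := sp γ with hpd
  set q := OC.sq γ with hqd
  have dp := fun θ => (sp_hasDerivAt hov θ).1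
  have dq := fun θ => (sp_hasDerivAt hov θ).2
  have cp : Continuous p := continuous_iff_continuousAt.2 fun θ => (dp θ).continuousAt
  have cq : Continuous q := continuous_iff_continuousAt.2 fun θ => (dq θ).continuousAt
  have cρ := hov.cont
  have dψ := psi_deriv (p := p) (q := q) hsp dp dq
  have cψ : Continuous (psi p q) := continuous_iff_continuousAt.2 fun θ => (dψ θ).continuousAt
  have hpos : ∀ θ, 0 < p θ * ρ θ / (p θ ^ 2 + q θ ^ 2) := fun θ => by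
    have h1 := hsp θ
    have h2 := hov.pos θ
    have h3 : 0 < p θ ^ 2 + q θ ^ 2 := by positivity
    exact div_pos (mul_pos h1 h2) h3
  have hmono : StrictMono (psi p q) := by
    refine strictMono_of_deriv_pos fun θ => ?_
    rw [(dψ θ).deriv]
    exact hpos θ
  have hsurj : Function.Surjective (psi p q) := by
    have hb : ∀ x, |psi p q x - x| ≤ π / 2 := by
      intro x
      unfold psi
      rw [add_sub_cancel_left, abs_le]
      exact ⟨(Real.neg_pi_div_two_lt_arctan _).le, (Real.arctan_lt_pi_div_two _).le⟩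
    apply cψ.surjective
    · refine tendsto_atTop.2 fun b => ?_
      filter_upwards [eventually_ge_atTop (b + π / 2)] with x hx
      have := (abs_le.1 (hb x)).1
      linarith
    · refine tendsto_atBot.2 fun b => ?_
      filter_upwards [eventually_le_atBot (b - π / 2)] with x hx
      have := (abs_le.1 (hb x)).2
      linarith
  let e := StrictMono.orderIsoOfSurjective (psi p q) hmono hsurj
  obtain ⟨ϑ, hϑ⟩ : ∃ ϑ : ℝ → ℝ, ϑ = e.symm := ⟨_, rfl⟩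
  have cϑ : Continuous ϑ := by rw [hϑ]; exact e.symm.continuous
  have hr : ∀ x, psi p q (ϑ x) = x := fun x => by
    rw [hϑ]
    exact e.apply_symm_apply x
  have hl : ∀ θ, ϑ (psi p q θ) = θ := fun θ => by
    rw [hϑ]
    exact e.symm_apply_apply θ
  have hper : ∀ θ, psi p q (θ + 2 * π) = psi p q θ + 2 * π := by
    intro θ
    unfold psi
    rw [hS.pp θ, hS.qp θ]
    ring
  have ϑper : ∀ x, ϑ (x + 2 * π) = ϑ x + 2 * π := by
    intro x
    have h1 := hper (ϑ x)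
    rw [hr] at h1
    rw [← h1, hl]
  have dϑ : ∀ x, HasDerivAt ϑ ((p (ϑ x) * ρ (ϑ x) / (p (ϑ x) ^ 2 + q (ϑ x) ^ 2))⁻¹) x := by
    intro x
    exact HasDerivAt.of_local_left_inverse cϑ.continuousAt (dψ (ϑ x)) (hpos (ϑ x)).ne'
      (Eventually.of_forall hr)
  -- the radius
  obtain ⟨R, hR⟩ : ∃ R : ℝ → ℝ, ∀ θ, R θ = √(p θ ^ 2 + q θ ^ 2) := ⟨_, fun _ => rfl⟩
  have Rpos : ∀ θ, 0 < R θ := fun θ => by
    rw [hR]
    have := hsp θ
    exact Real.sqrt_pos.2 (by positivity)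
  have Rsq : ∀ θ, R θ ^ 2 = p θ ^ 2 + q θ ^ 2 := fun θ => by
    rw [hR, Real.sq_sqrt (by positivity)]
  have cR : Continuous R := by
    have : R = fun θ => √(p θ ^ 2 + q θ ^ 2) := funext hR
    rw [this]
    fun_prop
  have dR : ∀ θ, HasDerivAt R (q θ * ρ θ / R θ) θ := by
    intro θ
    have h1 : HasDerivAt (fun θ => p θ ^ 2 + q θ ^ 2)
        (2 * p θ * q θ + 2 * q θ * (ρ θ - p θ)) θ := by
      have := ((dp θ).pow 2).add ((dq θ).pow 2)
      refine this.congr_deriv ?_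
      simp only [Nat.cast_ofNat, Nat.add_one_sub_one, pow_one]
      rfl
    have h2 := h1.sqrt (by rw [← Rsq]; exact (pow_pos (Rpos θ) 2).ne')
    have h3 : R = fun θ => √(p θ ^ 2 + q θ ^ 2) := funext hR
    rw [h3]
    refine h2.congr_deriv ?_
    have h4 := (Rpos θ).ne'
    rw [hR] at h4
    beta_reduce
    field_simp
    ring
  have hinv : ∀ x, (p (ϑ x) * ρ (ϑ x) / (p (ϑ x) ^ 2 + q (ϑ x) ^ 2))⁻¹ =
      R (ϑ x) ^ 2 / (p (ϑ x) * ρ (ϑ x)) := by
    intro x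
    rw [← Rsq, inv_div]
  have hRper : ∀ θ, R (θ + 2 * π) = R θ := fun θ => by
    rw [hR, hR, hS.pp θ, hS.qp θ]
  have dh : ∀ x, HasDerivAt (fun x => 1 / R (ϑ x)) (-q (ϑ x) / (p (ϑ x) * R (ϑ x))) x := by
    intro x
    have h1 := (dR (ϑ x)).comp x (dϑ x)
    have h2 := h1.inv (Rpos (ϑ x)).ne'
    have h3 : (fun x => 1 / R (ϑ x)) = (R ∘ ϑ)⁻¹ := by
      funext y
      simp
    rw [h3]
    refine h2.congr_deriv ?_
    rw [hinv]
    have a1 := (Rpos (ϑ x)).ne'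
    have a2 := (hsp (ϑ x)).ne'
    have a3 := (hov.pos (ϑ x)).ne'
    simp only [Function.comp_apply]
    field_simp
  have dt : ∀ x, HasDerivAt (fun x => -q (ϑ x) / (p (ϑ x) * R (ϑ x)))
      (R (ϑ x) ^ 3 / (p (ϑ x) ^ 3 * ρ (ϑ x)) - 1 / R (ϑ x)) x := by
    intro x
    have h1 := (dq (ϑ x)).comp x (dϑ x)
    have h2 := (dp (ϑ x)).comp x (dϑ x)
    have h3 := (dR (ϑ x)).comp x (dϑ x)
    have a1 := (Rpos (ϑ x)).ne'
    have a2 := (hsp (ϑ x)).ne'
    have a3 := (hov.pos (ϑ x)).ne'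
    have h4 := h1.neg.div (h2.mul h3) (mul_ne_zero a2 a1)
    refine HasDerivAt.congr_deriv (f := fun x => -q (ϑ x) / (p (ϑ x) * R (ϑ x))) h4 ?_
    rw [hinv]
    simp only [Function.comp_apply, Pi.mul_apply, Pi.neg_apply]
    have hsq := Rsq (ϑ x)
    change (-((ρ (ϑ x) - p (ϑ x)) * (R (ϑ x) ^ 2 / (p (ϑ x) * ρ (ϑ x)))) *
      (p (ϑ x) * R (ϑ x)) - -q (ϑ x) * (q (ϑ x) * (R (ϑ x) ^ 2 / (p (ϑ x) * ρ (ϑ x))) *
      R (ϑ x) + p (ϑ x) * (q (ϑ x) * ρ (ϑ x) / R (ϑ x) * (R (ϑ x) ^ 2 / (p (ϑ x) * ρ (ϑ x)))))) /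
      (p (ϑ x) * R (ϑ x)) ^ 2 = _
    generalize R (ϑ x) = r at *
    generalize p (ϑ x) = p0 at *
    generalize q (ϑ x) = q0 at *
    generalize ρ (ϑ x) = ρ0 at *
    have hq2 : q0 ^ 2 = r ^ 2 - p0 ^ 2 := by linarith
    field_simp
    ring_nf
    rw [hq2]
    ring
  refine ⟨fun x => 1 / R (ϑ x), fun x => -q (ϑ x) / (p (ϑ x) * R (ϑ x)),
    fun x => R (ϑ x) ^ 3 / (p (ϑ x) ^ 3 * ρ (ϑ x)), ϑ,
    fun x => R (ϑ x) ^ 2 / (p (ϑ x) * ρ (ϑ x)), ?_, ?_, ?_, ?_, ?_, ϑper, ?_, ?_, ?_, ?_⟩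
  · refine ⟨?_, ?_, dh, dt, ?_, ?_, ?_⟩
    · refine Continuous.div (by fun_prop) (by fun_prop) fun x => ?_
      exact mul_ne_zero (pow_ne_zero 3 (hsp (ϑ x)).ne') (hov.pos (ϑ x)).ne'
    · intro x
      have a1 := Rpos (ϑ x)
      have a2 := hsp (ϑ x)
      have a3 := hov.pos (ϑ x)
      have a2' : 0 < p (ϑ x) := a2
      positivity
    · intro x
      beta_reduce
      rw [ϑper, hRper]
    · intro x
      beta_reduce
      rw [ϑper, hRper, hS.pp (ϑ x), hS.qp (ϑ x)]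
    · intro x
      beta_reduce
      rw [ϑper, hRper, hS.pp (ϑ x), hS.rp (ϑ x)]
  · intro x
    exact one_div_pos.2 (Rpos _)
  · refine Continuous.div (by fun_prop) (by fun_prop) fun x => ?_
    exact mul_ne_zero (hsp (ϑ x)).ne' (hov.pos (ϑ x)).ne'
  · intro x
    have a1 := Rpos (ϑ x)
    have a2 : 0 < p (ϑ x) := hsp (ϑ x)
    have a3 := hov.pos (ϑ x)
    positivity
  · intro x
    have := dϑ x
    rw [hinv] at this
    exact this
  · exact hr
  · exact hl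
  · intro z
    have key : ∀ θ, γ θ = exp (((psi p q θ : ℝ) : ℂ) * I) / ((1 / R θ : ℝ) : ℂ) := by
      intro θ
      rw [gam_eq γ θ, polar (hsp θ) θ, hR θ]
      have h1 : ((√(p θ ^ 2 + q θ ^ 2) : ℝ) : ℂ) ≠ 0 := by
        have := Rpos θ
        rw [hR] at this
        exact_mod_cast this.ne'
      change ((√(p θ ^ 2 + q θ ^ 2) : ℝ) : ℂ) * exp (((psi p q θ : ℝ) : ℂ) * I) = _
      push_cast
      field_simp
    constructor
    · rintro ⟨θ, rfl⟩
      refine ⟨psi p q θ, ?_⟩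
      beta_reduce
      rw [hl]
      exact key θ
    · rintro ⟨x, rfl⟩
      refine ⟨ϑ x, ?_⟩
      have := key (ϑ x)
      rw [hr] at this
      exact this
  · intro x s δ hδ
    have hx : x = ϑ x + Real.arctan (q (ϑ x) / p (ϑ x)) := (hr x).symm
    obtain ⟨c1, s1⟩ := cs (q := q (ϑ x)) (hsp (ϑ x))
    obtain ⟨c2, s2⟩ := cs (q := q (ϑ x) + s) (hsp (ϑ x))
    have hδ2 : δ = Real.arctan ((q (ϑ x) + s) / p (ϑ x)) -
        Real.arctan (q (ϑ x) / p (ϑ x)) := by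
      rw [hδ]
      linarith
    have r1 : 0 < √(p (ϑ x) ^ 2 + (q (ϑ x) + s) ^ 2) := by
      have := hsp (ϑ x)
      have h2 : 0 < p (ϑ x) := this
      exact Real.sqrt_pos.2 (by positivity)
    have main : 1 / R (ϑ x) * Real.cos δ + -q (ϑ x) / (p (ϑ x) * R (ϑ x)) * Real.sin δ =
        1 / √(p (ϑ x) ^ 2 + (q (ϑ x) + s) ^ 2) := by
      rw [hδ2, Real.cos_sub, Real.sin_sub]
      change 1 / R (ϑ x) * (Real.cos (Real.arctan ((q (ϑ x) + s) / p (ϑ x))) *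
        Real.cos (Real.arctan (q (ϑ x) / p (ϑ x))) +
        Real.sin (Real.arctan ((q (ϑ x) + s) / p (ϑ x))) *
        Real.sin (Real.arctan (q (ϑ x) / p (ϑ x)))) + -q (ϑ x) / (p (ϑ x) * R (ϑ x)) *
        (Real.sin (Real.arctan ((q (ϑ x) + s) / p (ϑ x))) *
        Real.cos (Real.arctan (q (ϑ x) / p (ϑ x))) -
        Real.cos (Real.arctan ((q (ϑ x) + s) / p (ϑ x))) *
        Real.sin (Real.arctan (q (ϑ x) / p (ϑ x)))) = _
      rw [c1, s1, c2, s2, ← hR]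
      have hsq := Rsq (ϑ x)
      have a1 := (Rpos (ϑ x)).ne'
      have a2 : p (ϑ x) ≠ 0 := (hsp (ϑ x)).ne'
      have a3 := r1.ne'
      generalize √(p (ϑ x) ^ 2 + (q (ϑ x) + s) ^ 2) = w at *
      generalize R (ϑ x) = r at *
      generalize p (ϑ x) = p0 at *
      generalize q (ϑ x) = q0 at *
      have hr2 : r ^ 2 = p0 ^ 2 + q0 ^ 2 := hsq
      field_simp
      rw [hr2]
      ring
    constructor
    · rw [main]
      exact one_div_pos.2 r1
    · have e1 : x + δ = ϑ x + Real.arctan ((q (ϑ x) + s) / p (ϑ x)) := by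
        rw [hδ]
        ring
      rw [main, e1]
      have h1 : P γ (ϑ x) s = ((p (ϑ x) : ℂ) + ((q (ϑ x) + s : ℝ) : ℂ) * I) *
          exp ((ϑ x : ℝ) * I) := by
        unfold P tang
        rw [gam_eq γ (ϑ x)]
        push_cast
        ring
      rw [h1, polar (hsp (ϑ x))]
      have h2 : ((√(p (ϑ x) ^ 2 + (q (ϑ x) + s) ^ 2) : ℝ) : ℂ) ≠ 0 := by
        exact_mod_cast r1.ne'
      change ((√(p (ϑ x) ^ 2 + (q (ϑ x) + s) ^ 2) : ℝ) : ℂ) *
        exp (((ϑ x + Real.arctan ((q (ϑ x) + s) / p (ϑ x)) : ℝ) : ℂ) * I) = _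
      push_cast
      field_simp

end Pool.Agent.H97.IN
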